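import Pool.Agent.Lib.MP_a247fa_nt.V.Defs
import Pool.Agent.Lib.MP_a247fa_nt.W.CrcInv
import Pool.Agent.Lib.MP_a247fa_nt.W.Near

/-! BRANCH (40 min). Paper (2.1): the monotone branch over each unit.

`i` even (`i ≥ 2`): `p = i`, `q = i+1`; `dcf > 0` on `[i, i+1]`: `dcf (i+s) = 1 - cos(πs)/2 + (..) sin(πs) ≥ 1/2` (`dcf_even`); `cf i = i/2 = lo i`, `cf (i+1) = T(i+1) = hi i` (`cf_natCast`, `T_even`, `T_odd`);
`exists_inv_pos` gives `h`. `Trp x`, `Fld x` are false on `(i,i+1)` (`⌊x⌋₊ = i` even).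
`i` odd: `exists_crit_pair`: `c < c'` with `dcf > 0` on `[i,c)`, `< 0` on `(c,c')`, `> 0` on `(c', i+1]`. `cf i = T i = hi i`, so `cf c > hi i`; `cf (i+1) = (i+1)/2 = lo i`, so `cf c' < lo i`;
`p`, `q` in `(c, c')` with `cf p = hi i`, `cf q = lo i` by the intermediate value theorem (`cf` strictly antitone on `[c,c']`; `hi i > lo i`). `exists_inv_neg` on `[p,q]`.
For `x ∈ (i, i+1)`, `⌊x⌋₊ = i`: `Trp x ↔ hi i ≤ cf x`: on `(i, c]` `cf x > hi i`, on `[c, c']` iff `x ≤ p`, on `[c', i+1)` `cf x < lo i < hi i`. `Fld x ↔ cf x < lo i`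
(`(⌊x⌋₊+1)/2 = lo i` as a real): on `(i,c]` no, on `[c,c']` iff `q < x`, on `(c', i+1)` yes (strictly increasing up to `lo i` at `i+1`). -/

set_option autoImplicit false

namespace Pool.Agent.Lib.MP_a247fa_nt.V

open Set MeasureTheory
open Pool.Agent.Lib.MP_a247fa_nt.W

private lemma Br_floor {i : ℕ} {x : ℝ} (hx : x ∈ Ioo (i : ℝ) (i + 1)) : ⌊x⌋₊ = i := by
  have h0 : (0 : ℝ) ≤ i := Nat.cast_nonneg i
  rw [Nat.floor_eq_iff (by linarith [hx.1])]
  exact ⟨hx.1.le, hx.2⟩

private lemma Br_trp {i : ℕ} (h : i % 2 = 1) {x : ℝ} (hx : x ∈ Ioo (i : ℝ) (i + 1)) : Trp x ↔ (hi i : ℝ) ≤ cf x := by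
  have hT : T i = hi i := by unfold T hi; rw [if_neg (by omega)]; omega
  unfold Trp
  rw [Br_floor hx, hT]
  exact ⟨fun a => a.2, fun a => ⟨h, a⟩⟩

private lemma Br_fld {i : ℕ} (h : i % 2 = 1) {x : ℝ} (hx : x ∈ Ioo (i : ℝ) (i + 1)) : Fld x ↔ cf x < (lo i : ℝ) := by
  have hl : (lo i : ℝ) = ((i : ℝ) + 1) / 2 := by
    obtain ⟨k, rfl⟩ : ∃ k, i = 2 * k + 1 := ⟨i / 2, by omega⟩
    have : lo (2 * k + 1) = k + 1 := by unfold lo; omega
    rw [this]; push_cast; ring
  unfold Fld
  rw [Br_floor hx, hl]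
  exact ⟨fun a => a.2, fun a => ⟨h, a⟩⟩

theorem exists_br {i : ℕ} (hi1 : 1 ≤ i) : ∃ (p q : ℝ) (h : ℝ → ℝ), Br i p q h := by
  have hi0 : (0 : ℝ) ≤ i := Nat.cast_nonneg i
  have hder : ∀ x, deriv cf x = dcf x := fun x => (hasDerivAt_cf x).deriv
  rcases (by omega : i % 2 = 0 ∨ i % 2 = 1) with he | ho
  · have hcp : cf (i : ℝ) = (lo i : ℝ) := by
      rw [cf_natCast]
      have : T i = lo i := by unfold T lo; rw [if_pos he]; omega
      rw [this]
    have hcq : cf ((i : ℝ) + 1) = (hi i : ℝ) := by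
      have e : ((i : ℝ) + 1) = ((i + 1 : ℕ) : ℝ) := by push_cast; ring
      rw [e, cf_natCast]
      have : T (i + 1) = hi i := by unfold T hi; rw [if_neg (by omega)]; omega
      rw [this]
    have hs : ∀ t ∈ Icc (i : ℝ) (i + 1), 0 < dcf t := by
      intro t ht
      rcases le_or_gt t ((i : ℝ) + 1 / 2) with h1 | h1
      · have := sign_even_right he ht.1 h1
        linarith
      · have := sign_odd_left (m := i + 1) (by omega) (y := t) (by push_cast; linarith) (by push_cast; linarith [ht.2])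
        linarith
    obtain ⟨h, hc, hmono, hm, hce, hcm, hhc⟩ := exists_inv_pos (p := (i : ℝ)) (q := (i : ℝ) + 1) hi0 (by linarith) hs
    rw [hcp, hcq] at hc hm hce hcm
    refine ⟨i, i + 1, h, ⟨le_refl _, by linarith, le_refl _, ?_, ?_, hc, hm, hce, hcm, hhc, ?_, ?_⟩⟩
    · intro x hx
      constructor
      · intro a
        have := a.1
        rw [Br_floor hx] at this
        omega
      · intro a
        linarith [hx.1]
    · intro x hx
      constructor
      · intro a
        have := a.1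
        rw [Br_floor hx] at this
        omega
      · intro a
        linarith [hx.2]
    · intro _
      refine ⟨?_, rfl, rfl, hcp, hcq⟩
      apply strictMonoOn_of_deriv_pos (convex_Icc _ _) continuous_cf.continuousOn
      intro x hx
      rw [hder]
      exact hs x (interior_subset hx)
    · intro a
      omega
  · obtain ⟨c, c', h1, h2, h3, h4, d1, d2, d3, -, -⟩ := exists_crit_pair ho
    have hcp : cf (i : ℝ) = (hi i : ℝ) := by
      rw [cf_natCast]
      have : T i = hi i := by unfold T hi; rw [if_neg (by omega)]; omega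
      rw [this]
    have hcq : cf ((i : ℝ) + 1) = (lo i : ℝ) := by
      have e : ((i : ℝ) + 1) = ((i + 1 : ℕ) : ℝ) := by push_cast; ring
      rw [e, cf_natCast]
      have : T (i + 1) = lo i := by unfold T lo; rw [if_pos (by omega)]
      rw [this]
    have hlh : (lo i : ℝ) < hi i := by
      have : lo i < hi i := by unfold lo hi; omega
      exact_mod_cast this
    have m1 : StrictMonoOn cf (Icc (i : ℝ) c) := by
      apply strictMonoOn_of_deriv_pos (convex_Icc _ _) continuous_cf.continuousOn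
      intro x hx
      rw [interior_Icc] at hx
      rw [hder]
      exact d1 x hx.1.le hx.2
    have m2 : StrictAntiOn cf (Icc c c') := by
      apply strictAntiOn_of_deriv_neg (convex_Icc _ _) continuous_cf.continuousOn
      intro x hx
      rw [interior_Icc] at hx
      rw [hder]
      exact d2 x hx.1 hx.2
    have m3 : StrictMonoOn cf (Icc c' ((i : ℝ) + 1)) := by
      apply strictMonoOn_of_deriv_pos (convex_Icc _ _) continuous_cf.continuousOn
      intro x hx
      rw [interior_Icc] at hx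
      rw [hder]
      exact d3 x hx.1 (by linarith [hx.2])
    have hcc : c < c' := by linarith
    have e1 : (hi i : ℝ) < cf c := by
      rw [← hcp]
      exact m1 ⟨le_refl _, h1.le⟩ ⟨h1.le, le_refl _⟩ h1
    have e2 : cf c' < (lo i : ℝ) := by
      rw [← hcq]
      exact m3 ⟨le_refl _, h4.le⟩ ⟨h4.le, le_refl _⟩ h4
    have ivt := intermediate_value_Icc' hcc.le (continuous_cf.continuousOn (s := Icc c c'))
    obtain ⟨p, hp, hpv⟩ := ivt (show (hi i : ℝ) ∈ Icc (cf c') (cf c) from ⟨by linarith, e1.le⟩)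
    obtain ⟨q, hq, hqv⟩ := ivt (show (lo i : ℝ) ∈ Icc (cf c') (cf c) from ⟨e2.le, by linarith⟩)
    have hcp' : c < p := by
      rcases hp.1.lt_or_eq with a | a
      · exact a
      · rw [← a] at hpv; linarith
    have hqc' : q < c' := by
      rcases hq.2.lt_or_eq with a | a
      · exact a
      · rw [a] at hqv; linarith
    have hpq : p < q := by
      rw [← m2.lt_iff_gt hq hp, hpv, hqv]
      exact hlh
    have hs : ∀ t ∈ Icc p q, dcf t < 0 := by
      intro t ht
      exact d2 t (by linarith [ht.1]) (by linarith [ht.2])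
    obtain ⟨h, hc, hanti, hm, hce, hcm, hhc⟩ := exists_inv_neg (p := p) (q := q) (by linarith) hpq hs
    rw [hpv, hqv] at hc hm hce hcm
    refine ⟨p, q, h, ⟨by linarith, hpq, by linarith, ?_, ?_, hc, hm, hce, hcm, hhc, ?_, ?_⟩⟩
    · intro x hx
      rw [Br_trp ho hx]
      rcases le_or_gt x c with a | a
      · have : cf (i : ℝ) < cf x := m1 ⟨le_refl _, h1.le⟩ ⟨hx.1.le, a⟩ hx.1
        rw [hcp] at this
        exact ⟨fun _ => by linarith, fun _ => this.le⟩
      · rcases le_or_gt x c' with a' | a'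
        · rw [← hpv]
          exact m2.le_iff_ge hp ⟨a.le, a'⟩
        · have : cf x < cf ((i : ℝ) + 1) := m3 ⟨a'.le, hx.2.le⟩ ⟨h4.le, le_refl _⟩ hx.2
          rw [hcq] at this
          constructor
          · intro b; linarith
          · intro b; linarith [hp.2]
    · intro x hx
      rw [Br_fld ho hx]
      rcases le_or_gt x c with a | a
      · have : cf (i : ℝ) < cf x := m1 ⟨le_refl _, h1.le⟩ ⟨hx.1.le, a⟩ hx.1
        rw [hcp] at this
        constructor
        · intro b; linarith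
        · intro b; linarith [hq.1]
      · rcases le_or_gt x c' with a' | a'
        · rw [← hqv]
          exact m2.lt_iff_gt ⟨a.le, a'⟩ hq
        · have : cf x < cf ((i : ℝ) + 1) := m3 ⟨a'.le, hx.2.le⟩ ⟨h4.le, le_refl _⟩ hx.2
          rw [hcq] at this
          exact ⟨fun _ => by linarith, fun _ => this⟩
    · intro a
      omega
    · intro _
      exact ⟨m2.mono (Icc_subset_Icc hp.1 hq.2), by linarith, by linarith, hpv, hqv⟩

end Pool.Agent.Lib.MP_a247fa_nt.V
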