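import Pool.Agent.Lib.MP_a247fa_nt.V.Disp

/-! CAPIN. (3.2): `(n, n + al n)` is in `Trp` (n odd), `(n - be n, n)` is in `Fld` (n even, n ≥ 2).
Trp: `s = x - n ∈ (0, .58/(n+1))`, `s ≤ .29 < 1`, so `⌊x⌋₊ = n`; `cf x ≥ T n` iff `D n x ≤ 0`, i.e. `(n+1/2+s) hs s ≤ 3s/2` (`D_odd_add`; `T n = (3n+1)/2`: `T_odd`);
`hs s ≤ 987/400 s^2` (`hs_le`) and `(n+1/2+s) s ≤ (n + .79) * .58/(n+1) ≤ .58`, `.58 * 987/400 = 1.4312 ≤ 3/2`.
Fld: `s = n - x ∈ (0, .2/(n+1/2))`, `s ≤ .08`, `⌊x⌋₊ = n-1` (odd), `Fld x` iff `cf x < n/2` iff `D n x < 0`: `(n+1/2-s) hs s < s/2` since `(n+1/2) (987/400) s ≤ .4935 < 1/2`. -/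

set_option autoImplicit false

namespace Pool.Agent.Lib.MP_a247fa_nt.V

open Set MeasureTheory
open Pool.Agent.Lib.MP_a247fa_nt.W

theorem trp_near {n : ℕ} (h : n % 2 = 1) {x : ℝ} (h0 : (n : ℝ) < x) (h1 : x < n + al n) : Trp x := by
  obtain ⟨s, rfl⟩ : ∃ s : ℝ, x = n + s := ⟨x - n, by ring⟩
  have hn1 : (1 : ℝ) ≤ n := by
    have : 1 ≤ n := by omega
    exact_mod_cast this
  have hs0 : 0 < s := by linarith
  have hs1 : s < al n := by linarith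
  unfold al at hs1
  rw [lt_div_iff₀ (by linarith)] at hs1
  have hs2 : s < 29 / 100 := by nlinarith
  have hfl : ⌊(n : ℝ) + s⌋₊ = n := by
    rw [Nat.floor_eq_iff (by linarith)]
    exact ⟨by linarith, by linarith⟩
  refine ⟨by rw [hfl]; exact h, ?_⟩
  rw [hfl, T_odd h]
  have hD := D_odd_add h s
  unfold D at hD
  rw [if_neg (by omega)] at hD
  have h2 := hs_le s
  have h3 : (n + 1 / 2 + s) * hs s ≤ (n + 1 / 2 + s) * (987 / 400 * s ^ 2) :=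
    mul_le_mul_of_nonneg_left h2 (by linarith)
  have h4 : (n + 1 / 2 + s) * (987 / 400 * s ^ 2) = (987 / 400 * ((n + 1 / 2 + s) * s)) * s := by ring
  have h5 : ((n : ℝ) + 1 / 2 + s) * s ≤ 29 / 50 := by nlinarith
  have h6 : (987 / 400 * ((n + 1 / 2 + s) * s)) * s ≤ (987 / 400 * (29 / 50)) * s :=
    mul_le_mul_of_nonneg_right (by linarith) hs0.le
  linarith

theorem fld_near {n : ℕ} (h : n % 2 = 0) (h2 : 2 ≤ n) {x : ℝ} (h0 : (n : ℝ) - be n < x) (h1 : x < n) : Fld x := by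
  obtain ⟨s, rfl⟩ : ∃ s : ℝ, x = n - s := ⟨n - x, by ring⟩
  have hn1 : (2 : ℝ) ≤ n := by exact_mod_cast h2
  have hs0 : 0 < s := by linarith
  have hs1 : s < be n := by linarith
  unfold be at hs1
  rw [lt_div_iff₀ (by linarith)] at hs1
  have hs2 : s < 8 / 100 := by nlinarith
  have hfl : ⌊(n : ℝ) - s⌋₊ = n - 1 := by
    rw [Nat.floor_eq_iff (by linarith)]
    rw [Nat.cast_sub (by omega)]
    constructor <;> push_cast <;> linarith
  refine ⟨by rw [hfl]; omega, ?_⟩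
  rw [hfl, Nat.cast_sub (by omega)]
  have hD := D_even_sub h s
  unfold D at hD
  rw [if_pos h] at hD
  have h3 := hs_le s
  have h4 : ((n : ℝ) + 1 / 2 - s) * hs s ≤ ((n : ℝ) + 1 / 2 - s) * (987 / 400 * s ^ 2) :=
    mul_le_mul_of_nonneg_left h3 (by linarith)
  have h5 : ((n : ℝ) + 1 / 2 - s) * (987 / 400 * s ^ 2) = (987 / 400 * (((n : ℝ) + 1 / 2 - s) * s)) * s := by ring
  have h6 : ((n : ℝ) + 1 / 2 - s) * s ≤ 1 / 5 := by nlinarith
  have h7 : (987 / 400 * (((n : ℝ) + 1 / 2 - s) * s)) * s ≤ (987 / 400 * (1 / 5)) * s :=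
    mul_le_mul_of_nonneg_right (by linarith) hs0.le
  push_cast
  linarith

end Pool.Agent.Lib.MP_a247fa_nt.V
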