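import Pool.Agent.Lib.MP_a247fa_nt.V.Defs
import Pool.Agent.Lib.MP_a247fa_nt.Ver.Upto

/-! VERSMALL. (Va). -/

set_option autoImplicit false

namespace Pool.Agent.Lib.MP_a247fa_nt.V

open Set MeasureTheory
open Pool.Agent.Lib.MP_a247fa_nt.W

theorem ver_small {m : ℕ} (h1 : 1 ≤ m) (h2 : m ≤ 20000000) : VerS m := Ver.reach_upto m h1 h2

theorem big_of_not_ver {m : ℕ} (h1 : 1 ≤ m) (h2 : ¬ VerS m) : 20000000 < m := by
  by_contra h
  exact h2 (ver_small h1 (by omega))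

end Pool.Agent.Lib.MP_a247fa_nt.V
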