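import Pool.Agent.Lib.MP_a247fa_nt.V.Induct
import Pool.Agent.Lib.MP_a247fa_nt.V.VerSmall

/-! CONCL (30 min). `|Vt t ∩ (n, n+1)| ≤ .0185`. `t = 0`: empty. `n = 1`: `v_one`. `n ≥ 2`, `t = t'+1`: `ν = volume.restrict (Ioo n (n+1))` is in `CR n (n+1)` (`cr_volume`); `unit_le` with `main_V t'`:
`≤ itg ν Nx n (n+1) + 23/1250 · ν (..)`, `ν ≤ 1`. `Nx x ≤ 1/16000 + tn n · ind (n - cc n) (n + cc n) x + tn (n+1) · ind (n+1 - cc (n+1)) (n+1+cc (n+1)) x` on `(n, n+1)` (P1 for the nearest integer, `Nx ≤ 1`), so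
`itg ν Nx ≤ 1/16000 + 2 · (3/2)/(2*10^7)` (`ν (n, n + cc n) ≤ cc n`; `tn n ≠ 0` only if `n > 2*10^7`). Sum `≤ .0184 + .0000625 + .00000015 ≤ .0185`. -/

set_option autoImplicit false

namespace Pool.Agent.Lib.MP_a247fa_nt.V

open Set MeasureTheory
open Pool.Agent.Lib.MP_a247fa_nt.W

private theorem concl_mu (n : ℕ) {x y : ℝ} (h : x ≤ y) :
    mu (volume.restrict (Ioo (n : ℝ) (n + 1))) x y ≤ y - x := by
  unfold mu
  have h1 : (volume.restrict (Ioo (n : ℝ) (n + 1))) (Ioo x y) ≤ ENNReal.ofReal (y - x) := by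
    calc (volume.restrict (Ioo (n : ℝ) (n + 1))) (Ioo x y) ≤ volume (Ioo x y) :=
          Measure.restrict_apply_le _ _
      _ = ENNReal.ofReal (y - x) := Real.volume_Ioo
  calc ((volume.restrict (Ioo (n : ℝ) (n + 1))) (Ioo x y)).toReal
      ≤ (ENNReal.ofReal (y - x)).toReal := ENNReal.toReal_mono ENNReal.ofReal_ne_top h1
    _ = y - x := ENNReal.toReal_ofReal (by linarith)

private theorem concl_tn (n : ℕ) : 0 ≤ tn n ∧ tn n ≤ 1 := by
  unfold tn
  split_ifs <;> norm_num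

private theorem concl_tn_cc {n : ℕ} (hn : 1 ≤ n) : tn n * cc n ≤ 3 / 2 / 20000000 := by
  unfold tn
  split_ifs with h
  · rw [zero_mul]
    norm_num
  · have h1 := big_of_not_ver hn h
    have h2 : (20000000 : ℝ) < n := by exact_mod_cast h1
    rw [one_mul, cc]
    exact div_le_div_of_nonneg_left (by norm_num) (by norm_num) h2.le

private theorem concl_nx {n : ℕ} (hn : 2 ≤ n) {x : ℝ} (hx : x ∈ Ioo (n : ℝ) (n + 1)) :
    Nx x ≤ 1 / 16000 + tn n * ind n (n + cc n) x +
      tn (n + 1) * ind (n + 1 - cc (n + 1)) (n + 1) x := by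
  have a1 := (concl_tn n).1
  have a2 := (concl_tn (n + 1)).1
  have i1 := ind_nonneg (n : ℝ) (n + cc n) x
  have i2 := ind_nonneg ((n : ℝ) + 1 - cc (n + 1)) (n + 1) x
  have m1 := mul_nonneg a1 i1
  have m2 := mul_nonneg a2 i2
  rcases le_total x (n + 1 / 2) with h | h
  · have hs : |x - n| ≤ 1 / 2 := by
      rw [abs_le]
      constructor <;> linarith [hx.1]
    rcases P1 hn hx (Or.inl rfl) hs with h1 | ⟨h1, h2⟩
    · linarith
    · have h3 : x < n + cc n := by
        rw [abs_lt] at h2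
        linarith [h2.2]
      rw [ind_of_mem hx.1 h3, tn, if_neg h1, mul_one]
      have := nx_le_one x
      linarith
  · have hs : |x - ((n + 1 : ℕ) : ℝ)| ≤ 1 / 2 := by
      push_cast
      rw [abs_le]
      constructor <;> linarith [hx.2]
    rcases P1 hn hx (Or.inr rfl) hs with h1 | ⟨h1, h2⟩
    · linarith
    · have h3 : (n : ℝ) + 1 - cc (n + 1) < x := by
        push_cast at h2
        rw [abs_lt] at h2
        linarith [h2.1]
      have h4 : tn (n + 1) = 1 := by rw [tn, if_neg h1]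
      rw [ind_of_mem h3 hx.2, h4, mul_one]
      have := nx_le_one x
      linarith

theorem V_le {n : ℕ} (hn : 1 ≤ n) (t : ℕ) :
    volume (Ioo (n : ℝ) (n + 1) ∩ Vt t) ≤ ENNReal.ofReal (185 / 10000) := by
  rcases t with _ | t
  · have h : Ioo (n : ℝ) (n + 1) ∩ Vt 0 = ∅ := by
      show Ioo (n : ℝ) (n + 1) ∩ ∅ = ∅
      exact inter_empty _
    rw [h, measure_empty]
    exact bot_le
  rcases eq_or_lt_of_le hn with hn1 | hn2
  · have h : Ioo (n : ℝ) (n + 1) ∩ Vt (t + 1) = ∅ := by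
      rw [← hn1]
      ext x
      simp only [mem_inter_iff, mem_Ioo, mem_empty_iff_false, iff_false, not_and]
      rintro ⟨h1, h2⟩
      refine v_one (t + 1) ?_ ?_
      · push_cast at h1
        exact h1.le
      · push_cast at h2
        linarith
    rw [h, measure_empty]
    exact bot_le
  set ν : Measure ℝ := volume.restrict (Ioo (n : ℝ) (n + 1)) with hν
  have hCR : CR ν n (n + 1) := cr_volume n
  have := hCR.fin
  have := hCR.noat
  have h1 := unit_le (main_V t) hn hCR le_rfl le_rfl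
  have hcc : cc n ≤ 1 := by
    rw [cc, div_le_one (by positivity)]
    have : (2 : ℝ) ≤ n := by exact_mod_cast hn2
    linarith
  have hcc0 : 0 ≤ cc n := by
    rw [cc]
    positivity
  have hcc' : cc (n + 1) ≤ 1 := by
    rw [cc, div_le_one (by positivity)]
    push_cast
    have : (2 : ℝ) ≤ n := by exact_mod_cast hn2
    linarith
  have hcc0' : 0 ≤ cc (n + 1) := by
    rw [cc]
    positivity
  have b1 := bm_cmul (tn n) (bm_ind (n : ℝ) (n + cc n))
  have b2 := bm_cmul (tn (n + 1)) (bm_ind ((n : ℝ) + 1 - cc (n + 1)) (n + 1))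
  have h2 := itg_mono (ν := ν) bm_nx (bm_add (bm_add (bm_const (1 / 16000)) b1) b2)
    (fun x hx => concl_nx hn2 hx)
  rw [itg_add (bm_add (bm_const (1 / 16000)) b1) b2, itg_add (bm_const (1 / 16000)) b1, itg_const,
    itg_cmul, itg_cmul, itg_ind le_rfl (by linarith), itg_ind (by linarith) le_rfl] at h2
  have h3 : mu ν n (n + 1) ≤ 1 := by
    have := concl_mu n (x := (n : ℝ)) (y := n + 1) (by linarith)
    linarith
  have h4 : mu ν n (n + cc n) ≤ cc n := by
    have := concl_mu n (x := (n : ℝ)) (y := n + cc n) (by linarith)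
    linarith
  have h5 : mu ν (n + 1 - cc (n + 1)) (n + 1) ≤ cc (n + 1) := by
    have := concl_mu n (x := (n : ℝ) + 1 - cc (n + 1)) (y := n + 1) (by linarith)
    linarith
  have h6 := mul_le_mul_of_nonneg_left h4 (concl_tn n).1
  have h7 := mul_le_mul_of_nonneg_left h5 (concl_tn (n + 1)).1
  have h8 := concl_tn_cc (n := n) hn
  have h9 := concl_tn_cc (n := n + 1) (by omega)
  have h10 : (ν (Ioo (n : ℝ) (n + 1) ∩ (Ct (t + 1) \ Cap))).toReal ≤ 1 := by
    refine le_trans ?_ h3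
    exact ENNReal.toReal_mono (measure_ne_top _ _) (measure_mono inter_subset_left)
  have h11 : (ν (Ioo (n : ℝ) (n + 1) ∩ Vt (t + 1))).toReal ≤ 185 / 10000 := by
    have h12 : (1 / 16000 : ℝ) * mu ν n (n + 1) ≤ 1 / 16000 := by
      have := mul_le_mul_of_nonneg_left h3 (show (0 : ℝ) ≤ 1 / 16000 by norm_num)
      linarith
    have h13 : (1 / 16000 : ℝ) + 2 * (3 / 2 / 20000000) + 23 / 1250 ≤ 185 / 10000 := by norm_num
    have h14 : (23 / 1250 : ℝ) * (ν (Ioo (n : ℝ) (n + 1) ∩ (Ct (t + 1) \ Cap))).toReal ≤ 23 / 1250 := by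
      have := mul_le_mul_of_nonneg_left h10 (show (0 : ℝ) ≤ 23 / 1250 by norm_num)
      linarith
    linarith
  have h15 : volume (Ioo (n : ℝ) (n + 1) ∩ Vt (t + 1)) = ν (Ioo (n : ℝ) (n + 1) ∩ Vt (t + 1)) := by
    rw [hν, Measure.restrict_apply (measurableSet_Ioo.inter (meas_Vt _))]
    congr 1
    rw [inter_assoc, inter_comm (Vt (t + 1)), ← inter_assoc, inter_self]
  rw [h15, ← ENNReal.ofReal_toReal (measure_ne_top ν (Ioo (n : ℝ) (n + 1) ∩ Vt (t + 1)))]
  exact ENNReal.ofReal_le_ofReal h11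

end Pool.Agent.Lib.MP_a247fa_nt.V
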