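import Pool.Agent.Lib.MP_a247fa_nt.V.MuBasic

/-! CRBASIC (20 min). `cr_sub` : trivial. `cr_volume` : `mu = y - x` for `n ≤ x ≤ y ≤ n+1`, so the inequality is an equality
(`Measure.restrict_apply`, `Real.volume_Ioo`). `mu_vol` is the value of `mu`. -/

set_option autoImplicit false

namespace Pool.Agent.Lib.MP_a247fa_nt.V

open Set MeasureTheory
open Pool.Agent.Lib.MP_a247fa_nt.W

theorem cr_sub {ν : Measure ℝ} {a b a' b' : ℝ} (h : CR ν a b) (ha : a ≤ a') (hb : b' ≤ b) : CR ν a' b' :=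
  ⟨h.fin, h.noat, fun x y z w h1 h2 h3 h4 h5 => h.cr x y z w (ha.trans h1) h2 h3 h4 (h5.trans hb)⟩

theorem mu_vol {n : ℕ} {x y : ℝ} (hx : (n : ℝ) ≤ x) (hxy : x ≤ y) (hy : y ≤ n + 1) :
    mu (volume.restrict (Ioo (n : ℝ) (n + 1))) x y = y - x := by
  unfold mu
  rw [Measure.restrict_apply measurableSet_Ioo, inter_eq_self_of_subset_left (Ioo_subset_Ioo hx hy), Real.volume_Ioo,
    ENNReal.toReal_ofReal (by linarith)]

theorem cr_volume (n : ℕ) : CR (volume.restrict (Ioo (n : ℝ) (n + 1))) n (n + 1) := by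
  refine ⟨⟨?_⟩, inferInstance, ?_⟩
  · rw [Measure.restrict_apply_univ, Real.volume_Ioo]
    exact ENNReal.ofReal_lt_top
  · intro x y z w h1 h2 h3 h4 h5
    rw [mu_vol (by linarith) h3.le (by linarith), mu_vol h1 (by linarith) h5, mu_vol h1 h2.le (by linarith),
      mu_vol (by linarith) h4.le h5]
    apply le_of_eq
    ring

end Pool.Agent.Lib.MP_a247fa_nt.V
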