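import Pool.Agent.Lib.MP_a247fa_nt.V.CrBasic

/-! CRCENT (45 min). Consequences of the inequality CR, paper (1.2), (1.4), (1.5).

`cr_cent` (1.2): if `x = L` trivial (`L/L = 1`, `L > 0`). Else `M = mu (c-x) (c+x)`, `S = mu (c-L) (c+L)`, outer parts `P`, `Q` with `P + M + Q = S`
(`mu_add`). CR with `c-L < c-x < c+x < c+L`: `M S (L-x)^2 ≤ P Q (2x)(2L)`, `P Q ≤ (S-M)^2/4`, so `M S (L-x)^2 ≤ x L (S-M)^2`. If `L M > x S` then
`L·(left) > x S^2 (L-x)^2 = x (L S - x S)^2 > x (L S - L M)^2 = L·(right)` (with `S ≥ M > 0`), contradiction.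

`cr_four` (1.4): `P Q ≤ ((P+Q)/2)^2 ≤ (S/2)^2`; CR: `mu x y · S · (x-w1)(w2-y) ≤ P Q (y-x)(w2-w1) ≤ S^2/4 (y-x)(w2-w1)`; divide by `S` (if `S = 0` then `mu x y ≤ S = 0`).

`cr_right` (1.5): `A = mu n (n+al)`. If `al < r`: CR with `(n, n+al, n+r, n+1)`: `mu (n+al) (n+r) · mu n (n+1) · al (1-r) ≤ A · mu (n+r) (n+1) · (r-al) · 1` and
`mu (n+r) (n+1) ≤ mu n (n+1)`, so `mu (n+al) (n+r) ≤ (r-al)/(al(1-r)) A` (if `mu n (n+1) = 0` everything is `0`). CR with `(n-1, n-r, n, n+al)`: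
`mu (n-r) n · mu (n-1) (n+al) · (1-r) al ≤ mu (n-1) (n-r) · A · r (1+al)`, so `mu (n-r) n ≤ r(1+al)/((1-r)al) A`. Sum:
`[(r-al) + r(1+al) + al(1-r)]/(al(1-r)) A = 2r/(al(1-r)) A`. `cr_left` is the mirror image (points `(n-1, n-r, n-al, n)` and `(n-al, n, n+r, n+1)`). -/

set_option autoImplicit false

namespace Pool.Agent.Lib.MP_a247fa_nt.V

open Set MeasureTheory
open Pool.Agent.Lib.MP_a247fa_nt.W

theorem cr_cent {ν : Measure ℝ} {a b c x L : ℝ} (h : CR ν a b) (ha : a ≤ c - L) (hb : c + L ≤ b) (hx : 0 < x)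
    (hxL : x ≤ L) : mu ν (c - x) (c + x) ≤ x / L * mu ν (c - L) (c + L) := by
  have fin := h.fin
  have noat := h.noat
  have hL : 0 < L := by linarith
  rcases hxL.eq_or_lt with h1 | h1
  · rw [h1, div_self hL.ne', one_mul]
  obtain ⟨M, hM⟩ : ∃ M, M = mu ν (c - x) (c + x) := ⟨_, rfl⟩
  obtain ⟨S, hS⟩ : ∃ S, S = mu ν (c - L) (c + L) := ⟨_, rfl⟩
  obtain ⟨P, hP⟩ : ∃ P, P = mu ν (c - L) (c - x) := ⟨_, rfl⟩
  obtain ⟨Q, hQ⟩ : ∃ Q, Q = mu ν (c + x) (c + L) := ⟨_, rfl⟩
  have hsum : S = P + M + Q := by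
    have e1 := mu_add (ν := ν) (x := c - L) (y := c - x) (z := c + L) (by linarith) (by linarith)
    have e2 := mu_add (ν := ν) (x := c - x) (y := c + x) (z := c + L) (by linarith) (by linarith)
    rw [hS, hP, hM, hQ, e1, e2]
    ring
  have cr := h.cr (c - L) (c - x) (c + x) (c + L) ha (by linarith) (by linarith) (by linarith) hb
  rw [← hM, ← hS, ← hP, ← hQ] at cr
  have hM0 : 0 ≤ M := by rw [hM]; exact mu_nonneg _ _ _
  have hP0 : 0 ≤ P := by rw [hP]; exact mu_nonneg _ _ _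
  have hQ0 : 0 ≤ Q := by rw [hQ]; exact mu_nonneg _ _ _
  rw [← hM, ← hS]
  have e3 : M * S * (L - x) ^ 2 ≤ P * Q * (4 * x * L) := by
    have e4 : M * S * (L - x) ^ 2 = M * S * ((c - x - (c - L)) * (c + L - (c + x))) := by ring
    have e5 : P * Q * (4 * x * L) = P * Q * ((c + x - (c - x)) * (c + L - (c - L))) := by ring
    rw [e4, e5]
    exact cr
  have e6 : P * Q * (4 * x * L) ≤ x * L * (S - M) ^ 2 := by
    have e7 : 4 * (P * Q) ≤ (S - M) ^ 2 := by
      have : S - M = P + Q := by linarith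
      rw [this]
      nlinarith [sq_nonneg (P - Q)]
    have e8 : 0 ≤ x * L := by positivity
    nlinarith
  by_contra hcon
  push Not at hcon
  have hcon2 : x * S < L * M := by
    have e9 : x / L * S = x * S / L := by ring
    rw [e9, div_lt_iff₀ hL] at hcon
    linarith
  have hS0 : 0 < S := by
    have hS1 : 0 ≤ S := by linarith
    rcases hS1.eq_or_lt with e | e
    · exfalso
      have : M = 0 := by linarith
      rw [this, ← e] at hcon2
      simp at hcon2
    · exact e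
  have e10 : 0 < S * (L - x) ^ 2 := by
    have : 0 < L - x := by linarith
    positivity
  have e11 : x * S * (S * (L - x) ^ 2) < L * M * (S * (L - x) ^ 2) := mul_lt_mul_of_pos_right hcon2 e10
  have e12 : L * M * (S * (L - x) ^ 2) ≤ L * (x * L * (S - M) ^ 2) := by
    have : L * M * (S * (L - x) ^ 2) = L * (M * S * (L - x) ^ 2) := by ring
    rw [this]
    exact mul_le_mul_of_nonneg_left (e3.trans e6) hL.le
  have e13 : L * S - L * M < L * S - x * S := by linarith
  have e14 : 0 ≤ L * S - L * M := by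
    have : 0 ≤ L * (S - M) := mul_nonneg hL.le (by linarith)
    linarith
  have e15 : (L * S - L * M) ^ 2 ≤ (L * S - x * S) ^ 2 := pow_le_pow_left₀ e14 e13.le 2
  have e16 : x * (L * S - L * M) ^ 2 ≤ x * (L * S - x * S) ^ 2 := mul_le_mul_of_nonneg_left e15 hx.le
  have e17 : L * (x * L * (S - M) ^ 2) = x * (L * S - L * M) ^ 2 := by ring
  have e18 : x * S * (S * (L - x) ^ 2) = x * (L * S - x * S) ^ 2 := by ring
  linarith

theorem cr_four {ν : Measure ℝ} {a b w1 x y w2 : ℝ} (h : CR ν a b) (h1 : a ≤ w1) (h2 : w1 < x) (h3 : x < y)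
    (h4 : y < w2) (h5 : w2 ≤ b) :
    mu ν x y ≤ (y - x) * (w2 - w1) / (4 * ((x - w1) * (w2 - y))) * mu ν w1 w2 := by
  have fin := h.fin
  have noat := h.noat
  have cr := h.cr w1 x y w2 h1 h2 h3 h4 h5
  obtain ⟨A, hA⟩ : ∃ A, A = mu ν x y := ⟨_, rfl⟩
  obtain ⟨S, hS⟩ : ∃ S, S = mu ν w1 w2 := ⟨_, rfl⟩
  obtain ⟨P, hP⟩ : ∃ P, P = mu ν w1 x := ⟨_, rfl⟩
  obtain ⟨Q, hQ⟩ : ∃ Q, Q = mu ν y w2 := ⟨_, rfl⟩
  have hsum : S = P + A + Q := by
    have e1 := mu_add (ν := ν) (x := w1) (y := x) (z := w2) (by linarith) (by linarith)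
    have e2 := mu_add (ν := ν) (x := x) (y := y) (z := w2) (by linarith) (by linarith)
    rw [hS, hP, hA, hQ, e1, e2]
    ring
  rw [← hA, ← hS, ← hP, ← hQ] at cr
  rw [← hA, ← hS]
  have hA0 : 0 ≤ A := by rw [hA]; exact mu_nonneg _ _ _
  have hP0 : 0 ≤ P := by rw [hP]; exact mu_nonneg _ _ _
  have hQ0 : 0 ≤ Q := by rw [hQ]; exact mu_nonneg _ _ _
  obtain ⟨d, hd⟩ : ∃ d, d = (x - w1) * (w2 - y) := ⟨_, rfl⟩
  obtain ⟨e, he⟩ : ∃ e, e = (y - x) * (w2 - w1) := ⟨_, rfl⟩
  rw [← hd, ← he] at cr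
  rw [← hd, ← he]
  have hd0 : 0 < d := by rw [hd]; exact mul_pos (by linarith) (by linarith)
  have he0 : 0 < e := by rw [he]; exact mul_pos (by linarith) (by linarith)
  have hS0 : 0 ≤ S := by linarith
  rcases hS0.eq_or_lt with h0 | h0
  · have : A = 0 := by linarith
    rw [this, ← h0, mul_zero]
  · have e1 : 4 * (P * Q) ≤ S ^ 2 := by
      have : P + Q ≤ S := by linarith
      nlinarith [sq_nonneg (P - Q)]
    have e2 : A * S * d ≤ S ^ 2 / 4 * e := cr.trans (mul_le_mul_of_nonneg_right (by linarith) he0.le)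
    have e3 : A * d ≤ S / 4 * e := by
      have : S * (A * d) ≤ S * (S / 4 * e) := by nlinarith
      exact le_of_mul_le_mul_left this h0
    have e4 : e / (4 * d) * S = S * e / (4 * d) := by ring
    rw [e4, le_div_iff₀ (by positivity)]
    linarith

private theorem Cc_R1 {ν : Measure ℝ} {a b x y z w : ℝ} (h : CR ν a b) (h0 : a ≤ x) (h1 : x < y) (h2 : y < z)
    (h3 : z < w) (h4 : w ≤ b) : mu ν y z * ((y - x) * (w - z)) ≤ mu ν z w * ((z - y) * (w - x)) := by
  have fin := h.fin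
  have noat := h.noat
  have cr := h.cr x y z w h0 h1 h2 h3 h4
  have l1 : mu ν x y ≤ mu ν x w := mu_mono le_rfl (by linarith)
  have l2 : mu ν y z ≤ mu ν x w := mu_mono (by linarith) (by linarith)
  have n1 := mu_nonneg ν y z
  have n2 := mu_nonneg ν z w
  have n3 : 0 < (y - x) * (w - z) := mul_pos (by linarith) (by linarith)
  have n4 : 0 < (z - y) * (w - x) := mul_pos (by linarith) (by linarith)
  rcases (mu_nonneg ν x w).eq_or_lt with e | e
  · have : mu ν y z = 0 := by linarith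
    rw [this, zero_mul]
    positivity
  · have e1 : mu ν x y * mu ν z w * ((z - y) * (w - x)) ≤ mu ν x w * (mu ν z w * ((z - y) * (w - x))) := by
      rw [mul_assoc]
      exact mul_le_mul_of_nonneg_right l1 (by positivity)
    have e2 : mu ν x w * (mu ν y z * ((y - x) * (w - z))) ≤ mu ν x w * (mu ν z w * ((z - y) * (w - x))) := by
      have : mu ν x w * (mu ν y z * ((y - x) * (w - z))) = mu ν y z * mu ν x w * ((y - x) * (w - z)) := by ring
      rw [this]
      exact cr.trans e1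
    exact le_of_mul_le_mul_left e2 e

private theorem Cc_R2 {ν : Measure ℝ} {a b x y z w : ℝ} (h : CR ν a b) (h0 : a ≤ x) (h1 : x < y) (h2 : y < z)
    (h3 : z < w) (h4 : w ≤ b) : mu ν y z * ((y - x) * (w - z)) ≤ mu ν x y * ((z - y) * (w - x)) := by
  have fin := h.fin
  have noat := h.noat
  have cr := h.cr x y z w h0 h1 h2 h3 h4
  have l1 : mu ν z w ≤ mu ν x w := mu_mono (by linarith) le_rfl
  have l2 : mu ν y z ≤ mu ν x w := mu_mono (by linarith) (by linarith)
  have n1 := mu_nonneg ν y z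
  have n2 := mu_nonneg ν x y
  have n3 : 0 < (y - x) * (w - z) := mul_pos (by linarith) (by linarith)
  have n4 : 0 < (z - y) * (w - x) := mul_pos (by linarith) (by linarith)
  rcases (mu_nonneg ν x w).eq_or_lt with e | e
  · have : mu ν y z = 0 := by linarith
    rw [this, zero_mul]
    positivity
  · have e1 : mu ν x y * mu ν z w * ((z - y) * (w - x)) ≤ mu ν x w * (mu ν x y * ((z - y) * (w - x))) := by
      have : mu ν x y * mu ν z w * ((z - y) * (w - x)) = mu ν z w * (mu ν x y * ((z - y) * (w - x))) := by ring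
      rw [this]
      exact mul_le_mul_of_nonneg_right l1 (by positivity)
    have e2 : mu ν x w * (mu ν y z * ((y - x) * (w - z))) ≤ mu ν x w * (mu ν x y * ((z - y) * (w - x))) := by
      have : mu ν x w * (mu ν y z * ((y - x) * (w - z))) = mu ν y z * mu ν x w * ((y - x) * (w - z)) := by ring
      rw [this]
      exact cr.trans e1
    exact le_of_mul_le_mul_left e2 e

theorem cr_right {ν : Measure ℝ} {a b n al r : ℝ} (h : CR ν a b) (ha : a ≤ n - 1) (hb : n + 1 ≤ b) (h1 : 0 < al)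
    (h2 : al ≤ r) (h3 : r < 1) : mu ν (n - r) (n + r) ≤ 2 * r / (al * (1 - r)) * mu ν n (n + al) := by
  have fin := h.fin
  have noat := h.noat
  have hr : 0 < r := by linarith
  obtain ⟨A, hA⟩ : ∃ A, A = mu ν n (n + al) := ⟨_, rfl⟩
  obtain ⟨X, hX⟩ : ∃ X, X = mu ν (n - r) n := ⟨_, rfl⟩
  obtain ⟨Z, hZ⟩ : ∃ Z, Z = mu ν (n + al) (n + r) := ⟨_, rfl⟩
  have hsum : mu ν (n - r) (n + r) = X + A + Z := by
    have e1 := mu_add (ν := ν) (x := n - r) (y := n) (z := n + r) (by linarith) (by linarith)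
    have e2 := mu_add (ν := ν) (x := n) (y := n + al) (z := n + r) (by linarith) (by linarith)
    rw [e1, e2, hX, hA, hZ]
    ring
  have b1 := Cc_R1 h (x := n - 1) (y := n - r) (z := n) (w := n + al) ha (by linarith) (by linarith) (by linarith)
    (by linarith)
  rw [← hX, ← hA] at b1
  have b2 : Z * (al * (1 - r)) ≤ A * (r - al) := by
    rcases h2.eq_or_lt with e | e
    · have : Z = 0 := by rw [hZ, e, mu_self]
      rw [this, e]
      simp
    · have b3 := Cc_R2 h (x := n) (y := n + al) (z := n + r) (w := n + 1) (by linarith) (by linarith) (by linarith)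
        (by linarith) hb
      rw [← hZ, ← hA] at b3
      have e4 : (n + al - n) * (n + 1 - (n + r)) = al * (1 - r) := by ring
      have e5 : (n + r - (n + al)) * (n + 1 - n) = r - al := by ring
      rwa [e4, e5] at b3
  have e6 : (n - r - (n - 1)) * (n + al - n) = al * (1 - r) := by ring
  have e7 : (n - (n - r)) * (n + al - (n - 1)) = r * (1 + al) := by ring
  rw [e6, e7] at b1
  rw [hsum, ← hA]
  have e8 : 2 * r / (al * (1 - r)) * A = 2 * r * A / (al * (1 - r)) := by ring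
  have hpos : 0 < al * (1 - r) := mul_pos h1 (by linarith)
  rw [e8, le_div_iff₀ hpos]
  nlinarith

theorem cr_left {ν : Measure ℝ} {a b n al r : ℝ} (h : CR ν a b) (ha : a ≤ n - 1) (hb : n + 1 ≤ b) (h1 : 0 < al)
    (h2 : al ≤ r) (h3 : r < 1) : mu ν (n - r) (n + r) ≤ 2 * r / (al * (1 - r)) * mu ν (n - al) n := by
  have fin := h.fin
  have noat := h.noat
  have hr : 0 < r := by linarith
  obtain ⟨A, hA⟩ : ∃ A, A = mu ν (n - al) n := ⟨_, rfl⟩
  obtain ⟨X, hX⟩ : ∃ X, X = mu ν n (n + r) := ⟨_, rfl⟩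
  obtain ⟨Z, hZ⟩ : ∃ Z, Z = mu ν (n - r) (n - al) := ⟨_, rfl⟩
  have hsum : mu ν (n - r) (n + r) = Z + A + X := by
    have e1 := mu_add (ν := ν) (x := n - r) (y := n) (z := n + r) (by linarith) (by linarith)
    have e2 := mu_add (ν := ν) (x := n - r) (y := n - al) (z := n) (by linarith) (by linarith)
    rw [e1, e2, hX, hA, hZ]
  have b1 := Cc_R2 h (x := n - al) (y := n) (z := n + r) (w := n + 1) (by linarith) (by linarith) (by linarith)
    (by linarith) hb
  rw [← hX, ← hA] at b1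
  have b2 : Z * (al * (1 - r)) ≤ A * (r - al) := by
    rcases h2.eq_or_lt with e | e
    · have : Z = 0 := by rw [hZ, e, mu_self]
      rw [this, e]
      simp
    · have b3 := Cc_R1 h (x := n - 1) (y := n - r) (z := n - al) (w := n) ha (by linarith) (by linarith)
        (by linarith) (by linarith)
      rw [← hZ, ← hA] at b3
      have e4 : (n - r - (n - 1)) * (n - (n - al)) = al * (1 - r) := by ring
      have e5 : (n - al - (n - r)) * (n - (n - 1)) = r - al := by ring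
      rwa [e4, e5] at b3
  have e6 : (n - (n - al)) * (n + 1 - (n + r)) = al * (1 - r) := by ring
  have e7 : (n + r - n) * (n + 1 - (n - al)) = r * (1 + al) := by ring
  rw [e6, e7] at b1
  rw [hsum, ← hA]
  have e8 : 2 * r / (al * (1 - r)) * A = 2 * r * A / (al * (1 - r)) := by ring
  have hpos : 0 < al * (1 - r) := mul_pos h1 (by linarith)
  rw [e8, le_div_iff₀ hpos]
  nlinarith

end Pool.Agent.Lib.MP_a247fa_nt.V
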