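import Pool.Agent.Lib.MP_a247fa_nt.V.CrCent

/-! CRLAYER (45 min). Paper (1.3): for `H` nonnegative and nonincreasing on `[0, L]`:
`∫_{|x-c|<L} H |x-c| dν ≤ (1/L) ∫_0^L H dt · ν(c-L, c+L)`.

Proof: layer cake on both sides (`MeasureTheory.integral_eq_lintegral_of_nonneg_ae` + `lintegral_eq_lintegral_meas_lt` , or
`Integrable.integral_eq_integral_meas_lt`) for the measures `ν.restrict (Ioo (c-L) (c+L))` with the function `x ↦ H |x-c|` and `volume.restrict (Ioo 0 L)` with `H`.
For `s ≥ 0` put `E = {t ∈ (0,L) : H t > s}`; as `H` is antitone, `E` is `(0, r)` or `(0, r]` (intersected with `(0,L)`), `r = sSup E` (or `E` empty), and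
`{x : |x-c| < L, H |x-c| > s}` is contained in `{|x-c| ≤ r}` up to the null set `{c}` (and empty except for `c` if `E` is empty: `ν {c} = 0`), so has
`ν`-measure `≤ ν [c-r, c+r] = mu (c-r) (c+r) ≤ (r/L) mu (c-L) (c+L)` (`cr_cent`), and `volume E = r`. Integrate over `s`.
(Alternative without suprema: `ν {x ∈ I : H |x-c| > s} ≤ (1/L) · ν I · volume {t ∈ (0,L) : H t > s}` by the same argument.) -/

set_option autoImplicit false

namespace Pool.Agent.Lib.MP_a247fa_nt.V

open Set MeasureTheory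
open Pool.Agent.Lib.MP_a247fa_nt.W

private theorem CrL_key {ν : Measure ℝ} {a b c L : ℝ} {H : ℝ → ℝ} (h : CR ν a b) (ha : a ≤ c - L) (hb : c + L ≤ b)
    (hL : 0 < L) (hH : AntitoneOn H (Icc 0 L)) (hm : Measurable H) (t : ℝ) :
    (ν.restrict (Ioo (c - L) (c + L))) {x | t < H |x - c|} ≤
      ENNReal.ofReal (mu ν (c - L) (c + L) / L) * (volume.restrict (Ioo 0 L)) {u | t < H u} := by
  have fin := h.fin
  have noat := h.noat
  have mE : MeasurableSet {u | t < H u} := measurableSet_lt measurable_const hm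
  have mF : MeasurableSet {x | t < H |x - c|} :=
    measurableSet_lt measurable_const (hm.comp (by fun_prop))
  rw [Measure.restrict_apply mF, Measure.restrict_apply mE]
  have hfin : volume ({u | t < H u} ∩ Ioo 0 L) ≠ ⊤ := by
    apply ne_top_of_le_ne_top _ (measure_mono inter_subset_right)
    rw [Real.volume_Ioo]
    exact ENNReal.ofReal_ne_top
  obtain ⟨e, he⟩ : ∃ e, e = (volume ({u | t < H u} ∩ Ioo 0 L)).toReal := ⟨_, rfl⟩
  have he' : volume ({u | t < H u} ∩ Ioo 0 L) = ENNReal.ofReal e := by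
    rw [he, ENNReal.ofReal_toReal hfin]
  have he0 : 0 ≤ e := by rw [he]; exact ENNReal.toReal_nonneg
  have heL : e ≤ L := by
    have h1 : volume ({u | t < H u} ∩ Ioo 0 L) ≤ ENNReal.ofReal L := by
      have h2 := measure_mono (μ := (volume : Measure ℝ)) (inter_subset_right (s := {u | t < H u}) (t := Ioo 0 L))
      rwa [Real.volume_Ioo, sub_zero] at h2
    rw [he']  at h1
    exact (ENNReal.ofReal_le_ofReal_iff hL.le).1 h1
  have hE : ∀ u, 0 < u → u < L → t < H u → u ≤ e := by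
    intro u hu0 huL hut
    have h1 : Ioc 0 u ⊆ {u | t < H u} ∩ Ioo 0 L := fun v hv =>
      ⟨lt_of_lt_of_le hut (hH ⟨hv.1.le, (hv.2.trans_lt huL).le⟩ ⟨hu0.le, huL.le⟩ hv.2), hv.1, hv.2.trans_lt huL⟩
    have h2 := measure_mono (μ := (volume : Measure ℝ)) h1
    rw [Real.volume_Ioc, sub_zero, he'] at h2
    exact (ENNReal.ofReal_le_ofReal_iff he0).1 h2
  have hsub : {x | t < H |x - c|} ∩ Ioo (c - L) (c + L) ⊆ {c} ∪ Icc (c - e) (c + e) := by
    rintro x ⟨h1, h2, h3⟩
    rcases eq_or_ne x c with h4 | h4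
    · exact Or.inl h4
    · right
      have h5 : 0 < |x - c| := abs_pos.2 (sub_ne_zero.2 h4)
      have h6 : |x - c| < L := by rw [abs_lt]; constructor <;> linarith
      have h7 := hE _ h5 h6 h1
      rw [abs_le] at h7
      exact ⟨by linarith [h7.1], by linarith [h7.2]⟩
  rw [he']
  refine (measure_mono hsub).trans ((measure_union_le _ _).trans ?_)
  rw [measure_singleton, zero_add]
  rcases he0.eq_or_lt with h0 | hpos
  · rw [← h0, sub_zero, add_zero, Icc_self, measure_singleton]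
    exact bot_le
  · have h1 : ν (Icc (c - e) (c + e)) = ENNReal.ofReal (mu ν (c - e) (c + e)) := by
      unfold mu
      rw [ENNReal.ofReal_toReal (measure_ne_top _ _)]
      exact (measure_congr Ioo_ae_eq_Icc).symm
    rw [h1, ← ENNReal.ofReal_mul (div_nonneg (mu_nonneg _ _ _) hL.le)]
    apply ENNReal.ofReal_le_ofReal
    have h2 := cr_cent h ha hb hpos heL
    have h3 : mu ν (c - L) (c + L) / L * e = e / L * mu ν (c - L) (c + L) := by ring
    rw [h3]
    exact h2

theorem cr_layer {ν : Measure ℝ} {a b c L : ℝ} {H : ℝ → ℝ} (h : CR ν a b) (ha : a ≤ c - L) (hb : c + L ≤ b)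
    (hL : 0 < L) (hH : AntitoneOn H (Icc 0 L)) (h0 : ∀ t ∈ Icc 0 L, 0 ≤ H t) (hm : BM H) :
    itg ν (fun x => H |x - c|) (c - L) (c + L) ≤ 1 / L * (∫ t in (0 : ℝ)..L, H t) * mu ν (c - L) (c + L) := by
  have fin := h.fin
  have noat := h.noat
  have hbm : BM (fun x => H |x - c|) := bm_comp hm (g := fun x => |x - c|) (by fun_prop)
  have nn1 : 0 ≤ᵐ[ν.restrict (Ioo (c - L) (c + L))] fun x => H |x - c| := by
    refine (ae_restrict_iff' measurableSet_Ioo).2 (Filter.Eventually.of_forall fun x hx => ?_)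
    apply h0
    refine ⟨abs_nonneg _, ?_⟩
    rw [abs_le]
    constructor <;> linarith [hx.1, hx.2]
  have nn2 : 0 ≤ᵐ[volume.restrict (Ioo 0 L)] H := by
    refine (ae_restrict_iff' measurableSet_Ioo).2 (Filter.Eventually.of_forall fun x hx => ?_)
    exact h0 x ⟨hx.1.le, hx.2.le⟩
  have int1 : Integrable (fun x => H |x - c|) (ν.restrict (Ioo (c - L) (c + L))) := bm_int hbm _
  have int2 : Integrable H (volume.restrict (Ioo 0 L)) := by
    obtain ⟨hmeas, C, hC⟩ := hm
    refine Measure.integrableOn_of_bounded (M := C) ?_ hmeas.aestronglyMeasurable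
      (Filter.Eventually.of_forall fun x => by rw [Real.norm_eq_abs]; exact hC x)
    rw [Real.volume_Ioo]
    exact ENNReal.ofReal_ne_top
  have l1 := lintegral_eq_lintegral_meas_lt (ν.restrict (Ioo (c - L) (c + L))) nn1 int1.aemeasurable
  have l2 := lintegral_eq_lintegral_meas_lt (volume.restrict (Ioo 0 L)) nn2 int2.aemeasurable
  have hle : ∫⁻ x, ENNReal.ofReal (H |x - c|) ∂(ν.restrict (Ioo (c - L) (c + L))) ≤
      ENNReal.ofReal (mu ν (c - L) (c + L) / L) * ∫⁻ u, ENNReal.ofReal (H u) ∂(volume.restrict (Ioo 0 L)) := by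
    rw [l1, l2, ← lintegral_const_mul' _ _ ENNReal.ofReal_ne_top]
    apply lintegral_mono
    intro t
    exact CrL_key h ha hb hL hH hm.1 t
  rw [← ofReal_integral_eq_lintegral_ofReal int1 nn1, ← ofReal_integral_eq_lintegral_ofReal int2 nn2,
    ← ENNReal.ofReal_mul (div_nonneg (mu_nonneg _ _ _) hL.le)] at hle
  have hpos : 0 ≤ mu ν (c - L) (c + L) / L * ∫ u, H u ∂(volume.restrict (Ioo 0 L)) :=
    mul_nonneg (div_nonneg (mu_nonneg _ _ _) hL.le) (integral_nonneg_of_ae nn2)
  have hfin := (ENNReal.ofReal_le_ofReal_iff hpos).1 hle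
  have e1 : (∫ t in (0 : ℝ)..L, H t) = ∫ u, H u ∂(volume.restrict (Ioo 0 L)) := by
    rw [intervalIntegral.integral_of_le hL.le]
    exact setIntegral_congr_set Ioo_ae_eq_Ioc.symm
  rw [e1]
  unfold itg
  calc _ ≤ _ := hfin
    _ = _ := by ring

end Pool.Agent.Lib.MP_a247fa_nt.V
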