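import Pool.Agent.Lib.MP_a247fa_nt.W.Defs

/-! THEOREM V (MP_a247fa_nt), definitions. Paper proof: /team-store/BJ_V.md (helper73) with the constants changed:
`N = N1 = N2 = 2 * 10^7`, `k0 = 1/32000`, `Phi_inf = 2 k0 = 1/16000`, `sigma = 23/1250`, `g u = 2 √u / (1 + √u)`,
tube radius `3/(2n)`. All geometric lemmas are only needed for `s = |x - n| ≤ 1/2` (`n` the nearest integer). -/

set_option autoImplicit false

namespace Pool.Agent.Lib.MP_a247fa_nt.V

open Set MeasureTheory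
open Pool.Agent.Lib.MP_a247fa_nt.W

/-- verified integers: the Collatz orbit of `m` reaches `1` -/
def VerS (m : ℕ) : Prop := ∃ j : ℕ, T^[j] m = 1

/-- `ν (x, y)` as a real number -/
noncomputable def mu (ν : Measure ℝ) (x y : ℝ) : ℝ := (ν (Ioo x y)).toReal

/-- integral over `(x, y)` -/
noncomputable def itg (ν : Measure ℝ) (F : ℝ → ℝ) (x y : ℝ) : ℝ := ∫ t in Ioo x y, F t ∂ν

/-- bounded measurable functions -/
def BM (F : ℝ → ℝ) : Prop := Measurable F ∧ ∃ C : ℝ, ∀ x, |F x| ≤ C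

/-- The class CR(a,b): finite measures without atoms which contract cross ratios of `[a, b]`. -/
structure CR (ν : Measure ℝ) (a b : ℝ) : Prop where
  fin : IsFiniteMeasure ν
  noat : NullSingletonClass ν
  cr : ∀ x y z w : ℝ, a ≤ x → x < y → y < z → z < w → w ≤ b →
    mu ν y z * mu ν x w * ((y - x) * (w - z)) ≤ mu ν x y * mu ν z w * ((z - y) * (w - x))

/-- indicator of `(c, d)` -/
noncomputable def ind (c d x : ℝ) : ℝ := if c < x ∧ x < d then 1 else 0

/-- `h(s) = sin^2 (π s / 2)` -/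
noncomputable def hs (s : ℝ) : ℝ := Real.sin (Real.pi * s / 2) ^ 2

/-- `ξ(t) = 1 + cos (π t) / 2` -/
noncomputable def xi (t : ℝ) : ℝ := 1 + Real.cos (Real.pi * t) / 2

/-- the potential -/
noncomputable def Phi (x : ℝ) : ℝ :=
  1 / 16000 * (√(max x 2000 / 20000000) / (1 + √(max x 2000 / 20000000)))

/-- `τ(n) = .85 / √n` -/
noncomputable def ta (n : ℕ) : ℝ := 17 / 20 / √(n : ℝ)

/-- `ζ(n)`: `1/√n` for `n < 32`, `.8 n^(-3/4)` else -/
noncomputable def ze (n : ℕ) : ℝ := if n < 32 then 1 / √(n : ℝ) else 4 / 5 / (√(n : ℝ) * √√(n : ℝ))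

/-- `z(n)`: `1` for `n < 16`, `.85/√n` for odd `n` and for `n < 32`, `.8 n^(-3/4)` for even `n ≥ 32` -/
noncomputable def zz (n : ℕ) : ℝ :=
  if n < 16 then 1 else if n % 2 = 1 ∨ n < 32 then 17 / 20 / √(n : ℝ) else 4 / 5 / (√(n : ℝ) * √√(n : ℝ))

/-- radius of the outer tube -/
noncomputable def cc (n : ℕ) : ℝ := 3 / 2 / n

/-- length of the part `(n, n + al n)` of the trap of an odd integer -/
noncomputable def al (n : ℕ) : ℝ := 29 / 50 / (n + 1)

/-- length of the part `(n - be n, n)` of the fold at an even integer -/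
noncomputable def be (n : ℕ) : ℝ := 1 / 5 / (n + 1 / 2)

/-- signed distance of `cf x` to `T n`, positive on the side of uncaptured points near `n` -/
noncomputable def D (n : ℕ) (x : ℝ) : ℝ := if n % 2 = 0 then cf x - n / 2 else (3 * n + 1) / 2 - cf x

open Classical in
/-- the potential of the interval `(a, b)` -/
noncomputable def phi (a b : ℕ) (x : ℝ) : ℝ :=
  if (¬ VerS a ∧ x - a < cc a) ∨ (¬ VerS b ∧ b - x < cc b) then 1
  else if x - a < zz a ∨ b - x < zz b then 1 / 16000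
  else if a % 2 = 1 ∧ x < a + 1 then Phi (3 / 2 * a + 1)
  else if b % 2 = 1 ∧ (b : ℝ) - 1 < x then Phi (3 / 2 * b + 1)
  else Phi (2 * (⌊x / 2⌋₊ : ℝ) + 1)

open Classical in
/-- the cost of `x` after one step -/
noncomputable def Nx (x : ℝ) : ℝ :=
  if Trp x ∨ Fld x then (if Trp x ∧ ¬ VerS ⌊x⌋₊ then 1 else 0)
  else if ⌊x⌋₊ ≤ 1 then 0 else phi (lo ⌊x⌋₊) (hi ⌊x⌋₊) (cf x)

/-- the points captured by a trap at an unverified integer within `t` steps (first capture) -/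
def Vt : ℕ → Set ℝ
  | 0 => ∅
  | t + 1 => {x | (Trp x ∧ ¬ VerS ⌊x⌋₊) ∨ (¬ Trp x ∧ ¬ Fld x ∧ cf x ∈ Vt t)}

/-- the points captured within `t` steps -/
def Ct : ℕ → Set ℝ
  | 0 => ∅
  | t + 1 => {x | (Trp x ∨ Fld x) ∨ (¬ Trp x ∧ ¬ Fld x ∧ cf x ∈ Ct t)}

/-- the captured points -/
def Cap : Set ℝ := {x | Trp x ∨ Fld x}

/-- zone cost -/
noncomputable def en (n : ℕ) : ℝ := if n ≤ 4000 then 1 / 16000 else 1 / 16000 - Phi (3 / 4 * (n - 1))

open Classical in
/-- tube flag -/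
noncomputable def tn (n : ℕ) : ℝ := if VerS n then 0 else 1

open Classical in
/-- `w_n = 3.01/n` at unverified integers -/
noncomputable def wn (n : ℕ) : ℝ := if VerS n then 0 else 301 / 100 / n

/-- pointwise cost at the left of the even integer `n` -/
noncomputable def gl (n : ℕ) (x : ℝ) : ℝ :=
  en n * ind (n - ze n) n x + tn n * ind (n - cc n) n x - wn n * ind (n - 1 / 2) n x

/-- pointwise cost at the right of the even integer `n` -/
noncomputable def gr (n : ℕ) (x : ℝ) : ℝ :=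
  en n * ind n (n + ze n) x + tn n * ind n (n + cc n) x - wn n * ind n (n + 1 / 2) x

/-- integral of `gl` -/
noncomputable def Gl (ν : Measure ℝ) (n : ℕ) : ℝ :=
  en n * mu ν (n - ze n) n + tn n * mu ν (n - cc n) n - wn n * mu ν (n - 1 / 2) n

/-- integral of `gr` -/
noncomputable def Gr (ν : Measure ℝ) (n : ℕ) : ℝ :=
  en n * mu ν n (n + ze n) + tn n * mu ν n (n + cc n) - wn n * mu ν n (n + 1 / 2)

/-- The monotone branch of `cf` over the unit `(i, i+1)` with inverse `h`. -/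
structure Br (i : ℕ) (p q : ℝ) (h : ℝ → ℝ) : Prop where
  le_p : (i : ℝ) ≤ p
  lt : p < q
  q_le : q ≤ i + 1
  trp : ∀ x ∈ Ioo (i : ℝ) (i + 1), (Trp x ↔ x ≤ p)
  fld : ∀ x ∈ Ioo (i : ℝ) (i + 1), (Fld x ↔ q < x)
  crc : CrC h (lo i) (hi i)
  h_mem : ∀ z ∈ Icc (lo i : ℝ) (hi i), h z ∈ Icc p q
  cf_h : ∀ z ∈ Icc (lo i : ℝ) (hi i), cf (h z) = z
  cf_mem : ∀ y ∈ Icc p q, cf y ∈ Icc (lo i : ℝ) (hi i)
  h_cf : ∀ y ∈ Icc p q, h (cf y) = y
  even : i % 2 = 0 → StrictMonoOn cf (Icc p q) ∧ p = i ∧ q = i + 1 ∧ cf p = lo i ∧ cf q = hi i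
  odd : i % 2 = 1 → StrictAntiOn cf (Icc p q) ∧ (i : ℝ) < p ∧ q < i + 1 ∧ cf p = hi i ∧ cf q = lo i

end Pool.Agent.Lib.MP_a247fa_nt.V
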