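import Pool.Agent.Lib.MP_a247fa_nt.V.HB

/-! DISP. Displacement formulas at distance `s` from an integer `n`.

From `cf_even`, `cf_odd` (Basic.lean: `cf (m + d) = ...` for all real `d`) with `cos (π d) = 1 - 2 hs d` (`cos_hs`), `d = s` or
`d = -s` (`hs` is even: `sin^2`): n even: `cf (n+d) = n/2 + d/2 + (n + d + 1/2) hs d`; n odd: `cf (n+d) = (3n+1)/2 + 3d/2 - (n+d+1/2) hs d`.
`D_ge`: `s = |x-n|`, `x = n+s` or `x = n-s`; by `hs_ge` and `n + 1/2 - s ≥ n ≥ 0`: `(n+1/2±s) hs s ≥ n hs s ≥ 2 n s^2`; the linear term is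
`≥ -3s/2`, for even `n` it is `≥ -s/2`.
`cf_xi`: the formula `cf x = x + 1/4 - (2x+1)/4 cos (π x)` with `cos (π x) = - cos (π (x - m))` for odd `m` (or from `cf_odd`).
`cf_add_one_le`: with `t = |x-m| ≤ 1`, `x ≤ m + t`, `xi ≥ 1/2`: `cf x + 1 = (x+1/2) xi + 3/4 ≤ (m + t + 1/2) xi + (5/2 - t) xi = (m+3) xi`
since `(5/2 - t) xi ≥ 3/2 * 1/2`. -/

set_option autoImplicit false

namespace Pool.Agent.Lib.MP_a247fa_nt.V

open Set MeasureTheory
open Pool.Agent.Lib.MP_a247fa_nt.W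

private theorem disp_hs_neg (s : ℝ) : hs (-s) = hs s := by
  unfold hs
  have h : Real.pi * -s / 2 = -(Real.pi * s / 2) := by ring
  rw [h, Real.sin_neg, neg_sq]

private theorem disp_even {n : ℕ} (h : n % 2 = 0) (d : ℝ) :
    cf (n + d) = n / 2 + d / 2 + (n + 1 / 2 + d) * hs d := by
  rw [cf_even n h d, cos_hs]
  ring

private theorem disp_odd {n : ℕ} (h : n % 2 = 1) (d : ℝ) :
    cf (n + d) = (3 * n + 1) / 2 + 3 * d / 2 - (n + 1 / 2 + d) * hs d := by
  rw [cf_odd n h d, cos_hs]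
  ring

theorem D_even_add {n : ℕ} (h : n % 2 = 0) (s : ℝ) : D n (n + s) = (n + 1 / 2 + s) * hs s + s / 2 := by
  unfold D
  rw [if_pos h, disp_even h]
  ring

theorem D_even_sub {n : ℕ} (h : n % 2 = 0) (s : ℝ) : D n (n - s) = (n + 1 / 2 - s) * hs s - s / 2 := by
  unfold D
  rw [if_pos h, sub_eq_add_neg (n : ℝ) s, disp_even h, disp_hs_neg]
  ring

theorem D_odd_add {n : ℕ} (h : n % 2 = 1) (s : ℝ) : D n (n + s) = (n + 1 / 2 + s) * hs s - 3 * s / 2 := by
  unfold D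
  rw [if_neg (by omega), disp_odd h]
  ring

theorem D_odd_sub {n : ℕ} (h : n % 2 = 1) (s : ℝ) : D n (n - s) = (n + 1 / 2 - s) * hs s + 3 * s / 2 := by
  unfold D
  rw [if_neg (by omega), sub_eq_add_neg (n : ℝ) s, disp_odd h, disp_hs_neg]
  ring

private theorem disp_cases (n : ℕ) (x : ℝ) : x = n + |x - n| ∨ x = n - |x - n| := by
  rcases abs_choice (x - n) with h | h
  · left
    rw [h]
    ring
  · right
    rw [h]
    ring

theorem D_ge {n : ℕ} {x : ℝ} (h : |x - n| ≤ 1 / 2) :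
    2 * n * |x - n| ^ 2 - 3 / 2 * |x - n| ≤ D n x := by
  have hx := disp_cases n x
  set s := |x - n| with hs'
  have h0 : 0 ≤ s := abs_nonneg _
  clear_value s
  have h1 := hs_ge h0 h
  have hn : (0 : ℝ) ≤ n := Nat.cast_nonneg n
  have h2 := mul_le_mul_of_nonneg_left h1 hn
  have h3 := hs_nonneg s
  have h4 : 0 ≤ (1 / 2 + s) * hs s := mul_nonneg (by linarith) h3
  have h5 : 0 ≤ (1 / 2 - s) * hs s := mul_nonneg (by linarith) h3
  rcases Nat.mod_two_eq_zero_or_one n with he | ho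
  · rcases hx with hx | hx
    · rw [hx, D_even_add he]
      nlinarith
    · rw [hx, D_even_sub he]
      nlinarith
  · rcases hx with hx | hx
    · rw [hx, D_odd_add ho]
      nlinarith
    · rw [hx, D_odd_sub ho]
      nlinarith

theorem D_ge_even {n : ℕ} {x : ℝ} (he : n % 2 = 0) (h : |x - n| ≤ 1 / 2) :
    2 * n * |x - n| ^ 2 - 1 / 2 * |x - n| ≤ D n x := by
  have hx := disp_cases n x
  set s := |x - n| with hs'
  have h0 : 0 ≤ s := abs_nonneg _
  clear_value s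
  have h1 := hs_ge h0 h
  have hn : (0 : ℝ) ≤ n := Nat.cast_nonneg n
  have h2 := mul_le_mul_of_nonneg_left h1 hn
  have h3 := hs_nonneg s
  have h4 : 0 ≤ (1 / 2 + s) * hs s := mul_nonneg (by linarith) h3
  have h5 : 0 ≤ (1 / 2 - s) * hs s := mul_nonneg (by linarith) h3
  rcases hx with hx | hx
  · rw [hx, D_even_add he]
    nlinarith
  · rw [hx, D_even_sub he]
    nlinarith

/-- the sharper lower bound near an even integer, from `hs_ge3` -/
theorem D_ge_even3 {n : ℕ} {x : ℝ} (he : n % 2 = 0) (h : |x - n| ≤ 3 / 20) :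
    121 / 50 * n * |x - n| ^ 2 - 1 / 2 * |x - n| ≤ D n x := by
  have hx := disp_cases n x
  set s := |x - n| with hs'
  have h0 : 0 ≤ s := abs_nonneg _
  clear_value s
  have h1 := hs_ge3 h0 h
  have hn : (0 : ℝ) ≤ n := Nat.cast_nonneg n
  have h2 := mul_le_mul_of_nonneg_left h1 hn
  have h3 := hs_nonneg s
  have h4 : 0 ≤ (1 / 2 + s) * hs s := mul_nonneg (by linarith) h3
  have h5 : 0 ≤ (1 / 2 - s) * hs s := mul_nonneg (by linarith) h3
  rcases hx with hx | hx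
  · rw [hx, D_even_add he]
    nlinarith
  · rw [hx, D_even_sub he]
    nlinarith

theorem cf_xi {m : ℕ} (h : m % 2 = 1) (x : ℝ) : cf x = (x + 1 / 2) * xi (x - m) - 1 / 4 := by
  unfold cf xi
  have h1 : Real.pi * (x - m) = Real.pi * x - m * Real.pi := by ring
  have h2 : ((-1 : ℝ)) ^ m = -1 := Odd.neg_one_pow (Nat.odd_iff.2 h)
  rw [h1, Real.cos_sub_nat_mul_pi, h2]
  ring

theorem cf_add_one_le {m : ℕ} (h : m % 2 = 1) {x : ℝ} (hx : |x - m| ≤ 1) :
    cf x + 1 ≤ (m + 3) * xi |x - m| := by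
  rw [xi_abs, cf_xi h]
  have h1 := xi_ge (x - m)
  have h2 : x - m ≤ |x - m| := le_abs_self _
  have h3 : x ≤ m + 1 := by linarith
  have h4 : 3 / 2 * (1 / 2 : ℝ) ≤ (m + 3 - (x + 1 / 2)) * xi (x - m) :=
    mul_le_mul (by linarith) h1 (by norm_num) (by linarith)
  nlinarith

end Pool.Agent.Lib.MP_a247fa_nt.V
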