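import Pool.Agent.Lib.MP_a247fa_nt.V.Defs

/-! WID. Elementary comparisons of the widths. `Real.sqrt` bounds only. With `r = √n`, `q = √√n` one has `q^2 = r`, `r^2 = n`; `32 ≤ n` gives
`r ≥ 5.65`, `q ≥ 2.37`; `16 ≤ n`: `q ≥ 2`.
`be_le_ze`: n < 32: `1/5/(n+1/2) ≤ 1/√n`; n ≥ 32: `1/(5n) ≤ 4/5/(r q)` since `r q ≤ n` (q ≤ r). `al_le_ze`, `al_le_ta` similar.
`ze_le_ta`: `4/5/(r q) ≤ 17/20/r`. `ta_le_ze`: `17/20 ≤ 1`. `cc_le_zz`: `3/2/n ≤ 17/20/√n` for n ≥ 13 (√n ≥ 3.6), `3/2/n ≤ 4/5/(r q)` iff `15/8 ≤ q^4/(r q) = q`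
(`n ≥ 13`: q ≥ 1.89). `ze_le_gap`, `ta_le_gap`: for `4000 ≤ m`, `n = m-1, m, m+1`: `ta n ≤ 17/20/√(m-1)`, as `n ≥ m-1`. -/

set_option autoImplicit false

namespace Pool.Agent.Lib.MP_a247fa_nt.V

open Set MeasureTheory
open Pool.Agent.Lib.MP_a247fa_nt.W

/-- the inner radius `L = 1 - .85/√(m-1)` of the window `(m-1, m+1)` -/
noncomputable def LL (m : ℕ) : ℝ := 1 - 17 / 20 / √((m : ℝ) - 1)

private theorem Wid_r {n : ℕ} (hn : 1 ≤ n) : 1 ≤ √(n : ℝ) ∧ √(n : ℝ) ^ 2 = n := by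
  have h : (1 : ℝ) ≤ n := by exact_mod_cast hn
  exact ⟨Real.one_le_sqrt.2 h, Real.sq_sqrt (by linarith)⟩

private theorem Wid_q {n : ℕ} (hn : 1 ≤ n) : 1 ≤ √√(n : ℝ) ∧ √√(n : ℝ) ^ 2 = √(n : ℝ) ∧ √√(n : ℝ) ≤ √(n : ℝ) := by
  obtain ⟨h1, h2⟩ := Wid_r hn
  have h3 : 1 ≤ √√(n : ℝ) := Real.one_le_sqrt.2 h1
  have h4 : √√(n : ℝ) ^ 2 = √(n : ℝ) := Real.sq_sqrt (by linarith)
  exact ⟨h3, h4, by nlinarith⟩

private theorem Wid_zeta {n : ℕ} (hn : 1 ≤ n) : 0 < 4 / 5 / (√(n : ℝ) * √√(n : ℝ)) ∧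
    4 / 5 / (√(n : ℝ) * √√(n : ℝ)) < 1 := by
  obtain ⟨h1, h2⟩ := Wid_r hn
  obtain ⟨h3, h4, h5⟩ := Wid_q hn
  have h6 : 1 ≤ √(n : ℝ) * √√(n : ℝ) := by nlinarith
  refine ⟨by positivity, ?_⟩
  rw [div_lt_one (by linarith)]
  linarith

theorem ze_pos {n : ℕ} (hn : 1 ≤ n) : 0 < ze n := by
  obtain ⟨h1, h2⟩ := Wid_r hn
  unfold ze
  split_ifs
  · positivity
  · exact (Wid_zeta hn).1

theorem ze_lt_one {n : ℕ} (hn : 2 ≤ n) : ze n < 1 := by
  unfold ze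
  split_ifs
  · have h : (2 : ℝ) ≤ n := by exact_mod_cast hn
    have h1 : 1 < √(n : ℝ) := by
      rw [Real.lt_sqrt (by norm_num)]
      linarith
    rw [div_lt_one (by linarith)]
    exact h1
  · exact (Wid_zeta (by omega)).2

theorem ta_pos {n : ℕ} (hn : 1 ≤ n) : 0 < ta n := by
  obtain ⟨h1, h2⟩ := Wid_r hn
  unfold ta
  positivity

theorem ta_lt_one {n : ℕ} (hn : 1 ≤ n) : ta n < 1 := by
  obtain ⟨h1, h2⟩ := Wid_r hn
  unfold ta
  rw [div_lt_one (by linarith)]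
  linarith

theorem zz_pos {n : ℕ} (hn : 1 ≤ n) : 0 < zz n := by
  unfold zz
  split_ifs
  · norm_num
  · exact ta_pos hn
  · exact (Wid_zeta hn).1

theorem zz_le_one (n : ℕ) : zz n ≤ 1 := by
  unfold zz
  split_ifs with h1 h2
  · exact le_rfl
  · exact (ta_lt_one (n := n) (by omega)).le
  · exact (Wid_zeta (n := n) (by omega)).2.le

theorem al_pos (n : ℕ) : 0 < al n := by
  unfold al
  positivity

theorem be_pos (n : ℕ) : 0 < be n := by
  unfold be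
  positivity

private theorem Wid_small {n : ℕ} (hn : 1 ≤ n) {v : ℝ} (h0 : 0 ≤ v) (h : v * n ≤ 3 / 5) : v ≤ ze n ∧ v ≤ ta n := by
  obtain ⟨h1, h2⟩ := Wid_r hn
  obtain ⟨h3, h4, h5⟩ := Wid_q hn
  have e1 : v * √(n : ℝ) ≤ v * n := by
    apply mul_le_mul_of_nonneg_left _ h0
    nlinarith
  have e2 : v * (√(n : ℝ) * √√(n : ℝ)) ≤ v * n := by
    apply mul_le_mul_of_nonneg_left _ h0
    nlinarith
  constructor
  · unfold ze
    split_ifs
    · rw [le_div_iff₀ (by linarith)]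
      linarith
    · rw [le_div_iff₀ (by positivity)]
      linarith
  · unfold ta
    rw [le_div_iff₀ (by linarith)]
    linarith

private theorem Wid_be {n : ℕ} : be n * n ≤ 3 / 5 := by
  unfold be
  have h : (0 : ℝ) ≤ n := Nat.cast_nonneg n
  rw [div_mul_eq_mul_div, div_le_iff₀ (by linarith)]
  linarith

private theorem Wid_al {n : ℕ} : al n * n ≤ 3 / 5 := by
  unfold al
  have h : (0 : ℝ) ≤ n := Nat.cast_nonneg n
  rw [div_mul_eq_mul_div, div_le_iff₀ (by linarith)]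
  linarith

theorem be_le_ze {n : ℕ} (hn : 1 ≤ n) : be n ≤ ze n := (Wid_small hn (be_pos n).le Wid_be).1

theorem al_le_ze {n : ℕ} (hn : 1 ≤ n) : al n ≤ ze n := (Wid_small hn (al_pos n).le Wid_al).1

theorem al_le_ta {n : ℕ} (hn : 1 ≤ n) : al n ≤ ta n := (Wid_small hn (al_pos n).le Wid_al).2

theorem ze_le_ta {n : ℕ} (hn : 32 ≤ n) : ze n ≤ ta n := by
  obtain ⟨h1, h2⟩ := Wid_r (n := n) (by omega)
  obtain ⟨h3, h4, h5⟩ := Wid_q (n := n) (by omega)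
  unfold ze ta
  rw [if_neg (by omega), div_le_div_iff₀ (by positivity) (by linarith)]
  nlinarith

theorem ta_le_ze {n : ℕ} (hn : n < 32) : ta n ≤ ze n := by
  unfold ze ta
  rw [if_pos hn]
  apply div_le_div_of_nonneg_right (by norm_num) (Real.sqrt_nonneg _)

theorem zz_eq_ze {n : ℕ} (hn : 32 ≤ n) (he : n % 2 = 0) : zz n = ze n := by
  unfold zz ze
  rw [if_neg (by omega), if_neg (by omega), if_neg (by omega)]

theorem zz_eq_ta {n : ℕ} (hn : 16 ≤ n) (ho : n % 2 = 1) : zz n = ta n := by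
  unfold zz ta
  rw [if_neg (by omega), if_pos (Or.inl ho)]

theorem zz_le_ta {n : ℕ} (hn : 16 ≤ n) : zz n ≤ ta n := by
  by_cases h : n % 2 = 1 ∨ n < 32
  · unfold zz ta
    rw [if_neg (by omega), if_pos h]
  · rw [zz_eq_ze (by omega) (by omega)]
    exact ze_le_ta (by omega)

private theorem Wid_cc {n : ℕ} (hn : 16 ≤ n) : cc n ≤ 17 / 20 / √(n : ℝ) ∧ cc n ≤ 4 / 5 / (√(n : ℝ) * √√(n : ℝ)) := by
  obtain ⟨h1, h2⟩ := Wid_r (n := n) (by omega)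
  obtain ⟨h3, h4, h5⟩ := Wid_q (n := n) (by omega)
  have hn' : (16 : ℝ) ≤ n := by exact_mod_cast hn
  have h6 : 4 ≤ √(n : ℝ) := by
    rw [Real.le_sqrt (by norm_num) (by linarith)]
    linarith
  have h7 : 2 ≤ √√(n : ℝ) := by
    rw [Real.le_sqrt (by norm_num) (by linarith)]
    linarith
  have hn0 : (0 : ℝ) < n := by linarith
  unfold cc
  constructor
  · rw [div_le_div_iff₀ hn0 (by linarith)]
    nlinarith
  · rw [div_le_div_iff₀ hn0 (by positivity)]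
    have e : (n : ℝ) = √(n : ℝ) * (√√(n : ℝ) * √√(n : ℝ)) := by
      rw [← pow_two, h4, ← pow_two, h2]
    have e2 : 3 / 2 * (√(n : ℝ) * √√(n : ℝ)) ≤ 4 / 5 * (√(n : ℝ) * (√√(n : ℝ) * √√(n : ℝ))) := by
      have h8 : 0 ≤ √(n : ℝ) * √√(n : ℝ) := by positivity
      nlinarith
    rw [← e] at e2
    exact e2

theorem cc_le_zz {n : ℕ} (hn : 13 ≤ n) : cc n ≤ zz n := by
  have hn' : (13 : ℝ) ≤ n := by exact_mod_cast hn
  unfold zz
  split_ifs with h1 h2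
  · unfold cc
    rw [div_le_one (by linarith)]
    linarith
  · exact (Wid_cc (by omega)).1
  · exact (Wid_cc (by omega)).2

theorem cc_le_ze {n : ℕ} (hn : 13 ≤ n) : cc n ≤ ze n := by
  have hn' : (13 : ℝ) ≤ n := by exact_mod_cast hn
  unfold ze
  split_ifs with h1
  · obtain ⟨h1, h2⟩ := Wid_r (n := n) (by omega)
    have h6 : 3 ≤ √(n : ℝ) := by
      rw [Real.le_sqrt (by norm_num) (by linarith)]
      linarith
    unfold cc
    rw [div_le_div_iff₀ (by linarith) (by linarith)]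
    nlinarith
  · exact (Wid_cc (by omega)).2

private theorem Wid_gap {m : ℕ} (hm : 4000 ≤ m) : 632 / 10 ≤ √((m : ℝ) - 1) := by
  have hm' : (4000 : ℝ) ≤ m := by exact_mod_cast hm
  rw [Real.le_sqrt (by norm_num) (by linarith)]
  norm_num
  linarith

theorem ta_le_gap {m n : ℕ} (hm : 4000 ≤ m) (hn : m ≤ n + 1) : ta n ≤ 17 / 20 / √((m : ℝ) - 1) := by
  have h := Wid_gap hm
  have hn' : (m : ℝ) ≤ n + 1 := by exact_mod_cast hn
  unfold ta
  apply div_le_div_of_nonneg_left (by norm_num) (by linarith)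
  exact Real.sqrt_le_sqrt (by linarith)

theorem ze_le_gap {m n : ℕ} (hm : 4000 ≤ m) (hn : m ≤ n + 1) : ze n ≤ 17 / 20 / √((m : ℝ) - 1) :=
  (ze_le_ta (by omega)).trans (ta_le_gap hm hn)

/-- `.85/√3999 < .01345` -/
theorem LL_ge {m : ℕ} (hm : 4000 ≤ m) : 9865 / 10000 ≤ LL m := by
  have h := Wid_gap hm
  unfold LL
  have : 17 / 20 / √((m : ℝ) - 1) ≤ 135 / 10000 := by
    rw [div_le_iff₀ (by linarith)]
    linarith
  linarith

theorem LL_lt {m : ℕ} (hm : 4000 ≤ m) : LL m < 1 := by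
  have h := Wid_gap hm
  unfold LL
  have : 0 < 17 / 20 / √((m : ℝ) - 1) := div_pos (by norm_num) (by linarith)
  linarith

end Pool.Agent.Lib.MP_a247fa_nt.V
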