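import Pool.Agent.Lib.MP_a247fa_nt.V.PhiA
import Pool.Agent.Lib.MP_a247fa_nt.V.Wid

/-! E50N. The scalar inequality behind (5.0). With `q = √√n`, `r = √n = q^2`, `n = q^4`. `23/1250 = .0184`.
n < 32: `ze n/(1 - ze n) = 1/(√n - 1)`, `en n = 1/16000`: the left side is `(1/16000) * 10 (n+1/2)/(√n - 1)`; `10(n+1/2)/(√n-1) ≤ 80` for n = 2, .., 30 (n=2: 60.4, then 45, 45, 46.5, .., 68), `80/16000 = .005`.
(interval_cases or: √n ≥ lower rational bound.)
32 ≤ n ≤ 4000: `2 ze n/(be n (1 - ze n)) = 8 (n+1/2)/((r q)(1 - ze n))`; `ze n ≤ .06` (r q ≥ 13.4), `(n+1/2)/(r q) ≤ (1+1/64) q ≤ 1.016 * 7.96` (`q ≤ 7.96`: 7.96^4 = 4014 > 4000): ≤ 8 * 8.09/.94 ≤ 69, `69/16000 ≤ .0044`.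
n > 4000: `en n = 1/16000 - Phi (.75(n-1)) = (1/16000)/(1+ρ)`, `ρ = √(.75 (n-1)/20000000)` (`Phi_gap`, `.75(n-1) ≥ 2000`), and `1 + ρ ≥ 2 √ρ`; `√ρ ≥ q (.7498/20000000)^(1/4) ≥ q/71.89`
(`.75(n-1) ≥ .7498 n`; `71.89^4 * .7498 = 2.0027*10^7 ≥ 2*10^7`). So the left side is `≤ (1/16000) (71.89/(2q)) * 8 (1+1/8000) q/(1 - .0016) ≤ (1/16000) * 288.1 ≤ .018007`
(`(n+1/2)/(r q) = q (1+1/(2n))`, `ze n ≤ .8/(63.2*7.95) ≤ .0016`). -/

set_option autoImplicit false

namespace Pool.Agent.Lib.MP_a247fa_nt.V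

open Set MeasureTheory
open Pool.Agent.Lib.MP_a247fa_nt.W

/-- `1 + ρ ≥ 2 b q` with `b = .0139` -/
private theorem e50_aux {q ρ : ℝ} (hρ : (139 / 10000) ^ 2 * q ^ 2 ≤ ρ) : 2 * (139 / 10000) * q ≤ 1 + ρ := by
  nlinarith [sq_nonneg (1 - 139 / 10000 * q)]

theorem E50n {n : ℕ} (he : n % 2 = 0) (hn : 2 ≤ n) :
    en n * (2 * ze n / (be n * (1 - ze n))) ≤ 23 / 1250 := by
  obtain ⟨r, hr⟩ : ∃ r, r = √(n : ℝ) := ⟨_, rfl⟩
  have hn0 : (0 : ℝ) ≤ n := Nat.cast_nonneg n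
  have hn2 : (2 : ℝ) ≤ n := by exact_mod_cast hn
  have hrr : r ^ 2 = n := by rw [hr]; exact Real.sq_sqrt hn0
  have hr14 : (14 : ℝ) / 10 ≤ r := by
    rw [hr]; apply Real.le_sqrt_of_sq_le; norm_num; linarith
  by_cases h32 : n < 32
  · have e1 : en n = 1 / 16000 := by rw [en, if_pos (by omega)]
    have e2 : ze n = 1 / r := by rw [ze, if_pos h32, hr]
    have hr6 : r ≤ 6 := by
      rw [hr, Real.sqrt_le_left (by norm_num)]
      have : (n : ℝ) < 32 := by exact_mod_cast h32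
      norm_num; linarith
    have hr1 : (0 : ℝ) < r - 1 := by linarith
    have e3 : 2 * ze n / (be n * (1 - ze n)) = 10 * (n + 1 / 2) / (r - 1) := by
      rw [e2, be]
      have : (0 : ℝ) < r := by linarith
      have h5 : 1 - 1 / r = (r - 1) / r := by field_simp
      rw [h5]
      field_simp
      ring
    rw [e1, e3, one_div_mul_eq_div, div_div, div_le_iff₀ (by positivity), ← hrr]
    nlinarith [mul_nonneg (show (0 : ℝ) ≤ r - 14 / 10 by linarith) (show (0 : ℝ) ≤ 6 - r by linarith)]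
  · obtain ⟨q, hq⟩ : ∃ q, q = √r := ⟨_, rfl⟩
    have hr0 : 0 ≤ r := by linarith
    have hqq : q ^ 2 = r := by rw [hq]; exact Real.sq_sqrt hr0
    have hn32 : (32 : ℝ) ≤ n := by
      have : 32 ≤ n := by omega
      exact_mod_cast this
    have hr5 : (56 : ℝ) / 10 ≤ r := by
      rw [hr]; apply Real.le_sqrt_of_sq_le; norm_num; linarith
    have hq2 : (23 : ℝ) / 10 ≤ q := by
      rw [hq]; apply Real.le_sqrt_of_sq_le; norm_num; linarith
    have hq0 : 0 < q := by linarith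
    have hn4 : (n : ℝ) = q ^ 4 := by rw [← hrr, ← hqq]; ring
    have hq3 : (12 : ℝ) ≤ q ^ 3 := by
      have : (23 / 10 : ℝ) ^ 3 ≤ q ^ 3 := pow_le_pow_left₀ (by norm_num) hq2 3
      have h6 : (12 : ℝ) ≤ (23 / 10) ^ 3 := by norm_num
      linarith
    have e2 : ze n = 4 / 5 / q ^ 3 := by
      rw [ze, if_neg h32, ← hr, ← hq]
      have : r * q = q ^ 3 := by rw [← hqq]; ring
      rw [this]
    have e3 : 2 * ze n / (be n * (1 - ze n)) = 8 * (q ^ 4 + 1 / 2) / (q ^ 3 - 4 / 5) := by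
      rw [e2, be, hn4]
      have h7 : (0 : ℝ) < q ^ 3 - 4 / 5 := by linarith
      have h5 : 1 - 4 / 5 / q ^ 3 = (q ^ 3 - 4 / 5) / q ^ 3 := by field_simp
      rw [h5]
      field_simp
      ring
    have h7 : (0 : ℝ) < q ^ 3 - 4 / 5 := by linarith
    rw [e3]
    by_cases h4 : n ≤ 4000
    · have e1 : en n = 1 / 16000 := by rw [en, if_pos h4]
      have hr64 : r ≤ 64 := by
        rw [hr, Real.sqrt_le_left (by norm_num)]
        have : (n : ℝ) ≤ 4000 := by exact_mod_cast h4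
        norm_num; linarith
      have hq8 : q ≤ 8 := by
        rw [hq, Real.sqrt_le_left (by norm_num)]
        norm_num; linarith
      rw [e1, one_div_mul_eq_div, div_div, div_le_iff₀ (by positivity)]
      have h8 : q ^ 4 ≤ 8 * q ^ 3 := by
        have : q ^ 4 = q * q ^ 3 := by ring
        rw [this]
        exact mul_le_mul_of_nonneg_right hq8 (by positivity)
      nlinarith
    · have hn4000 : (4001 : ℝ) ≤ n := by
        have : 4001 ≤ n := by omega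
        exact_mod_cast this
      obtain ⟨ρ, hρ⟩ : ∃ ρ, ρ = √(3 / 4 * ((n : ℝ) - 1) / 20000000) := ⟨_, rfl⟩
      have hρ0 : 0 ≤ ρ := by rw [hρ]; exact Real.sqrt_nonneg _
      have e1 : en n = 1 / 16000 * (1 / (1 + ρ)) := by
        rw [en, if_neg h4, Phi_gap (by linarith), hρ]
      have hρq : (139 / 10000) ^ 2 * q ^ 2 ≤ ρ := by
        rw [hρ]
        apply Real.le_sqrt_of_sq_le
        have : ((139 / 10000) ^ 2 * q ^ 2) ^ 2 = (139 / 10000) ^ 4 * n := by rw [hn4]; ring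
        rw [this]
        norm_num
        linarith
      have h9 := e50_aux hρq
      have hq7 : (7 : ℝ) ≤ q := by
        have hr63 : (63 : ℝ) ≤ r := by
          rw [hr]; apply Real.le_sqrt_of_sq_le; norm_num; linarith
        rw [hq]; apply Real.le_sqrt_of_sq_le; norm_num; linarith
      have hden : (0 : ℝ) < 16000 * ((1 + ρ) * (q ^ 3 - 4 / 5)) := by positivity
      have e4 : en n * (8 * (q ^ 4 + 1 / 2) / (q ^ 3 - 4 / 5)) =
          8 * (q ^ 4 + 1 / 2) / (16000 * ((1 + ρ) * (q ^ 3 - 4 / 5))) := by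
        rw [e1]
        field_simp
      rw [e4, div_le_iff₀ hden]
      have h10 : 2 * (139 / 10000) * q * (q ^ 3 - 4 / 5) ≤ (1 + ρ) * (q ^ 3 - 4 / 5) :=
        mul_le_mul_of_nonneg_right h9 h7.le
      have h11 : 343 * q ≤ q ^ 4 := by
        have h12 : (7 : ℝ) ^ 3 ≤ q ^ 3 := pow_le_pow_left₀ (by norm_num) hq7 3
        have : q ^ 4 = q ^ 3 * q := by ring
        rw [this]
        nlinarith
      nlinarith

end Pool.Agent.Lib.MP_a247fa_nt.V
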