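import Pool.Agent.Lib.MP_a247fa_nt.V.CrCent
import Pool.Agent.Lib.MP_a247fa_nt.V.E50n
import Pool.Agent.Lib.MP_a247fa_nt.V.VerSmall

/-! E50. Paper (5.0): `n` even, `[n-1, n+1] ⊆ [a, b]`: `Gl ν n + Gr ν n ≤ sigma ν(n - be n, n)`. -/

set_option autoImplicit false

namespace Pool.Agent.Lib.MP_a247fa_nt.V

open Set MeasureTheory
open Pool.Agent.Lib.MP_a247fa_nt.W

theorem e50 {ν : Measure ℝ} {a b : ℝ} (hν : CR ν a b) {n : ℕ} (hn : n % 2 = 0) (hn2 : 2 ≤ n) (ha : a ≤ n - 1)
    (hb : (n : ℝ) + 1 ≤ b) : Gl ν n + Gr ν n ≤ 23 / 1250 * mu ν (n - be n) n := by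
  haveI := hν.fin
  haveI := hν.noat
  have hzp : 0 < ze n := ze_pos (by omega)
  have hz1 : ze n < 1 := ze_lt_one hn2
  have hbe : 0 < be n := be_pos n
  have hbz : be n ≤ ze n := be_le_ze (by omega)
  have hn0 : (2 : ℝ) ≤ n := by exact_mod_cast hn2
  have hcc : 0 < cc n := by
    rw [cc]
    positivity
  have hen : 0 ≤ en n := by
    rw [en]
    split_ifs
    · norm_num
    · linarith [Phi_lt (3 / 4 * ((n : ℝ) - 1))]
  have h1 : mu ν (n - ze n) (n + ze n) = mu ν (n - ze n) n + mu ν n (n + ze n) :=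
    mu_add (by linarith) (by linarith)
  have h2 : mu ν (n - cc n) (n + cc n) = mu ν (n - cc n) n + mu ν n (n + cc n) :=
    mu_add (by linarith) (by linarith)
  have h3 : mu ν (n - 1 / 2) (n + 1 / 2) = mu ν (n - 1 / 2) n + mu ν n (n + 1 / 2) :=
    mu_add (by linarith) (by linarith)
  -- tube part
  have htube : tn n * mu ν (n - cc n) (n + cc n) ≤ wn n * mu ν (n - 1 / 2) (n + 1 / 2) := by
    by_cases hv : VerS n
    · rw [tn, wn, if_pos hv, if_pos hv, zero_mul, zero_mul]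
    · rw [tn, wn, if_neg hv, if_neg hv, one_mul]
      have hbig := big_of_not_ver (by omega) hv
      have hbig' : (20000000 : ℝ) ≤ n := by exact_mod_cast hbig.le
      have hccb : cc n ≤ 1 / 10000000 := by
        rw [cc, div_le_iff₀ (by linarith)]
        linarith
      have h4 := cr_four (w1 := (n : ℝ) - 1 / 2) (x := n - cc n) (y := n + cc n) (w2 := (n : ℝ) + 1 / 2) hν
        (by linarith) (by linarith) (by linarith) (by linarith) (by linarith)
      refine h4.trans (mul_le_mul_of_nonneg_right ?_ (mu_nonneg _ _ _))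
      have h5 : ((n : ℝ) + cc n - (n - cc n)) * ((n : ℝ) + 1 / 2 - (n - 1 / 2)) = 2 * cc n := by ring
      have h6 : 4 * (((n : ℝ) - cc n - (n - 1 / 2)) * ((n : ℝ) + 1 / 2 - (n + cc n))) = (1 - 2 * cc n) ^ 2 := by
        ring
      rw [h5, h6]
      have h7 : (301 / 100 : ℝ) / n = 301 / 150 * cc n := by
        rw [cc]
        ring
      rw [h7, div_le_iff₀ (by nlinarith)]
      nlinarith [mul_nonneg hcc.le (sub_nonneg.2 hccb), hcc]
  -- zone part
  have hzone : en n * mu ν (n - ze n) (n + ze n) ≤ 23 / 1250 * mu ν (n - be n) n := by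
    have h4 := cr_left (n := (n : ℝ)) hν ha hb hbe hbz hz1
    have h5 := E50n hn hn2
    have h6 := mu_nonneg ν (n - be n) n
    calc en n * mu ν (n - ze n) (n + ze n)
        ≤ en n * (2 * ze n / (be n * (1 - ze n)) * mu ν (n - be n) n) := mul_le_mul_of_nonneg_left h4 hen
      _ = en n * (2 * ze n / (be n * (1 - ze n))) * mu ν (n - be n) n := by ring
      _ ≤ 23 / 1250 * mu ν (n - be n) n := mul_le_mul_of_nonneg_right h5 h6
  have h8 : Gl ν n + Gr ν n = en n * mu ν (n - ze n) (n + ze n) + (tn n * mu ν (n - cc n) (n + cc n) -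
      wn n * mu ν (n - 1 / 2) (n + 1 / 2)) := by
    rw [Gl, Gr, h1, h2, h3]
    ring
  rw [h8]
  linarith

end Pool.Agent.Lib.MP_a247fa_nt.V
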