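import Pool.Agent.Lib.MP_a247fa_nt.V.PhiB

/-! WN. The slack that pays the charges at unverified integers (`> N = 20000000`). `S = 16000 Phi m ∈ [1/2, 1)` for `m ≥ N` and `Phi m (1-S) ≥ 312.5/m` (`Phi_slack`).
`Wn_outer`: `Phi_diff` with `y = 1`, `v = 3/4 + 2/m` (`v m = 3/4 m + 2 ≥ 2000`): `Phi m - Phi (3/4 m+2) = Phi m (1-S)(1 - √v)/(1 * (1+S(√v-1))) ≥ Phi m (1-S)(1-√v)` (denominator in `(0,1]`), `√v ≤ .867` (.867^2 = .7517),
so `≥ .133*312.5/m ≥ 41/m ≥ 3.02/m`.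
`Wn_half`: with `m := a + 7/4` real, `y = (3/2 a + 1)/m ≥ 1.4999`, `v = 1`: difference `= Phi m (1-S)(√y - 1)/(1+S(√y-1)) ≥ Phi m (1-S) (.2247/1.2248)`; `≥ .18 * 312.5/(a+7/4) ≥ 50/a ≥ 3.01/(a+1), 3.01/(a-1)`;
(`√y ≤ 1.2248`, `√1.4999 ≥ 1.2247`). `Phi` is increasing and `3/4 (a+1)+1 ≤ a + 7/4`. `Wn_small`: monotonicity. -/

set_option autoImplicit false

namespace Pool.Agent.Lib.MP_a247fa_nt.V

open Set MeasureTheory
open Pool.Agent.Lib.MP_a247fa_nt.W

theorem Wn_outer {m : ℝ} (hm : 20000000 ≤ m) : Phi (3 / 4 * m + 2) + 302 / 100 / m ≤ Phi m := by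
  have hm0 : 0 < m := by linarith
  have hP := Phi_pos m
  have hP1 := Phi_lt m
  have hs := Phi_slack hm
  have e1 : 3 / 4 * m + 2 = (3 / 4 + 2 / m) * m := by field_simp
  have h2m : 0 < 2 / m := by positivity
  have h2m' : 2 / m ≤ 2 / 20000000 := by apply div_le_div_of_nonneg_left <;> linarith
  have h1 := Phi_diff (m := m) (y := 1) (v := 3 / 4 + 2 / m) (by linarith) (by linarith)
    (by rw [← e1]; linarith)
  have h2 := (Phi_ratio (m := m) (y := 3 / 4 + 2 / m) (by linarith) (by rw [← e1]; linarith)).2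
  rw [one_mul, ← e1, Real.sqrt_one, sub_self, mul_zero, add_zero, one_mul] at h1
  obtain ⟨w, hw⟩ : ∃ w, w = √(3 / 4 + 2 / m) := ⟨_, rfl⟩
  rw [← hw] at h1 h2
  have hw1 : w ≤ 867 / 1000 := by
    rw [hw, Real.sqrt_le_left (by norm_num)]
    norm_num
    linarith
  obtain ⟨d, hd⟩ : ∃ d, d = Phi m * (1 - 16000 * Phi m) := ⟨_, rfl⟩
  rw [← hd] at h1 hs
  have hd0 : 0 < d := by rw [hd]; exact mul_pos hP (by linarith)
  have h3 : 1 + 16000 * Phi m * (w - 1) ≤ 1 := by nlinarith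
  have h4 : d * (133 / 1000) ≤ d * (1 - w) / (1 + 16000 * Phi m * (w - 1)) := by
    rw [le_div_iff₀ h2]
    have h5 : d * (133 / 1000) ≤ d * (1 - w) := mul_le_mul_of_nonneg_left (by linarith) hd0.le
    have h6 : d * (133 / 1000) * (1 + 16000 * Phi m * (w - 1)) ≤ d * (133 / 1000) * 1 :=
      mul_le_mul_of_nonneg_left h3 (by positivity)
    linarith
  have h7 : 302 / 100 / m ≤ 133 / 1000 * (625 / 2 / m) := by
    have e : 133 / 1000 * (625 / 2 / m) = 133 / 1000 * (625 / 2) / m := by ring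
    rw [e]
    exact div_le_div_of_nonneg_right (by norm_num) hm0.le
  linarith

/-- `n = a + 1` or `n = a - 1` -/
theorem Wn_half {a n : ℝ} (ha : 20000000 ≤ a) (hn : a - 1 ≤ n) :
    Phi (a + 7 / 4) + 301 / 100 / n ≤ Phi (3 / 2 * a + 1) := by
  obtain ⟨m, hm⟩ : ∃ m, m = a + 7 / 4 := ⟨_, rfl⟩
  have ham : a = m - 7 / 4 := by linarith
  have hm1 : 20000000 ≤ m := by linarith
  have hm0 : 0 < m := by linarith
  have hP := Phi_pos m
  have hP1 := Phi_lt m
  have hs := Phi_slack hm1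
  obtain ⟨y, hy⟩ : ∃ y, y = (3 / 2 * a + 1) / m := ⟨_, rfl⟩
  have e1 : y * m = 3 / 2 * a + 1 := by rw [hy]; field_simp
  have h1 := Phi_diff (m := m) (y := y) (v := 1) (by linarith) (by rw [e1]; linarith) (by linarith)
  rw [one_mul, e1, Real.sqrt_one, sub_self, mul_zero, add_zero, mul_one] at h1
  obtain ⟨w, hw⟩ : ∃ w, w = √y := ⟨_, rfl⟩
  rw [← hw] at h1
  have hy1 : (144 : ℝ) / 100 ≤ y := by
    rw [hy, le_div_iff₀ hm0]; linarith
  have hy2 : y ≤ 4 := by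
    rw [hy, div_le_iff₀ hm0]; linarith
  have hw1 : 12 / 10 ≤ w := by
    rw [hw]; apply Real.le_sqrt_of_sq_le; norm_num; linarith
  have hw2 : w ≤ 2 := by
    rw [hw, Real.sqrt_le_left (by norm_num)]; norm_num; linarith
  obtain ⟨d, hd⟩ : ∃ d, d = Phi m * (1 - 16000 * Phi m) := ⟨_, rfl⟩
  rw [← hd] at h1 hs
  have hd0 : 0 < d := by rw [hd]; exact mul_pos hP (by linarith)
  have h2 : 0 < 1 + 16000 * Phi m * (w - 1) := by
    have : 0 < 16000 * Phi m * (w - 1) := by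
      apply mul_pos (by linarith) (by linarith)
    linarith
  have h3 : 1 + 16000 * Phi m * (w - 1) ≤ w := by nlinarith
  have h4 : d * (1 / 10) ≤ d * (w - 1) / (1 + 16000 * Phi m * (w - 1)) := by
    rw [le_div_iff₀ h2]
    have h5 : d * (1 / 10) * (1 + 16000 * Phi m * (w - 1)) ≤ d * (1 / 10) * w :=
      mul_le_mul_of_nonneg_left h3 (by positivity)
    have h6 : d * (1 / 10) * w ≤ d * (w - 1) := by
      have : d * (w - 1) - d * (1 / 10) * w = d * (9 / 10 * w - 1) := by ring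
      have h8 : 0 ≤ d * (9 / 10 * w - 1) := mul_nonneg hd0.le (by linarith)
      linarith
    linarith
  have h7 : 301 / 100 / n ≤ 1 / 10 * (625 / 2 / m) := by
    have hn0 : 0 < n := by linarith
    have e : 1 / 10 * (625 / 2 / m) = 1 / 10 * (625 / 2) / m := by ring
    rw [e, div_le_div_iff₀ hn0 hm0]
    linarith
  rw [← hm]
  linarith

end Pool.Agent.Lib.MP_a247fa_nt.V
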