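import Pool.Agent.Lib.MP_a247fa_nt.V.PP
import Pool.Agent.Lib.MP_a247fa_nt.V.Wn

/-! E51. Paper (5.1), the first unit, pointwise. -/

set_option autoImplicit false

namespace Pool.Agent.Lib.MP_a247fa_nt.V

open Set MeasureTheory
open Pool.Agent.Lib.MP_a247fa_nt.W

theorem en_nonneg (n : ℕ) : 0 ≤ en n := by
  rw [en]
  split_ifs
  · norm_num
  · linarith [Phi_lt (3 / 4 * ((n : ℝ) - 1))]

theorem tn_nonneg (n : ℕ) : 0 ≤ tn n := by
  rw [tn]
  split_ifs <;> norm_num

private theorem e1_ind_nonneg (c d x : ℝ) : 0 ≤ ind c d x := by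
  rw [ind]
  split_ifs <;> norm_num

private theorem e1_phi_le_one (a b : ℕ) (x : ℝ) : phi a b x ≤ 1 := by
  rw [phi]
  split_ifs
  · exact le_rfl
  · norm_num
  · linarith [Phi_lt (3 / 2 * (a : ℝ) + 1)]
  · linarith [Phi_lt (3 / 2 * (b : ℝ) + 1)]
  · linarith [Phi_lt (2 * (⌊x / 2⌋₊ : ℝ) + 1)]

private theorem e1_nx_le_one (x : ℝ) : Nx x ≤ 1 := by
  rw [Nx]
  split_ifs
  · exact le_rfl
  · norm_num
  · norm_num
  · exact e1_phi_le_one _ _ _

private theorem e1_en_ge (n : ℕ) : 1 / 16000 ≤ en n + Phi (3 / 4 * ((n : ℝ) - 1)) := by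
  rw [en]
  split_ifs
  · linarith [Phi_pos (3 / 4 * ((n : ℝ) - 1))]
  · linarith

theorem e51p {a b : ℕ} (ha : 1 ≤ a) (hab : a + 3 ≤ b) (ho : a % 2 = 1) {x : ℝ} (hx : x ∈ Ioo (a : ℝ) (a + 1)) :
    Nx x - phi a b x ≤ gl (a + 1) x := by
  have hcast : ((a + 1 : ℕ) : ℝ) = (a : ℝ) + 1 := by push_cast; ring
  have hfirst : a % 2 = 1 ∧ x < (a : ℝ) + 1 := ⟨ho, hx.2⟩
  have hphi0 : Phi (3 / 2 * (a : ℝ) + 1) ≤ phi a b x := by
    rw [phi]
    by_cases h1 : (¬ VerS a ∧ x - a < cc a) ∨ (¬ VerS b ∧ (b : ℝ) - x < cc b)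
    · rw [if_pos h1]
      linarith [Phi_lt (3 / 2 * (a : ℝ) + 1)]
    · rw [if_neg h1]
      by_cases h2 : x - a < zz a ∨ (b : ℝ) - x < zz b
      · rw [if_pos h2]
        linarith [Phi_lt (3 / 2 * (a : ℝ) + 1)]
      · rw [if_neg h2, if_pos hfirst]
  have hphi1 : x - a < zz a → 1 / 16000 ≤ phi a b x := by
    intro hz
    rw [phi]
    by_cases h1 : (¬ VerS a ∧ x - a < cc a) ∨ (¬ VerS b ∧ (b : ℝ) - x < cc b)
    · rw [if_pos h1]
      norm_num
    · rw [if_neg h1, if_pos (Or.inl hz)]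
  have hphi2 : (¬ VerS a ∧ x - a < cc a) → phi a b x = 1 := by
    intro hz
    rw [phi, if_pos (Or.inl hz)]
  have hen := en_nonneg (a + 1)
  have htn := tn_nonneg (a + 1)
  have hi1 := e1_ind_nonneg (((a + 1 : ℕ) : ℝ) - ze (a + 1)) ((a + 1 : ℕ) : ℝ) x
  have hi2 := e1_ind_nonneg (((a + 1 : ℕ) : ℝ) - cc (a + 1)) ((a + 1 : ℕ) : ℝ) x
  have hi3 := e1_ind_nonneg (((a + 1 : ℕ) : ℝ) - 1 / 2) ((a + 1 : ℕ) : ℝ) x
  by_cases ha1 : a = 1
  · have hfl : ⌊x⌋₊ = a := by
      rw [Nat.floor_eq_iff ((Nat.cast_nonneg a).trans hx.1.le)]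
      exact ⟨hx.1.le, hx.2⟩
    have hNx : Nx x ≤ 0 := by
      rw [Nx, hfl]
      by_cases h1 : Trp x ∨ Fld x
      · rw [if_pos h1]
        by_cases h2 : Trp x ∧ ¬ VerS a
        · exact absurd (by rw [ha1]; exact ver_one) h2.2
        · rw [if_neg h2]
      · rw [if_neg h1, if_pos (by omega)]
    have hv2 : VerS (a + 1) := by
      have h2 : a + 1 = 2 := by omega
      rw [h2]
      exact ver_two
    have hw : wn (a + 1) = 0 := by
      rw [wn, if_pos hv2]
    have h5 := (Phi_pos (3 / 2 * (a : ℝ) + 1)).trans_le hphi0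
    have h6 := mul_nonneg hen hi1
    have h7 := mul_nonneg htn hi2
    have h8 : gl (a + 1) x = en (a + 1) * ind (((a + 1 : ℕ) : ℝ) - ze (a + 1)) ((a + 1 : ℕ) : ℝ) x +
        tn (a + 1) * ind (((a + 1 : ℕ) : ℝ) - cc (a + 1)) ((a + 1 : ℕ) : ℝ) x := by
      rw [gl, hw]
      ring
    rw [h8]
    linarith
  have ha3 : 3 ≤ a := by omega
  have ha3' : (3 : ℝ) ≤ a := by exact_mod_cast ha3
  have habs : |x - a| = x - a := abs_of_nonneg (by linarith [hx.1])
  have habs' : |x - ((a + 1 : ℕ) : ℝ)| = ((a + 1 : ℕ) : ℝ) - x := by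
    rw [abs_sub_comm]
    exact abs_of_nonneg (by rw [hcast]; linarith [hx.2])
  by_cases hs : x ≤ (a : ℝ) + 1 / 2
  · -- first half
    have hsabs : |x - a| ≤ 1 / 2 := by rw [habs]; linarith
    have hwi : ind (((a + 1 : ℕ) : ℝ) - 1 / 2) ((a + 1 : ℕ) : ℝ) x = 0 := by
      rw [ind, if_neg (by rintro ⟨h, _⟩; rw [hcast] at h; linarith)]
    have hg0 : 0 ≤ gl (a + 1) x := by
      rw [gl, hwi]
      have h6 := mul_nonneg hen hi1
      have h7 := mul_nonneg htn hi2
      linarith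
    by_cases hz : x - a < zz a
    · rcases P1 (n := a) (by omega) hx (Or.inl rfl) hsabs with h | ⟨h, h'⟩
      · have := hphi1 hz
        linarith
      · have h8 := hphi2 ⟨h, by rw [← habs]; exact h'⟩
        have := e1_nx_le_one x
        rw [h8]
        linarith
    · push Not at hz
      have ha16 : 16 ≤ a := by
        by_contra hcon
        have : zz a = 1 := by rw [zz, if_pos (by omega)]
        rw [this] at hz
        linarith [hx.2]
      have hta : ta a ≤ |x - a| := by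
        rw [habs, ← zz_eq_ta ha16 ho]
        exact hz
      have h1 := G2 (n := a) (by omega) hta hsabs
      have h2 := P3 (n := a) (by omega) hx (Or.inl rfl) hsabs h1
      have h3 : Phi (cf x + 1) ≤ Phi (3 / 2 * (a : ℝ) + 1) := by
        apply Phi_mono
        rw [D, if_neg (by omega)] at h1
        linarith
      linarith
  · -- (C)
    push Not at hs
    have hsabs : |x - ((a + 1 : ℕ) : ℝ)| ≤ 1 / 2 := by rw [habs', hcast]; linarith
    have hcf : cf x ≤ a + 3 / 4 := by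
      have h1 := cf_odd a ho (x - a)
      have h2 : (a : ℝ) + (x - a) = x := by ring
      rw [h2] at h1
      have h3 := cos_le_lin (u := x - a) (by linarith) (by linarith [hx.2])
      have h4 : 0 ≤ (1 - 2 * (x - a) - Real.cos (Real.pi * (x - a))) * (2 * a + 1 + 2 * (x - a)) :=
        mul_nonneg (by linarith) (by linarith [hx.1])
      have h5 : 0 ≤ ((x - a) - 1 / 2) * ((2 * a + 1 + 2 * (x - a)) / 2 - 1) :=
        mul_nonneg (by linarith) (by linarith [hx.1])
      rw [h1]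
      nlinarith
    have hw : Phi (a + 7 / 4) + wn (a + 1) ≤ Phi (3 / 2 * (a : ℝ) + 1) := by
      by_cases hv : VerS (a + 1)
      · rw [wn, if_pos hv, add_zero]
        apply Phi_mono
        linarith
      · rw [wn, if_neg hv]
        have h1 := big_of_not_ver (by omega) hv
        have h2 : (20000000 : ℝ) ≤ a := by
          have : 20000000 ≤ a := by omega
          exact_mod_cast this
        refine Wn_half h2 ?_
        rw [hcast]
        linarith
    have hwi : ind (((a + 1 : ℕ) : ℝ) - 1 / 2) ((a + 1 : ℕ) : ℝ) x = 1 := by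
      rw [ind, if_pos ⟨by rw [hcast]; linarith, by rw [hcast]; exact hx.2⟩]
    by_cases hze : ((a + 1 : ℕ) : ℝ) - ze (a + 1) < x
    · have hNx : Nx x ≤ 1 / 16000 + tn (a + 1) * ind (((a + 1 : ℕ) : ℝ) - cc (a + 1)) ((a + 1 : ℕ) : ℝ) x := by
        rcases P1 (n := a + 1) (by omega) hx (Or.inr rfl) hsabs with h | ⟨h, h'⟩
        · have := mul_nonneg htn hi2
          linarith
        · rw [tn, if_neg h, ind, if_pos ⟨by rw [habs'] at h'; linarith, by rw [hcast]; exact hx.2⟩]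
          have := e1_nx_le_one x
          linarith
      have hzi : ind (((a + 1 : ℕ) : ℝ) - ze (a + 1)) ((a + 1 : ℕ) : ℝ) x = 1 := by
        rw [ind, if_pos ⟨hze, by rw [hcast]; exact hx.2⟩]
      have h3 := e1_en_ge (a + 1)
      have h4 : Phi (3 / 4 * (((a + 1 : ℕ) : ℝ) - 1)) ≤ Phi (a + 7 / 4) := by
        apply Phi_mono
        rw [hcast]
        linarith
      rw [gl, hzi, hwi]
      linarith
    · push Not at hze
      have h2 := P2 (n := a + 1) (by omega) hx (Or.inr rfl) hsabs (Or.inl (by rw [habs']; linarith))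
      have h3 : Phi (max (cf x + 1) (3 / 2 * (T (a + 1) : ℕ) + 1)) ≤ Phi (a + 7 / 4) := by
        apply Phi_mono
        apply max_le
        · linarith
        · have h4 := T_eq_odd ho
          have h5 : ((T (a + 1) : ℕ) : ℝ) = (a + 1) / 2 := by rw [h4.2.1, h4.2.2.1]
          rw [h5]
          linarith
      have h6 := mul_nonneg hen hi1
      have h7 := mul_nonneg htn hi2
      rw [gl, hwi]
      linarith

end Pool.Agent.Lib.MP_a247fa_nt.V
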