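import Pool.Agent.Lib.MP_a247fa_nt.V.PP
import Pool.Agent.Lib.MP_a247fa_nt.V.Wn

/-! E52. Paper (5.2), the last unit, pointwise. -/

set_option autoImplicit false

namespace Pool.Agent.Lib.MP_a247fa_nt.V

open Set MeasureTheory
open Pool.Agent.Lib.MP_a247fa_nt.W

private theorem e2_en_nonneg (n : ℕ) : 0 ≤ en n := by
  rw [en]
  split_ifs
  · norm_num
  · linarith [Phi_lt (3 / 4 * ((n : ℝ) - 1))]

private theorem e2_tn_nonneg (n : ℕ) : 0 ≤ tn n := by
  rw [tn]
  split_ifs <;> norm_num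

private theorem e2_ind_nonneg (c d x : ℝ) : 0 ≤ ind c d x := by
  rw [ind]
  split_ifs <;> norm_num

private theorem e2_phi_le_one (a b : ℕ) (x : ℝ) : phi a b x ≤ 1 := by
  rw [phi]
  split_ifs
  · exact le_rfl
  · norm_num
  · linarith [Phi_lt (3 / 2 * (a : ℝ) + 1)]
  · linarith [Phi_lt (3 / 2 * (b : ℝ) + 1)]
  · linarith [Phi_lt (2 * (⌊x / 2⌋₊ : ℝ) + 1)]

private theorem e2_nx_le_one (x : ℝ) : Nx x ≤ 1 := by
  rw [Nx]
  split_ifs
  · exact le_rfl
  · norm_num
  · norm_num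
  · exact e2_phi_le_one _ _ _

private theorem e2_en_ge (n : ℕ) : 1 / 16000 ≤ en n + Phi (3 / 4 * ((n : ℝ) - 1)) := by
  rw [en]
  split_ifs
  · linarith [Phi_pos (3 / 4 * ((n : ℝ) - 1))]
  · linarith

theorem e52p {a c : ℕ} (ha : 1 ≤ a) (hac : a + 2 ≤ c) (he : c % 2 = 0) {x : ℝ} (hx : x ∈ Ioo (c : ℝ) (c + 1)) :
    Nx x - phi a (c + 1) x ≤ gr c x := by
  have hc4 : 4 ≤ c := by omega
  have hc4' : (4 : ℝ) ≤ c := by exact_mod_cast hc4
  have hacR : (a : ℝ) + 2 ≤ c := by exact_mod_cast hac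
  have hcast : ((c + 1 : ℕ) : ℝ) = (c : ℝ) + 1 := by push_cast; ring
  have hbo : (c + 1) % 2 = 1 := by omega
  -- values of phi
  have hnot : ¬ (a % 2 = 1 ∧ x < (a : ℝ) + 1) := by
    rintro ⟨_, h⟩
    linarith [hx.1]
  have hlast : (c + 1) % 2 = 1 ∧ ((c + 1 : ℕ) : ℝ) - 1 < x := ⟨hbo, by rw [hcast]; linarith [hx.1]⟩
  have hphi0 : Phi (3 / 2 * ((c + 1 : ℕ) : ℝ) + 1) ≤ phi a (c + 1) x := by
    rw [phi]
    by_cases h1 : (¬ VerS a ∧ x - a < cc a) ∨ (¬ VerS (c + 1) ∧ ((c + 1 : ℕ) : ℝ) - x < cc (c + 1))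
    · rw [if_pos h1]
      linarith [Phi_lt (3 / 2 * ((c + 1 : ℕ) : ℝ) + 1)]
    · rw [if_neg h1]
      by_cases h2 : x - a < zz a ∨ ((c + 1 : ℕ) : ℝ) - x < zz (c + 1)
      · rw [if_pos h2]
        linarith [Phi_lt (3 / 2 * ((c + 1 : ℕ) : ℝ) + 1)]
      · rw [if_neg h2, if_neg hnot, if_pos hlast]
  have hphi1 : ((c + 1 : ℕ) : ℝ) - x < zz (c + 1) → 1 / 16000 ≤ phi a (c + 1) x := by
    intro hz
    rw [phi]
    by_cases h1 : (¬ VerS a ∧ x - a < cc a) ∨ (¬ VerS (c + 1) ∧ ((c + 1 : ℕ) : ℝ) - x < cc (c + 1))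
    · rw [if_pos h1]
      norm_num
    · rw [if_neg h1, if_pos (Or.inr hz)]
  have hphi2 : (¬ VerS (c + 1) ∧ ((c + 1 : ℕ) : ℝ) - x < cc (c + 1)) → phi a (c + 1) x = 1 := by
    intro hz
    rw [phi, if_pos (Or.inr hz)]
  -- nonnegativity
  have hen := e2_en_nonneg c
  have htn := e2_tn_nonneg c
  have hi1 := e2_ind_nonneg c (c + ze c) x
  have hi2 := e2_ind_nonneg c (c + cc c) x
  have hi3 := e2_ind_nonneg c ((c : ℝ) + 1 / 2) x
  have habs : |x - c| = x - c := abs_of_nonneg (by linarith [hx.1])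
  have habs' : |x - ((c + 1 : ℕ) : ℝ)| = ((c + 1 : ℕ) : ℝ) - x := by
    rw [abs_sub_comm]
    exact abs_of_nonneg (by rw [hcast]; linarith [hx.2])
  by_cases hs : x < (c : ℝ) + 1 / 2
  · -- (C)
    have hsabs : |x - c| ≤ 1 / 2 := by rw [habs]; linarith
    have hcf : cf x ≤ c + 3 / 4 := by
      have h1 := cf_even c he (x - c)
      have h2 : (c : ℝ) + (x - c) = x := by ring
      rw [h2] at h1
      have h3 := cos_ge_lin (s := x - c) (by linarith [hx.1]) (by linarith)
      have h4 : 0 ≤ Real.cos (Real.pi * (x - c)) := by linarith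
      have h5 : 0 ≤ (x - c) * Real.cos (Real.pi * (x - c)) := mul_nonneg (by linarith [hx.1]) h4
      have h6 : 0 ≤ (c : ℝ) * Real.cos (Real.pi * (x - c)) := mul_nonneg (by linarith) h4
      rw [h1]
      nlinarith
    have hw : Phi (c + 7 / 4) + wn c ≤ Phi (3 / 2 * ((c + 1 : ℕ) : ℝ) + 1) := by
      by_cases hv : VerS c
      · rw [wn, if_pos hv, add_zero]
        apply Phi_mono
        rw [hcast]
        linarith
      · rw [wn, if_neg hv]
        have h1 := big_of_not_ver (by omega) hv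
        have h2 : (20000000 : ℝ) ≤ c := by exact_mod_cast h1.le
        refine (Wn_half h2 (by linarith)).trans (Phi_mono ?_)
        rw [hcast]
        linarith
    have hwi : ind c ((c : ℝ) + 1 / 2) x = 1 := by
      rw [ind, if_pos ⟨hx.1, hs⟩]
    by_cases hze : x < c + ze c
    · -- inside the zone
      have hNx : Nx x ≤ 1 / 16000 + tn c * ind c (c + cc c) x := by
        rcases P1 (n := c) (by omega) hx (Or.inl rfl) hsabs with h | ⟨h, h'⟩
        · have := mul_nonneg htn hi2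
          linarith
        · rw [tn, if_neg h, ind, if_pos ⟨hx.1, by rw [habs] at h'; linarith⟩]
          have := e2_nx_le_one x
          linarith
      have hzi : ind c (c + ze c) x = 1 := by
        rw [ind, if_pos ⟨hx.1, hze⟩]
      have h3 := e2_en_ge c
      have h4 : Phi (3 / 4 * ((c : ℝ) - 1)) ≤ Phi (c + 7 / 4) := Phi_mono (by linarith)
      rw [gr, hzi, hwi]
      linarith
    · push Not at hze
      have h2 := P2 (n := c) (by omega) hx (Or.inl rfl) hsabs (Or.inl (by rw [habs]; linarith))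
      have h3 : Phi (max (cf x + 1) (3 / 2 * (T c : ℕ) + 1)) ≤ Phi (c + 7 / 4) := by
        apply Phi_mono
        apply max_le
        · linarith
        · have h4 := T_eq_even he
          have h5 : ((T c : ℕ) : ℝ) = c / 2 := by rw [h4.1, h4.2.2.1]
          rw [h5]
          linarith
      have h6 := mul_nonneg hen hi1
      have h7 := mul_nonneg htn hi2
      rw [gr, hwi]
      linarith
  · push Not at hs
    have hsabs : |x - ((c + 1 : ℕ) : ℝ)| ≤ 1 / 2 := by rw [habs', hcast]; linarith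
    have hwi : ind c ((c : ℝ) + 1 / 2) x = 0 := by
      rw [ind, if_neg (by rintro ⟨_, h⟩; linarith)]
    have hg0 : 0 ≤ gr c x := by
      rw [gr, hwi]
      have h6 := mul_nonneg hen hi1
      have h7 := mul_nonneg htn hi2
      linarith
    by_cases hz : ((c + 1 : ℕ) : ℝ) - x < zz (c + 1)
    · rcases P1 (n := c + 1) (by omega) hx (Or.inr rfl) hsabs with h | ⟨h, h'⟩
      · have := hphi1 hz
        linarith
      · have h8 := hphi2 ⟨h, by rw [← habs']; exact h'⟩
        have := e2_nx_le_one x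
        rw [h8]
        linarith
    · push Not at hz
      have hc16 : 16 ≤ c + 1 := by
        by_contra hcon
        have : zz (c + 1) = 1 := by rw [zz, if_pos (by omega)]
        rw [this, hcast] at hz
        linarith [hx.1]
      have hta : ta (c + 1) ≤ |x - ((c + 1 : ℕ) : ℝ)| := by
        rw [habs', ← zz_eq_ta hc16 hbo]
        exact hz
      have h1 := G2 (n := c + 1) (by omega) hta hsabs
      have h2 := P3 (n := c + 1) (by omega) hx (Or.inr rfl) hsabs h1
      have h3 : Phi (cf x + 1) ≤ Phi (3 / 2 * ((c + 1 : ℕ) : ℝ) + 1) := by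
        apply Phi_mono
        rw [D, if_neg (by omega)] at h1
        linarith
      linarith

end Pool.Agent.Lib.MP_a247fa_nt.V
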