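import Pool.Agent.Lib.MP_a247fa_nt.V.HB

/-! MEANXI. `∫_0^L √(xi t) dt ≤ (63/64) L + (3/10)(1 - L)` for `0 ≤ L ≤ 1`.
`xi t = 1 + y`, `y = cos (π t)/2`, `|y| ≤ 1/2`. `√(1+y) ≤ 1 + y/2 - y^2/8 + y^3/16` for `|y| ≤ 1/2` (square both sides: the right side is `≥ 0` and its square minus `(1+y)` is
`y^4 (5/64 - y/64 + y^2/256) ≥ 0`; there is also `sqrt_taylor` in Dens/Potential.lean). Closed forms: `∫_0^1 cos (π t) dt = 0`, `∫_0^1 cos^2 (π t) dt = 1/2`, `∫_0^1 cos^3 (π t) dt = 0`
(antiderivatives `sin (π t)/π`, `t/2 + sin (2π t)/(4π)`, `(sin (π t) - sin^3 (π t)/3)/π`), so `∫_0^1 √xi ≤ 1 - 1/64 = 63/64` (`y^2/8 = cos^2/32`, mean `1/64`).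
Then `∫_0^L = ∫_0^1 - ∫_L^1 ≤ 63/64 - (1-L) √(1/2)` (`xi ≥ 1/2`), `√(1/2) ≥ .7`, and `63/64 - .7 (1-L) ≤ (63/64) L + .3 (1-L)` as `63/64 - .7 ≤ .3`. -/

set_option autoImplicit false

namespace Pool.Agent.Lib.MP_a247fa_nt.V

open Set MeasureTheory intervalIntegral
open Pool.Agent.Lib.MP_a247fa_nt.W

private theorem mx_taylor {s : ℝ} (h1 : -(1 / 2) ≤ s) (h2 : s ≤ 1 / 2) :
    √(1 + s) ≤ 1 + s / 2 - s ^ 2 / 8 + s ^ 3 / 16 := by
  have hs2 : s ^ 2 ≤ 1 / 4 := by nlinarith
  have hs2' : 0 ≤ s ^ 2 := sq_nonneg s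
  have hs3 : -(1 / 8) ≤ s ^ 3 := by nlinarith
  apply Real.sqrt_le_iff.2
  constructor
  · linarith
  · have e : (1 + s / 2 - s ^ 2 / 8 + s ^ 3 / 16) ^ 2 =
        1 + s + s ^ 4 * (5 / 64 - s / 64 + s ^ 2 / 256) := by ring
    rw [e]
    have : 0 ≤ s ^ 4 * (5 / 64 - s / 64 + s ^ 2 / 256) := by
      apply mul_nonneg (by positivity)
      linarith
    linarith

private theorem mx_poly (a b c : ℝ) :
    ∫ x in (0 : ℝ)..1, (1 + a * Real.cos (Real.pi * x) + b * Real.cos (Real.pi * x) ^ 2 +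
      c * Real.cos (Real.pi * x) ^ 3) = 1 + b / 2 := by
  have hder : ∀ x : ℝ, HasDerivAt (fun x => x + a * (Real.sin (Real.pi * x) / Real.pi) +
      b * (x / 2 + Real.sin (Real.pi * x) * Real.cos (Real.pi * x) / (2 * Real.pi)) +
      c * (Real.sin (Real.pi * x) / Real.pi - Real.sin (Real.pi * x) ^ 3 / (3 * Real.pi)))
      (1 + a * Real.cos (Real.pi * x) + b * Real.cos (Real.pi * x) ^ 2 + c * Real.cos (Real.pi * x) ^ 3) x := by
    intro x
    have h1 : HasDerivAt (fun y : ℝ => Real.pi * y) Real.pi x := by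
      simpa using (hasDerivAt_id x).const_mul Real.pi
    have hc := h1.cos
    have hs := h1.sin
    have hpi := Real.pi_ne_zero
    have h5 := (((hasDerivAt_id x).add ((hs.div_const Real.pi).const_mul a)).add
      ((((hasDerivAt_id x).div_const 2).add ((hs.mul hc).div_const (2 * Real.pi))).const_mul b)).add
      (((hs.div_const Real.pi).sub ((hs.pow 3).div_const (3 * Real.pi))).const_mul c)
    refine h5.congr_deriv ?_
    have hsc : Real.sin (Real.pi * x) ^ 2 = 1 - Real.cos (Real.pi * x) ^ 2 := by rw [Real.sin_sq]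
    field_simp
    push_cast
    norm_num
    have e : Real.sin (Real.pi * x) ^ 2 = 1 - Real.cos (Real.pi * x) ^ 2 := hsc
    linear_combination (-(c * Real.cos (Real.pi * x)) * 6 - b * 3) * e
  rw [intervalIntegral.integral_eq_sub_of_hasDerivAt (fun x _ => hder x)]
  · rw [mul_zero, mul_one, Real.sin_pi, Real.sin_zero]
    ring
  · apply Continuous.intervalIntegrable
    fun_prop

theorem mean_xi {L : ℝ} (h0 : 0 ≤ L) (h1 : L ≤ 1) :
    ∫ t in (0 : ℝ)..L, √(xi t) ≤ 63 / 64 * L + 3 / 10 * (1 - L) := by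
  have hc : Continuous fun t : ℝ => √(xi t) := continuous_xi.sqrt
  have hcp : Continuous fun x : ℝ => 1 + 1 / 4 * Real.cos (Real.pi * x) + -(1 / 32) * Real.cos (Real.pi * x) ^ 2 +
      1 / 128 * Real.cos (Real.pi * x) ^ 3 := by fun_prop
  have hfull : ∫ t in (0 : ℝ)..1, √(xi t) ≤ 63 / 64 := by
    have h2 := intervalIntegral.integral_mono_on (a := (0 : ℝ)) (b := 1) zero_le_one
      (hc.intervalIntegrable (μ := volume) 0 1) (hcp.intervalIntegrable (μ := volume) 0 1) (by
        intro x _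
        have hc1 := Real.neg_one_le_cos (Real.pi * x)
        have hc2 := Real.cos_le_one (Real.pi * x)
        have h3 := mx_taylor (s := Real.cos (Real.pi * x) / 2) (by linarith) (by linarith)
        have e : xi x = 1 + Real.cos (Real.pi * x) / 2 := rfl
        rw [e]
        refine h3.trans (le_of_eq ?_)
        ring)
    rw [mx_poly] at h2
    linarith
  have hadd := intervalIntegral.integral_add_adjacent_intervals
    (hc.intervalIntegrable (μ := volume) 0 L) (hc.intervalIntegrable (μ := volume) L 1)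
  have htail : 7 / 10 * (1 - L) ≤ ∫ t in L..1, √(xi t) := by
    have h2 := intervalIntegral.integral_mono_on (a := L) (b := 1) (f := fun _ : ℝ => (7 : ℝ) / 10) h1
      (continuous_const.intervalIntegrable _ _)
      (hc.intervalIntegrable (μ := volume) L 1) (by
        intro x _
        apply Real.le_sqrt_of_sq_le
        have := xi_ge x
        norm_num
        linarith)
    rw [intervalIntegral.integral_const, smul_eq_mul] at h2
    linarith
  linarith

end Pool.Agent.Lib.MP_a247fa_nt.V
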