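import Pool.Agent.Lib.MP_a247fa_nt.V.PhiB
import Pool.Agent.Lib.MP_a247fa_nt.V.MeanXi
import Pool.Agent.Lib.MP_a247fa_nt.V.Wid

/-! E54. The scalar inequality (5.4), `L = LL m`, `S = 16000 Phi m`, `N = 20000000`.
`Phi ((m+3) xi t)` with `(m+3) xi t = y m`, `y = (1+3/m) xi t`, `y m ≥ (m+3)/2 ≥ 2000`: `Phi_ratio_le`: `≤ Phi m (S + (1-S) √(1+3/m) √(xi t))`, `√(1+3/m) ≤ 1 + 3/(2m)`. Integrate over `[0,L]` (continuous functions), divide by `L`, `mean_xi`:
`(1/L) ∫ ≤ Phi m (S + (1-S)(1+3/(2m))(63/64 + (3/10)(1-L)/L))`.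
`Phi (9/4 m + 3) - Phi (149/100 m) ≤ Phi m (1-S)(√(9/4+3/m) - √(149/100)) ≤ Phi m (1-S) * .28` (`Phi_diff_le`; `√(2.25+3/m) ≤ 1.50026` for m ≥ 4000: 1.50026^2 = 2.25078; `√1.49 ≥ 1.2206`: 1.2206^2 = 1.48986).
So the left side is `≤ Phi m (1 - (1-S)(1-c)) + q`, `c = (1+3/(2m))(63/64 + .3 (1-L)/L) + .28 ta m/L`; `1 - L = 17/20/√(m-1)`.
m ≤ N (q = 0): `1-L ≤ .01345`, `L ≥ .9865`: `(1-L)/L ≤ .01364`, `ta m/L ≤ .01364`: `c ≤ 1.000375*(.984375+.004092) + .00382 ≤ .99266 < 1`. Done since `Phi m (1-S)(1-c) ≥ 0`.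
m > N: `√(m-1) ≥ 4472`: `1-L ≤ .0001901`, `(1-L)/L, ta m/L ≤ .0001902`, `3/(2m) ≤ 10^-7`: `c ≤ .984375 + 10^-7 + .0000571 + .0000533 ≤ .984486`, `1-c ≥ .0155`, and `Phi_slack`: `Phi m (1-S)(1-c) ≥ .0155 * 312.5/m = 4.84/m ≥ 4.53/m = q`. -/

set_option autoImplicit false

namespace Pool.Agent.Lib.MP_a247fa_nt.V

open Set MeasureTheory intervalIntegral
open Pool.Agent.Lib.MP_a247fa_nt.W

private theorem cont_h (m : ℕ) : Continuous fun t : ℝ => Phi (((m : ℝ) + 3) * xi t) :=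
  continuous_Phi.comp (continuous_const.mul continuous_xi)

private theorem e54_int {m : ℕ} (hm : 4000 ≤ m) {L : ℝ} (hL0 : 0 ≤ L) (hL1 : L ≤ 1) :
    (∫ t in (0 : ℝ)..L, Phi ((m + 3) * xi t)) ≤ Phi m * (16000 * Phi m * L +
      (1 - 16000 * Phi m) * ((1 + 3 / (2 * m)) * (63 / 64 * L + 3 / 10 * (1 - L)))) := by
  obtain ⟨S, hS⟩ : ∃ S, S = 16000 * Phi m := ⟨_, rfl⟩
  have hm' : (4000 : ℝ) ≤ m := by exact_mod_cast hm
  have hS0 : 0 < S := by have := Phi_pos m; rw [hS]; linarith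
  have hS1 : S < 1 := by have := Phi_lt m; rw [hS]; linarith
  have hP := Phi_pos m
  rw [← hS]
  have hb : ∀ t ∈ Icc (0 : ℝ) L, Phi (((m : ℝ) + 3) * xi t) ≤
      Phi m * (S + (1 - S) * ((1 + 3 / (2 * m)) * √(xi t))) := by
    intro t _
    have hx := xi_ge t
    have e1 : ((m : ℝ) + 3) * xi t = ((1 + 3 / m) * xi t) * m := by field_simp
    have h4 := Phi_ratio_le (m := (m : ℝ)) (y := (1 + 3 / m) * xi t) (by linarith)
      (by rw [← e1]; nlinarith)
    rw [e1]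
    refine h4.trans ?_
    rw [← hS]
    refine mul_le_mul_of_nonneg_left ?_ hP.le
    have h5 : √((1 + 3 / (m : ℝ)) * xi t) ≤ (1 + 3 / (2 * m)) * √(xi t) := by
      rw [Real.sqrt_mul (by positivity)]
      refine mul_le_mul_of_nonneg_right ?_ (Real.sqrt_nonneg _)
      rw [Real.sqrt_le_left (by positivity)]
      have : (1 + 3 / (2 * (m : ℝ))) ^ 2 = 1 + 3 / m + 9 / (4 * m ^ 2) := by field_simp; ring
      rw [this]
      have : (0 : ℝ) ≤ 9 / (4 * m ^ 2) := by positivity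
      linarith
    have h6 := mul_le_mul_of_nonneg_left h5 (show (0 : ℝ) ≤ 1 - S by linarith)
    linarith
  have hc2 : Continuous fun t : ℝ => Phi m * (S + (1 - S) * ((1 + 3 / (2 * (m : ℝ))) * √(xi t))) := by
    have := continuous_xi.sqrt
    fun_prop
  have h7 := intervalIntegral.integral_mono_on hL0 ((cont_h m).intervalIntegrable _ _)
    (hc2.intervalIntegrable (μ := volume) 0 L) hb
  refine h7.trans ?_
  obtain ⟨c, hc⟩ : ∃ c, c = 1 + 3 / (2 * (m : ℝ)) := ⟨_, rfl⟩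
  have hci : IntervalIntegrable (fun x => (1 - S) * (c * √(xi x))) volume 0 L :=
    (continuous_const.mul (continuous_const.mul continuous_xi.sqrt)).intervalIntegrable _ _
  have hcs : IntervalIntegrable (fun _ : ℝ => S) volume 0 L := continuous_const.intervalIntegrable _ _
  have hsp : (∫ x in (0 : ℝ)..L, (S + (1 - S) * (c * √(xi x)))) =
      S * L + (1 - S) * (c * ∫ x in (0 : ℝ)..L, √(xi x)) := by
    rw [intervalIntegral.integral_add hcs hci, intervalIntegral.integral_const,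
      intervalIntegral.integral_const_mul, intervalIntegral.integral_const_mul, sub_zero, smul_eq_mul,
      mul_comm L S]
  rw [intervalIntegral.integral_const_mul, ← hc, hsp, hc]
  have h8 := mean_xi hL0 hL1
  refine mul_le_mul_of_nonneg_left ?_ hP.le
  have h10 : (0 : ℝ) ≤ 1 + 3 / (2 * m) := by positivity
  have h11 := mul_le_mul_of_nonneg_left h8 h10
  have h12 := mul_le_mul_of_nonneg_left h11 (show (0 : ℝ) ≤ 1 - S by linarith)
  linarith

private theorem e0_le {m : ℕ} (hm : 4000 ≤ m) :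
    Phi (9 / 4 * m + 3) - Phi (149 / 100 * m) ≤ Phi m * (1 - 16000 * Phi m) * (28 / 100) := by
  have hm' : (4000 : ℝ) ≤ m := by exact_mod_cast hm
  have hP := Phi_pos m
  have hP1 := Phi_lt m
  have e1 : (9 : ℝ) / 4 * m + 3 = (9 / 4 + 3 / m) * m := by field_simp
  have h3m : (0 : ℝ) < 3 / m := by positivity
  have h3m' : (3 : ℝ) / m ≤ 3 / 4000 := by
    apply div_le_div_of_nonneg_left <;> linarith
  have h1 := Phi_diff_le (m := (m : ℝ)) (y := 9 / 4 + 3 / m) (v := 149 / 100) (by linarith)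
    (by norm_num) (by linarith)
  rw [e1]
  refine h1.trans ?_
  have h2 : √(9 / 4 + 3 / (m : ℝ)) ≤ 150026 / 100000 := by
    rw [Real.sqrt_le_left (by norm_num)]
    norm_num
    linarith
  have h3 : (12206 : ℝ) / 10000 ≤ √(149 / 100) := by
    apply Real.le_sqrt_of_sq_le
    norm_num
  exact mul_le_mul_of_nonneg_left (by linarith) (mul_nonneg hP.le (by linarith))

theorem E54 {m : ℕ} (hm : 4000 ≤ m) :
    (1 / LL m) * (∫ t in (0 : ℝ)..(LL m), Phi ((m + 3) * xi t)) +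
      (Phi (9 / 4 * m + 3) - Phi (149 / 100 * m)) * (ta m / LL m) +
      (if m ≤ 20000000 then 0 else 453 / 100 / (m : ℝ)) ≤ Phi m := by
  have hLg := LL_ge hm
  have hLl := LL_lt hm
  have h4' := ta_pos (n := m) (by omega)
  have hm' : (4000 : ℝ) ≤ m := by exact_mod_cast hm
  have hI := e54_int hm (L := LL m) (by linarith) hLl.le
  have hE := e0_le hm
  have hP := Phi_pos m
  have hP1 := Phi_lt m
  have hgap := ta_le_gap hm (show m ≤ m + 1 by omega)
  have hLd : LL m = 1 - 17 / 20 / √((m : ℝ) - 1) := rfl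
  have hsl : (20000000 : ℝ) ≤ m → 625 / 2 / (m : ℝ) ≤ Phi m * (1 - 16000 * Phi m) := fun h => Phi_slack h
  obtain ⟨I, hIe⟩ : ∃ I, I = ∫ t in (0 : ℝ)..(LL m), Phi (((m : ℝ) + 3) * xi t) := ⟨_, rfl⟩
  rw [← hIe] at hI ⊢
  obtain ⟨P, hPe⟩ : ∃ P, Phi (m : ℝ) = P := ⟨_, rfl⟩
  rw [hPe] at hI hE hP hP1 hsl ⊢
  obtain ⟨d, hd⟩ : ∃ d, d = P * (1 - 16000 * P) := ⟨_, rfl⟩
  have hd0 : 0 < d := by rw [hd]; exact mul_pos hP (by linarith)
  obtain ⟨E, hEe⟩ : ∃ E, E = Phi (9 / 4 * m + 3) - Phi (149 / 100 * (m : ℝ)) := ⟨_, rfl⟩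
  rw [← hEe] at hE ⊢
  obtain ⟨L, hL'⟩ : ∃ L, LL m = L := ⟨_, rfl⟩
  rw [hL'] at hI hLg hLl hLd ⊢
  obtain ⟨s, hs⟩ : ∃ s, s = 1 - L := ⟨_, rfl⟩
  have h4 : ta m ≤ s := by rw [hs]; linarith
  have hLs : L = 1 - s := by rw [hs]; ring
  rw [hLs] at hI ⊢
  have h1 : s ≤ 135 / 10000 := by linarith
  have h3 : 0 < s := by linarith
  have hL : 0 < 1 - s := by linarith
  obtain ⟨q, hq'⟩ : ∃ q : ℝ, q = if m ≤ 20000000 then 0 else 453 / 100 / (m : ℝ) := ⟨_, rfl⟩
  rw [← hq']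
  -- main: everything times L
  have hmain : I + E * ta m + q * (1 - s) ≤ P * (1 - s) := by
    have e1 : P * (16000 * P * (1 - s) + (1 - 16000 * P) * ((1 + 3 / (2 * (m : ℝ))) *
        (63 / 64 * (1 - s) + 3 / 10 * (1 - (1 - s)))))
        = P * (1 - s) - d * ((1 - s) - (1 + 3 / (2 * (m : ℝ))) * (63 / 64 * (1 - s) + 3 / 10 * s)) := by
      rw [hd]; ring
    rw [e1] at hI
    rw [← hd] at hE
    have h5 : E * ta m ≤ d * (28 / 100) * s := by
      calc E * ta m ≤ (d * (28 / 100)) * ta m := mul_le_mul_of_nonneg_right hE h4'.le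
        _ ≤ d * (28 / 100) * s := mul_le_mul_of_nonneg_left h4 (by positivity)
    by_cases hq : m ≤ 20000000
    · have hq0 : q = 0 := by rw [hq', if_pos hq]
      rw [hq0, zero_mul, add_zero]
      have h6 : (3 : ℝ) / (2 * m) ≤ 3 / 8000 := by
        apply div_le_div_of_nonneg_left <;> linarith
      have h7 : (1 + 3 / (2 * (m : ℝ))) * (63 / 64 * (1 - s) + 3 / 10 * s) ≤
          (1 + 3 / 8000) * (63 / 64 * (1 - s) + 3 / 10 * s) :=
        mul_le_mul_of_nonneg_right (by linarith) (by linarith)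
      have h8 : 0 ≤ (1 - s) - (1 + 3 / (2 * (m : ℝ))) * (63 / 64 * (1 - s) + 3 / 10 * s) - 28 / 100 * s := by
        linarith
      have h9 := mul_nonneg hd0.le h8
      linarith
    · have hmN1 : (20000001 : ℝ) ≤ m := by
        have : 20000001 ≤ m := by omega
        exact_mod_cast this
      have hmN : (20000000 : ℝ) ≤ m := by linarith
      have hq1 : q = 453 / 100 / (m : ℝ) := by rw [hq', if_neg hq]
      have hsb : s ≤ 1901 / 10000000 := by
        have h20 : (4472 : ℝ) ≤ √((m : ℝ) - 1) := by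
          apply Real.le_sqrt_of_sq_le
          norm_num
          linarith
        have h21 : s = 17 / 20 / √((m : ℝ) - 1) := by rw [hs, hLd]; ring
        rw [h21, div_le_iff₀ (by linarith)]
        nlinarith
      have h6 : (3 : ℝ) / (2 * m) ≤ 3 / 40000000 := by
        apply div_le_div_of_nonneg_left <;> linarith
      have h7 : (1 + 3 / (2 * (m : ℝ))) * (63 / 64 * (1 - s) + 3 / 10 * s) ≤
          (1 + 3 / 40000000) * (63 / 64 * (1 - s) + 3 / 10 * s) :=
        mul_le_mul_of_nonneg_right (by linarith) (by linarith)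
      have h8 : 155 / 10000 * (1 - s) ≤
          (1 - s) - (1 + 3 / (2 * (m : ℝ))) * (63 / 64 * (1 - s) + 3 / 10 * s) - 28 / 100 * s := by
        linarith
      have h9 := mul_le_mul_of_nonneg_left h8 hd0.le
      have h10 := hsl hmN
      rw [← hd] at h10
      have h11 : q ≤ 155 / 10000 * d := by
        rw [hq1]
        have : 453 / 100 / (m : ℝ) ≤ 155 / 10000 * (625 / 2 / (m : ℝ)) := by
          rw [div_le_iff₀ (by linarith)]
          have : 155 / 10000 * (625 / 2 / (m : ℝ)) * m = 155 / 10000 * (625 / 2) := by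
            field_simp
          rw [this]; norm_num
        linarith
      have h12 := mul_le_mul_of_nonneg_right h11 hL.le
      nlinarith
  have e2 : 1 / (1 - s) * I + E * (ta m / (1 - s)) + q = (I + E * ta m + q * (1 - s)) / (1 - s) := by
    field_simp
  rw [e2, div_le_iff₀ hL]
  exact hmain

end Pool.Agent.Lib.MP_a247fa_nt.V
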