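import Pool.Agent.Lib.MP_a247fa_nt.V.PhiA
import Pool.Agent.Lib.MP_a247fa_nt.V.Wid

/-! E55. The scalar inequality (5.5), `m ≥ 4000`. `q = √√m`, `m = q^4`. `1/16000 - Phi (9/4 m) = (1/16000)/(1+ρ)`, `ρ = √(9/4 m/20000000)` (`Phi_gap`), `1 + ρ ≥ 2√ρ`, `√ρ = q (2.25/20000000)^(1/4) ≥ q/54.61`
(`54.61^4 = 8893900`, times 2.25 is `2.0011*10^7 ≥ 2*10^7`). `2 ze m/(al m (1 - ze m)) = (1.6/.58) (m+1)/(√m q (1 - ze m)) ≤ 2.7587 * 1.00025 q/(1-.0016)`, so the left side is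
`≤ (1/16000) * (54.61/2) * 2.7587 * 1.002 ≤ 75.6/16000 ≤ .0048 ≤ 23/1250`. -/

set_option autoImplicit false

namespace Pool.Agent.Lib.MP_a247fa_nt.V

open Set MeasureTheory
open Pool.Agent.Lib.MP_a247fa_nt.W

/-- `1 + ρ ≥ 2 b q` with `b = .018` -/
private theorem e55_aux {q ρ : ℝ} (hρ : (18 / 1000) ^ 2 * q ^ 2 ≤ ρ) : 2 * (18 / 1000) * q ≤ 1 + ρ := by
  nlinarith [sq_nonneg (1 - 18 / 1000 * q)]

theorem E55 {m : ℕ} (hm : 4000 ≤ m) :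
    (1 / 16000 - Phi (9 / 4 * m)) * (2 * ze m / (al m * (1 - ze m))) ≤ 23 / 1250 := by
  obtain ⟨r, hr⟩ : ∃ r, r = √(m : ℝ) := ⟨_, rfl⟩
  have hn0 : (0 : ℝ) ≤ m := Nat.cast_nonneg m
  have hn2 : (4000 : ℝ) ≤ m := by exact_mod_cast hm
  have hrr : r ^ 2 = m := by rw [hr]; exact Real.sq_sqrt hn0
  have hr63 : (63 : ℝ) ≤ r := by
    rw [hr]; apply Real.le_sqrt_of_sq_le; norm_num; linarith
  obtain ⟨q, hq⟩ : ∃ q, q = √r := ⟨_, rfl⟩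
  have hr0 : 0 ≤ r := by linarith
  have hqq : q ^ 2 = r := by rw [hq]; exact Real.sq_sqrt hr0
  have hq7 : (7 : ℝ) ≤ q := by
    rw [hq]; apply Real.le_sqrt_of_sq_le; norm_num; linarith
  have hq0 : 0 < q := by linarith
  have hn4 : (m : ℝ) = q ^ 4 := by rw [← hrr, ← hqq]; ring
  have hq3 : (343 : ℝ) ≤ q ^ 3 := by
    have : (7 : ℝ) ^ 3 ≤ q ^ 3 := pow_le_pow_left₀ (by norm_num) hq7 3
    have h6 : (343 : ℝ) ≤ 7 ^ 3 := by norm_num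
    linarith
  have e2 : ze m = 4 / 5 / q ^ 3 := by
    rw [ze, if_neg (by omega), ← hr, ← hq]
    have : r * q = q ^ 3 := by rw [← hqq]; ring
    rw [this]
  have h7 : (0 : ℝ) < q ^ 3 - 4 / 5 := by linarith
  have e3 : 2 * ze m / (al m * (1 - ze m)) = 80 / 29 * (q ^ 4 + 1) / (q ^ 3 - 4 / 5) := by
    rw [e2, al, hn4]
    have h5 : 1 - 4 / 5 / q ^ 3 = (q ^ 3 - 4 / 5) / q ^ 3 := by field_simp
    rw [h5]
    field_simp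
    ring
  rw [e3]
  obtain ⟨ρ, hρ⟩ : ∃ ρ, ρ = √(9 / 4 * (m : ℝ) / 20000000) := ⟨_, rfl⟩
  have hρ0 : 0 ≤ ρ := by rw [hρ]; exact Real.sqrt_nonneg _
  have e1 : 1 / 16000 - Phi (9 / 4 * m) = 1 / 16000 * (1 / (1 + ρ)) := by
    rw [Phi_gap (by linarith), hρ]
  have hρq : (18 / 1000) ^ 2 * q ^ 2 ≤ ρ := by
    rw [hρ]
    apply Real.le_sqrt_of_sq_le
    have : ((18 / 1000) ^ 2 * q ^ 2) ^ 2 = (18 / 1000) ^ 4 * m := by rw [hn4]; ring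
    rw [this]
    norm_num
    linarith
  have h9 := e55_aux hρq
  have hden : (0 : ℝ) < 16000 * ((1 + ρ) * (q ^ 3 - 4 / 5)) := by positivity
  have e4 : (1 / 16000 - Phi (9 / 4 * m)) * (80 / 29 * (q ^ 4 + 1) / (q ^ 3 - 4 / 5)) =
      80 / 29 * (q ^ 4 + 1) / (16000 * ((1 + ρ) * (q ^ 3 - 4 / 5))) := by
    rw [e1]
    field_simp
  rw [e4, div_le_iff₀ hden]
  have h10 : 2 * (18 / 1000) * q * (q ^ 3 - 4 / 5) ≤ (1 + ρ) * (q ^ 3 - 4 / 5) :=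
    mul_le_mul_of_nonneg_right h9 h7.le
  have h11 : 343 * q ≤ q ^ 4 := by
    have : q ^ 4 = q ^ 3 * q := by ring
    rw [this]
    nlinarith
  nlinarith

end Pool.Agent.Lib.MP_a247fa_nt.V
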