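import Pool.Agent.Lib.MP_a247fa_nt.V.Concl
import Pool.Agent.Lib.MP_a247fa_nt.Ver.ExcCount
import Pool.Agent.Lib.MP_a247fa_nt.W.Final

/-! FINAL. At least three quarters of every unit interval `(n, n+1)` converge to one of the two known attracting cycles. -/

set_option autoImplicit false

namespace Pool.Agent.Lib.MP_a247fa_nt.V

open Set MeasureTheory Filter Topology
open Pool.Agent.Lib.MP_a247fa_nt.Crit Pool.Agent.Lib.MP_a247fa_nt.W Pool.Agent.Lib.MP_a247fa_nt.Ver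

/-- the first capture of the orbit of `y` is by a trap at an integer whose orbit does not reach `1` -/
def Vis (y : ℝ) : Prop := ∃ k : ℕ, Trp (cf^[k] y) ∧ ¬ VerS ⌊cf^[k] y⌋₊ ∧
  ∀ j < k, ¬ Trp (cf^[j] y) ∧ ¬ Fld (cf^[j] y)

theorem vt_of_vis : ∀ (k : ℕ) (y : ℝ), Trp (cf^[k] y) → ¬ VerS ⌊cf^[k] y⌋₊ →
    (∀ j < k, ¬ Trp (cf^[j] y) ∧ ¬ Fld (cf^[j] y)) → y ∈ Vt (k + 1) := by
  intro k
  induction k with
  | zero => intro y h1 h2 _; exact Or.inl ⟨h1, h2⟩
  | succ k ih =>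
    intro y h1 h2 h3
    have h4 := h3 0 (by omega)
    refine Or.inr ⟨h4.1, h4.2, ih (cf y) ?_ ?_ ?_⟩
    · rwa [← Function.iterate_succ_apply]
    · rwa [← Function.iterate_succ_apply]
    · intro j hj
      rw [← Function.iterate_succ_apply]
      exact h3 (j + 1) (by omega)

theorem vt_mono_succ (t : ℕ) : Vt t ⊆ Vt (t + 1) := by
  induction t with
  | zero => intro x hx; exact absurd hx (Set.notMem_empty x)
  | succ t ih =>
    rintro x (h | ⟨h1, h2, h3⟩)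
    · exact Or.inl h
    · exact Or.inr ⟨h1, h2, ih h3⟩

theorem vis_le {n : ℕ} (hn : 1 ≤ n) :
    volume {y : ℝ | (n : ℝ) < y ∧ y < n + 1 ∧ Vis y} ≤ ENNReal.ofReal (185 / 10000) := by
  have hsub : {y : ℝ | (n : ℝ) < y ∧ y < n + 1 ∧ Vis y} ⊆ ⋃ t : ℕ, (Ioo (n : ℝ) (n + 1) ∩ Vt t) := by
    rintro y ⟨h1, h2, k, h3, h4, h5⟩
    exact mem_iUnion.2 ⟨k + 1, ⟨h1, h2⟩, vt_of_vis k y h3 h4 h5⟩
  refine (measure_mono hsub).trans ?_
  have hmono : Monotone (fun t : ℕ => Ioo (n : ℝ) (n + 1) ∩ Vt t) :=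
    monotone_nat_of_le_succ fun t => inter_subset_inter_right _ (vt_mono_succ t)
  rw [hmono.measure_iUnion]
  exact iSup_le fun t => V_le hn t

private theorem vf_pos {y : ℝ} (hy : 0 < y) (k : ℕ) : 0 < cf^[k] y := by
  induction k with
  | zero => exact hy
  | succ k ih => rw [Function.iterate_succ_apply']; exact cf_pos _ ih

private theorem vf_attr {y : ℝ} (hy : 0 < y) (O : Set ℝ) (k : ℕ)
    (h : cf^[k] y ∈ Dens.attracted O) : y ∈ Dens.attracted O := by
  induction k with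
  | zero => exact h
  | succ k ih =>
    rw [Function.iterate_succ_apply'] at h
    exact ih ((Dens.cinv_attracted O (cf^[k] y) (vf_pos hy k)).2 h)

private theorem vf_conv {y : ℝ} (hy : 0 < y) (k : ℕ) (h : Conv (cf^[k] y)) : Conv y := by
  rcases h with h | h
  · exact Or.inl (vf_attr hy _ k h)
  · exact Or.inr (vf_attr hy _ k h)

theorem conv_of_capture {y : ℝ} (hy : 0 < y) (hb : ¬ Bad y) (he : y ∉ Exc) (hv : ¬ Vis y) : Conv y := by
  classical
  unfold Bad at hb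
  push Not at hb
  obtain ⟨h1, h2⟩ := hb
  have hex : ∃ k : ℕ, Trp (cf^[k] y) ∨ Fld (cf^[k] y) := by
    obtain ⟨k, hk⟩ := h1
    refine ⟨k, ?_⟩
    by_cases ht : Trp (cf^[k] y)
    · exact Or.inl ht
    · exact Or.inr (hk ht)
  obtain ⟨k, hk⟩ : ∃ k, k = Nat.find hex := ⟨_, rfl⟩
  have hspec : Trp (cf^[k] y) ∨ Fld (cf^[k] y) := by rw [hk]; exact Nat.find_spec hex
  have hmin : ∀ j < k, ¬ Trp (cf^[j] y) ∧ ¬ Fld (cf^[j] y) := by
    intro j hj
    rw [hk] at hj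
    have := Nat.find_min hex hj
    push Not at this
    exact this
  by_cases ht : Trp (cf^[k] y)
  · obtain ⟨h3, h4⟩ := trp_trap ht
    have h5 : VerS ⌊cf^[k] y⌋₊ := by
      by_contra hcon
      exact hv ⟨k, ht, hcon, hmin⟩
    obtain ⟨j, hj⟩ := h5
    have h7 : ∃ i : ℕ, T^[i] (T ⌊cf^[k] y⌋₊) = 1 := by
      rcases j with _ | j
      · refine ⟨1, ?_⟩
        rw [Function.iterate_zero, id_eq] at hj
        rw [hj]; rfl
      · exact ⟨j, by rwa [← Function.iterate_succ_apply]⟩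
    rw [← Function.iterate_succ_apply' cf] at h4
    exact vf_conv hy (k + 1) (conv_trap h3 h7 h4 (fun h => he (exc_iter (k + 1) h)))
  · have hf : Fld (cf^[k] y) := hspec.resolve_left ht
    have h3 : ¬ 3 ≤ ⌊cf^[k] y⌋₊ := by
      intro h3
      obtain ⟨j, hj, hj2⟩ := h2 k h3 hf
      exact (hmin j hj).2 (hj2 (hmin j hj).1)
    obtain ⟨z, hz⟩ : ∃ z, z = cf^[k] y := ⟨_, rfl⟩
    have hz0 : 0 < z := by rw [hz]; exact vf_pos hy k
    have hc : Conv (cf z) := by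
      rw [← hz] at hf h3
      obtain ⟨h4, h5⟩ := hf
      have h6 : ⌊z⌋₊ = 1 := by omega
      have hz1 : 1 ≤ z := by
        have : (1 : ℕ) ≤ ⌊z⌋₊ := h6.ge
        have h7 := (Nat.le_floor_iff' (by norm_num)).1 this
        exact_mod_cast h7
      have hz2 : z < 2 := by
        have := Nat.lt_floor_add_one z
        rw [h6] at this
        push_cast at this
        linarith
      rw [h6] at h5
      push_cast at h5
      have h8 : cf z < 1 := by linarith
      exact conv_of_toOne (cf_pos z hz0) (toOne_left (fold_two hz1 hz2 h8) h8.le)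
    rw [hz, ← Function.iterate_succ_apply' cf] at hc
    exact vf_conv hy (k + 1) hc

/-- At most a quarter of `(n, n+1)` does not converge to one of the two known cycles. -/
theorem nonconv_quarter {n : ℕ} (hn : 1 ≤ n) :
    volume {y : ℝ | (n : ℝ) < y ∧ y < n + 1 ∧ ¬ Conv y} ≤ ENNReal.ofReal (1 / 4) := by
  have hn1 : (1 : ℝ) ≤ n := by exact_mod_cast hn
  have hsub : {y : ℝ | (n : ℝ) < y ∧ y < n + 1 ∧ ¬ Conv y} ⊆
      {y : ℝ | (n : ℝ) < y ∧ y < n + 1 ∧ Bad y} ∪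
      {y : ℝ | (n : ℝ) < y ∧ y < n + 1 ∧ Vis y} ∪ Exc := by
    rintro y ⟨h1, h2, h3⟩
    by_cases hb : Bad y
    · exact Or.inl (Or.inl ⟨h1, h2, hb⟩)
    by_cases he : y ∈ Exc
    · exact Or.inr he
    by_cases hvis : Vis y
    · exact Or.inl (Or.inr ⟨h1, h2, hvis⟩)
    · exact absurd (conv_of_capture (by linarith) hb he hvis) h3
  calc volume {y : ℝ | (n : ℝ) < y ∧ y < n + 1 ∧ ¬ Conv y}
      ≤ volume ({y : ℝ | (n : ℝ) < y ∧ y < n + 1 ∧ Bad y} ∪
        {y : ℝ | (n : ℝ) < y ∧ y < n + 1 ∧ Vis y} ∪ Exc) := measure_mono hsub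
    _ ≤ volume ({y : ℝ | (n : ℝ) < y ∧ y < n + 1 ∧ Bad y} ∪
        {y : ℝ | (n : ℝ) < y ∧ y < n + 1 ∧ Vis y}) + volume Exc := measure_union_le _ _
    _ ≤ (ENNReal.ofReal (23 / 100) + ENNReal.ofReal (185 / 10000)) + 0 := by
        rw [exc_null]
        gcongr
        exact (measure_union_le _ _).trans (add_le_add (theorem_W hn) (vis_le hn))
    _ ≤ ENNReal.ofReal (1 / 4) := by
        rw [add_zero, ← ENNReal.ofReal_add (by norm_num) (by norm_num)]
        exact ENNReal.ofReal_le_ofReal (by norm_num)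

end Pool.Agent.Lib.MP_a247fa_nt.V
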