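import Pool.Agent.Lib.MP_a247fa_nt.V.HB

/-! G0. The other end of the children interval is far. `x = i + u`, `0 ≤ u ≤ 1`, `x + 1/2 ≥ 1`.
`cf x = (x + 1/2)(1 - cos (π u)/2) - 1/4` for even `i`, `(x+1/2)(1 + cos (π u)/2) - 1/4` for odd `i` (definition of `cf`, or `cf_even`, `cf_odd` in Basic.lean).
Even i: u ≤ 1/2: `cos (π u) ≥ 0` (`cos_ge_lin`), so `cf x ≤ x + 1/4 ≤ i + 3/4`, and `hi i = 3i/2 + 2`: difference `≥ i/2 + 5/4`. u ≥ 1/2: `cos ≤ 0` (`cos_le_lin`), `cf x ≥ x + 1/4 ≥ i + 3/4`,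
`lo i = i/2`: difference `≥ i/2 + 3/4 ≥ 7/4`.
Odd i: u ≤ 1/2: `cos (π u) ≥ 1 - 2u ≥ 0`: `cf x ≥ i + u + 1/4 + (i+u+1/2)(1-2u)/2 ≥ i + u + 1/4 + (1/2 - u) = i + 3/4` (as `i+u+1/2 ≥ 1`), `lo i = (i+1)/2`: difference `≥ i/2 + 1/4 ≥ 7/4` (i ≥ 3).
u ≥ 1/2: `cos (π u) ≤ 1 - 2u ≤ 0`: `cf x ≤ i + u + 1/4 - (u - 1/2)(i+u+1/2) ≤ i + 3/4`, `hi i = (3i+1)/2`: difference `≥ i/2 - 1/4 ≥ 5/4` (i ≥ 3).
`lo`, `hi` as natural number divisions: `lo i = (i+1)/2`, `hi i = 3*(i/2)+2`; `T` as in Basic.lean (`T_even`, `T_odd` in Trap.lean). -/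

set_option autoImplicit false

namespace Pool.Agent.Lib.MP_a247fa_nt.V

open Set MeasureTheory
open Pool.Agent.Lib.MP_a247fa_nt.W

theorem T_eq_even {i : ℕ} (h : i % 2 = 0) : T i = lo i ∧ T (i + 1) = hi i ∧ (lo i : ℝ) = i / 2 ∧
    (hi i : ℝ) = 3 * i / 2 + 2 := by
  obtain ⟨k, rfl⟩ : ∃ k, i = 2 * k := ⟨i / 2, by omega⟩
  have h1 : lo (2 * k) = k := by unfold lo; omega
  have h2 : hi (2 * k) = 3 * k + 2 := by unfold hi; omega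
  refine ⟨?_, ?_, ?_, ?_⟩
  · rw [h1]; unfold T; rw [if_pos (by omega)]; omega
  · rw [h2]; unfold T; rw [if_neg (by omega)]; omega
  · rw [h1]; push_cast; ring
  · rw [h2]; push_cast; ring

theorem T_eq_odd {i : ℕ} (h : i % 2 = 1) : T i = hi i ∧ T (i + 1) = lo i ∧ (lo i : ℝ) = (i + 1) / 2 ∧
    (hi i : ℝ) = (3 * i + 1) / 2 := by
  obtain ⟨k, rfl⟩ : ∃ k, i = 2 * k + 1 := ⟨i / 2, by omega⟩
  have h1 : lo (2 * k + 1) = k + 1 := by unfold lo; omega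
  have h2 : hi (2 * k + 1) = 3 * k + 2 := by unfold hi; omega
  refine ⟨?_, ?_, ?_, ?_⟩
  · rw [h2]; unfold T; rw [if_neg (by omega)]; omega
  · rw [h1]; unfold T; rw [if_pos (by omega)]; omega
  · rw [h1]; push_cast; ring
  · rw [h2]; push_cast; ring

theorem G0_even_left {i : ℕ} (h : i % 2 = 0) (h2 : 2 ≤ i) {x : ℝ} (h0 : (i : ℝ) ≤ x) (h1 : x ≤ i + 1 / 2) :
    cf x ≤ hi i - 5 / 4 := by
  obtain ⟨u, rfl⟩ : ∃ u : ℝ, x = i + u := ⟨x - i, by ring⟩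
  have hi2 : (2 : ℝ) ≤ i := by exact_mod_cast h2
  have hc := cos_ge_lin (s := u) (by linarith) (by linarith)
  rw [(T_eq_even h).2.2.2, cf_even i h u]
  have hc0 : 0 ≤ Real.cos (Real.pi * u) := by linarith
  nlinarith

theorem G0_even_right {i : ℕ} (h : i % 2 = 0) (h2 : 2 ≤ i) {x : ℝ} (h0 : (i : ℝ) + 1 / 2 ≤ x) (h1 : x ≤ i + 1) :
    lo i + 5 / 4 ≤ cf x := by
  obtain ⟨u, rfl⟩ : ∃ u : ℝ, x = i + u := ⟨x - i, by ring⟩
  have hi2 : (2 : ℝ) ≤ i := by exact_mod_cast h2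
  have hc := cos_le_lin (u := u) (by linarith) (by linarith)
  rw [(T_eq_even h).2.2.1, cf_even i h u]
  have hc0 : 0 ≤ - Real.cos (Real.pi * u) := by linarith
  nlinarith

theorem G0_odd_left {i : ℕ} (h : i % 2 = 1) (h2 : 3 ≤ i) {x : ℝ} (h0 : (i : ℝ) ≤ x) (h1 : x ≤ i + 1 / 2) :
    lo i + 5 / 4 ≤ cf x := by
  obtain ⟨u, rfl⟩ : ∃ u : ℝ, x = i + u := ⟨x - i, by ring⟩
  have hi2 : (3 : ℝ) ≤ i := by exact_mod_cast h2
  have hc := cos_ge_lin (s := u) (by linarith) (by linarith)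
  rw [(T_eq_odd h).2.2.1, cf_odd i h u]
  have hu : 0 ≤ u := by linarith
  have e : (3 * (i : ℝ) + 1) / 2 + u * (1 + Real.cos (Real.pi * u) / 2) -
      (2 * i + 1) / 4 * (1 - Real.cos (Real.pi * u)) = (i + u + 1 / 2) * (1 + Real.cos (Real.pi * u) / 2) - 1 / 4 := by ring
  rw [e]
  have h3 : (i + u + 1 / 2) * (1 + (1 - 2 * u) / 2) ≤ (i + u + 1 / 2) * (1 + Real.cos (Real.pi * u) / 2) := by
    apply mul_le_mul_of_nonneg_left _ (by linarith)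
    linarith
  nlinarith

theorem G0_odd_right {i : ℕ} (h : i % 2 = 1) (h2 : 3 ≤ i) {x : ℝ} (h0 : (i : ℝ) + 1 / 2 ≤ x) (h1 : x ≤ i + 1) :
    cf x ≤ hi i - 5 / 4 := by
  obtain ⟨u, rfl⟩ : ∃ u : ℝ, x = i + u := ⟨x - i, by ring⟩
  have hi2 : (3 : ℝ) ≤ i := by exact_mod_cast h2
  have hc := cos_le_lin (u := u) (by linarith) (by linarith)
  rw [(T_eq_odd h).2.2.2, cf_odd i h u]
  have hu : 1 / 2 ≤ u := by linarith
  have e : (3 * (i : ℝ) + 1) / 2 + u * (1 + Real.cos (Real.pi * u) / 2) -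
      (2 * i + 1) / 4 * (1 - Real.cos (Real.pi * u)) = (i + u + 1 / 2) * (1 + Real.cos (Real.pi * u) / 2) - 1 / 4 := by ring
  rw [e]
  have h3 : (i + u + 1 / 2) * (1 + Real.cos (Real.pi * u) / 2) ≤ (i + u + 1 / 2) * (1 + (1 - 2 * u) / 2) := by
    apply mul_le_mul_of_nonneg_left _ (by linarith)
    linarith
  nlinarith

end Pool.Agent.Lib.MP_a247fa_nt.V
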