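import Pool.Agent.Lib.MP_a247fa_nt.V.GG2

/-! GG1. (G1) and (G3). Write `s = |x-n|`, `r = √n`, `q = √√n` (`q^2 = r`, `r^2 = n`).
(G1), n < 32 (`ze n = 1/√n`): `D ≥ 1 ≥ zz (T n)` (`zz_le_one`): even n: `D ≥ s(2 n s - 1/2) ≥ (1/√n)(2√n - 1/2) ≥ 1.6`; odd n: `D ≥ s(2 n s - 3/2) ≥ 2 - 1.5/√n ≥ 1`
for n ≥ 3 (√3 ≥ 1.7; 1.5/1.7 < .89).
(G1), n ≥ 32 (`ze n = .8/(r q)`). Odd n (n ≥ 33): `T n = (3n+1)/2 ≥ 50 ≥ 16`, `zz (T n) ≤ ta (T n) ≤ .85/√(1.5 n) ≤ .6941/r` (`zz_le_ta`); `D ≥ s(2 n s - 3/2)`, increasing in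
s as `2 n s ≥ 1.6 q > 3/2`, so `D ≥ (.8/(r q))(1.6 q - 1.5) = 1.28/r - 1.2/(r q)`, and `1.28 - 1.2/q ≥ .6941` since `q ≥ 2.37` (n ≥ 32: 2.37^4 = 31.55).
Even n: `T n = n/2 ≥ 16`, `zz (T n) ≤ ta (n/2) = .85 √2/r ≤ 1.2022/r`. If `s ≥ 3/20`: `D ≥ s(2 n s - 1/2) ≥ (3/20)(9.6 - .5) ≥ 1 ≥ zz`. If `s ≤ 3/20`: `D_ge_even3`:
`D ≥ s(2.42 n s - 1/2) ≥ (.8/(r q))(1.936 q - .5) = 1.5488/r - .4/(r q) ≥ (1.5488 - .17)/r ≥ 1.2022/r`.
(G3): n < 16: `zz n = 1 ≤ s ≤ 1/2` is absurd. 16 ≤ n < 32 (even): `zz n = ta n`, `D ≥ 1 ≥ zz (T n)` by (G2). n ≥ 32: `zz n = ze n` (`zz_eq_ze`), (G1). -/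

set_option autoImplicit false

namespace Pool.Agent.Lib.MP_a247fa_nt.V

open Set MeasureTheory
open Pool.Agent.Lib.MP_a247fa_nt.W

private theorem gg_q (n : ℕ) : (√√(n : ℝ)) ^ 2 = √(n : ℝ) ∧ (√√(n : ℝ)) ^ 4 = n := by
  have h1 : (√√(n : ℝ)) ^ 2 = √(n : ℝ) := Real.sq_sqrt (Real.sqrt_nonneg _)
  have h2 : (√(n : ℝ)) ^ 2 = n := Real.sq_sqrt (Nat.cast_nonneg _)
  refine ⟨h1, ?_⟩
  have h3 : (√√(n : ℝ)) ^ 4 = ((√√(n : ℝ)) ^ 2) ^ 2 := by ring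
  rw [h3, h1, h2]

/-- `D ≥ 1` as soon as `n s^2 ≥ 1` -/
private theorem gg_one {n : ℕ} {x : ℝ} (h1 : 1 ≤ n * |x - n| ^ 2) (h2 : |x - n| ≤ 1 / 2) : 1 ≤ D n x := by
  have := D_ge h2
  nlinarith

/-- for `n < 32` even `D ≥ 1` -/
theorem G1_small {n : ℕ} {x : ℝ} (hn : 2 ≤ n) (hn2 : n < 32) (h1 : ze n ≤ |x - n|) (h2 : |x - n| ≤ 1 / 2) :
    1 ≤ D n x := by
  rw [ze, if_pos hn2] at h1
  apply gg_one _ h2
  have hn0 : (0 : ℝ) < n := by exact_mod_cast (by omega : 0 < n)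
  have hr : 0 < √(n : ℝ) := Real.sqrt_pos.2 hn0
  have h3 : 1 ≤ |x - n| * √(n : ℝ) := by
    rwa [div_le_iff₀ hr] at h1
  have h4 : √(n : ℝ) ^ 2 = n := Real.sq_sqrt hn0.le
  calc (1 : ℝ) ≤ (|x - n| * √(n : ℝ)) ^ 2 := by nlinarith
    _ = n * |x - n| ^ 2 := by rw [mul_pow, h4]; ring

/-- the value at the left end dominates -/
private theorem gg_incr {c N s s0 b : ℝ} (hc : 0 ≤ c * N) (h0 : 0 ≤ s0) (h : s0 ≤ s) (hb : b ≤ c * N * s0) :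
    c * N * s0 ^ 2 - b * s0 ≤ c * N * s ^ 2 - b * s := by
  have h1 : c * N * s ^ 2 - b * s - (c * N * s0 ^ 2 - b * s0) = (s - s0) * (c * N * s + c * N * s0 - b) := by ring
  have h2 : 0 ≤ (s - s0) * (c * N * s + c * N * s0 - b) := by
    apply mul_nonneg (by linarith)
    have : 0 ≤ c * N * s := mul_nonneg hc (h0.trans h)
    linarith
  linarith

private theorem gg_big_even {n : ℕ} {x : ℝ} (hn : 32 ≤ n) (he : n % 2 = 0) (h1 : ze n ≤ |x - n|) (h2 : |x - n| ≤ 1 / 2) :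
    zz (T n) ≤ D n x := by
  have hnR : (32 : ℝ) ≤ n := by exact_mod_cast hn
  by_cases hs : 3 / 20 ≤ |x - n|
  · refine (zz_le_one _).trans ?_
    have h3 := D_ge_even he h2
    nlinarith [mul_self_le_mul_self (by norm_num : (0 : ℝ) ≤ 3 / 20) hs]
  push Not at hs
  have h3 := D_ge_even3 he hs.le
  obtain ⟨hq2, hq4⟩ := gg_q n
  rw [ze, if_neg (by omega)] at h1
  set q : ℝ := √√(n : ℝ) with hq
  have hq0 : 0 ≤ q := Real.sqrt_nonneg _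
  have hq1 : 2 ≤ q := by
    by_contra hcon
    push Not at hcon
    have h4 : q ^ 4 < 2 ^ 4 := pow_lt_pow_left₀ hcon hq0 (by norm_num)
    rw [hq4] at h4
    linarith
  have hqp : 0 < q := by linarith
  have e0 : 4 / 5 / (√(n : ℝ) * q) = 4 / 5 / q ^ 3 := by rw [← hq2, ← pow_succ]
  rw [e0] at h1
  have hT : T n = n / 2 := by unfold T; rw [if_pos he]
  have hTc : ((T n : ℕ) : ℝ) = n / 2 := T_even he
  have hz : zz (T n) ≤ ta (T n) := zz_le_ta (by rw [hT]; omega)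
  have hta : ta (T n) ≤ 12021 / 10000 / q ^ 2 := by
    rw [ta, hTc]
    have hw : 7071 / 10000 * q ^ 2 ≤ √((n : ℝ) / 2) := by
      apply Real.le_sqrt_of_sq_le
      rw [← hq4]
      nlinarith [pow_pos hqp 4]
    have hp : 0 < 7071 / 10000 * q ^ 2 := by positivity
    calc 17 / 20 / √((n : ℝ) / 2) ≤ 17 / 20 / (7071 / 10000 * q ^ 2) :=
          div_le_div_of_nonneg_left (by norm_num) hp hw
      _ ≤ 12021 / 10000 / q ^ 2 := by
          rw [div_le_div_iff₀ hp (by positivity)]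
          nlinarith [pow_pos hqp 2]
  have hs0 : 0 ≤ 4 / 5 / q ^ 3 := by positivity
  have hns : (n : ℝ) * (4 / 5 / q ^ 3) = 4 / 5 * q := by
    rw [← hq4]
    field_simp
  have h5 := gg_incr (c := 121 / 50) (N := n) (s := |x - n|) (s0 := 4 / 5 / q ^ 3) (b := 1 / 2) (by positivity) hs0 h1
    (by rw [mul_assoc, hns]; linarith)
  have h6 : 121 / 50 * (n : ℝ) * (4 / 5 / q ^ 3) ^ 2 - 1 / 2 * (4 / 5 / q ^ 3) = 15488 / 10000 / q ^ 2 - 2 / 5 / q ^ 3 := by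
    rw [← hq4]
    field_simp
    ring
  have h7 : 2 / 5 / q ^ 3 ≤ 1 / 5 / q ^ 2 := by
    rw [div_le_div_iff₀ (by positivity) (by positivity)]
    nlinarith [pow_pos hqp 2]
  have h8 : 15488 / 10000 / q ^ 2 - 1 / 5 / q ^ 2 = 13488 / 10000 / q ^ 2 := by ring
  have h9 : 12021 / 10000 / q ^ 2 ≤ 13488 / 10000 / q ^ 2 := by
    apply div_le_div_of_nonneg_right (by norm_num) (by positivity)
  linarith

private theorem gg_big_odd {n : ℕ} {x : ℝ} (hn : 32 ≤ n) (ho : n % 2 = 1) (h1 : ze n ≤ |x - n|) (h2 : |x - n| ≤ 1 / 2) :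
    zz (T n) ≤ D n x := by
  have hnR : (32 : ℝ) ≤ n := by exact_mod_cast hn
  have h3 := D_ge h2
  obtain ⟨hq2, hq4⟩ := gg_q n
  rw [ze, if_neg (by omega)] at h1
  set q : ℝ := √√(n : ℝ) with hq
  have hq0 : 0 ≤ q := Real.sqrt_nonneg _
  have hq1 : 237 / 100 ≤ q := by
    by_contra hcon
    push Not at hcon
    have h4 : q ^ 4 < (237 / 100) ^ 4 := pow_lt_pow_left₀ hcon hq0 (by norm_num)
    rw [hq4] at h4
    norm_num at h4
    linarith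
  have hqp : 0 < q := by linarith
  have e0 : 4 / 5 / (√(n : ℝ) * q) = 4 / 5 / q ^ 3 := by rw [← hq2, ← pow_succ]
  rw [e0] at h1
  have hT : T n = (3 * n + 1) / 2 := by unfold T; rw [if_neg (by omega)]
  have hTc : 3 / 2 * (n : ℝ) ≤ ((T n : ℕ) : ℝ) := by
    have h4 : 3 * n ≤ 2 * T n := by rw [hT]; omega
    have h5 : ((3 * n : ℕ) : ℝ) ≤ ((2 * T n : ℕ) : ℝ) := by exact_mod_cast h4
    push_cast at h5
    linarith
  have hz : zz (T n) ≤ ta (T n) := zz_le_ta (by rw [hT]; omega)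
  have hta : ta (T n) ≤ 6942 / 10000 / q ^ 2 := by
    rw [ta]
    have hw : 12247 / 10000 * q ^ 2 ≤ √((T n : ℕ) : ℝ) := by
      apply Real.le_sqrt_of_sq_le
      refine le_trans ?_ hTc
      rw [← hq4]
      nlinarith [pow_pos hqp 4]
    have hp : 0 < 12247 / 10000 * q ^ 2 := by positivity
    calc 17 / 20 / √((T n : ℕ) : ℝ) ≤ 17 / 20 / (12247 / 10000 * q ^ 2) :=
          div_le_div_of_nonneg_left (by norm_num) hp hw
      _ ≤ 6942 / 10000 / q ^ 2 := by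
          rw [div_le_div_iff₀ hp (by positivity)]
          nlinarith [pow_pos hqp 2]
  have hs0 : 0 ≤ 4 / 5 / q ^ 3 := by positivity
  have hns : (n : ℝ) * (4 / 5 / q ^ 3) = 4 / 5 * q := by
    rw [← hq4]
    field_simp
  have h5 := gg_incr (c := 2) (N := n) (s := |x - n|) (s0 := 4 / 5 / q ^ 3) (b := 3 / 2) (by positivity) hs0 h1
    (by rw [mul_assoc, hns]; linarith)
  have h6 : 2 * (n : ℝ) * (4 / 5 / q ^ 3) ^ 2 - 3 / 2 * (4 / 5 / q ^ 3) = 128 / 100 / q ^ 2 - 6 / 5 / q ^ 3 := by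
    rw [← hq4]
    field_simp
    ring
  have h7 : 6 / 5 / q ^ 3 ≤ 51 / 100 / q ^ 2 := by
    rw [div_le_div_iff₀ (by positivity) (by positivity)]
    nlinarith [pow_pos hqp 2]
  have h8 : 128 / 100 / q ^ 2 - 51 / 100 / q ^ 2 = 77 / 100 / q ^ 2 := by ring
  have h9 : 6942 / 10000 / q ^ 2 ≤ 77 / 100 / q ^ 2 := by
    apply div_le_div_of_nonneg_right (by norm_num) (by positivity)
  linarith

theorem G1 {n : ℕ} {x : ℝ} (hn : 2 ≤ n) (h1 : ze n ≤ |x - n|) (h2 : |x - n| ≤ 1 / 2) :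
    zz (T n) ≤ D n x := by
  by_cases hn2 : n < 32
  · exact (zz_le_one _).trans (G1_small hn hn2 h1 h2)
  · rcases Nat.mod_two_eq_zero_or_one n with he | ho
    · exact gg_big_even (by omega) he h1 h2
    · exact gg_big_odd (by omega) ho h1 h2

theorem G3 {n : ℕ} {x : ℝ} (hn : 2 ≤ n) (he : n % 2 = 0) (h1 : zz n ≤ |x - n|) (h2 : |x - n| ≤ 1 / 2) :
    zz (T n) ≤ D n x := by
  by_cases h16 : n < 16
  · rw [zz, if_pos h16] at h1
    linarith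
  by_cases h32 : n < 32
  · refine (zz_le_one _).trans (G2 (by omega) ?_ h2)
    rw [zz, if_neg h16, if_pos (Or.inr h32)] at h1
    exact h1
  · rw [zz_eq_ze (by omega) he] at h1
    exact G1 hn h1 h2

end Pool.Agent.Lib.MP_a247fa_nt.V
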