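import Pool.Agent.Lib.MP_a247fa_nt.V.Disp
import Pool.Agent.Lib.MP_a247fa_nt.V.Wid

/-! GG2. (G2) and (G5). Write `s = |x-n|`.
(G2): by `D_ge`, `D ≥ s (2 n s - 3/2)`; for `s ≥ ta n = .85/√n`: `2 n s ≥ 1.7 √n ≥ 5.1`, so `D ≥ (.85/√n)(1.7 √n - 1.5) = 1.445 - 1.275/√n ≥ 1.02` (`√n ≥ 3`).
(G5): `s ≥ 3/2/n`, `2 n s ≥ 3`. Even `n` (`T n = n/2`, `T_even`): `D ≥ s (2 n s - 1/2) ≥ (3/2/n) (5/2) = 3.75/n ≥ 3/n = cc (n/2)`. Odd `n`
(`T n = (3n+1)/2`, `T_odd`): `D ≥ (3/2/n) (3/2) = 2.25/n ≥ 1/n ≥ 3/(3n+1) = cc (T n)`. -/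

set_option autoImplicit false

namespace Pool.Agent.Lib.MP_a247fa_nt.V

open Set MeasureTheory
open Pool.Agent.Lib.MP_a247fa_nt.W

theorem G2 {n : ℕ} {x : ℝ} (hn : 9 ≤ n) (h1 : ta n ≤ |x - n|) (h2 : |x - n| ≤ 1 / 2) : 1 ≤ D n x := by
  refine le_trans ?_ (D_ge h2)
  have hn' : (9 : ℝ) ≤ n := by exact_mod_cast hn
  have hr0 : 0 ≤ √(n : ℝ) := Real.sqrt_nonneg _
  have hr2 : √(n : ℝ) * √(n : ℝ) = n := Real.mul_self_sqrt (by linarith)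
  have hr3 : 3 ≤ √(n : ℝ) := by
    rw [show (3 : ℝ) = √(9 : ℝ) from by
      rw [show (9 : ℝ) = 3 ^ 2 by norm_num, Real.sqrt_sq (by norm_num)]]
    exact Real.sqrt_le_sqrt hn'
  unfold ta at h1
  generalize |x - (n : ℝ)| = s at *
  generalize √(n : ℝ) = r at *
  have hr : 0 < r := by linarith
  have ha : 17 / 20 ≤ s * r := (div_le_iff₀ hr).mp h1
  have hs0 : 0 ≤ s := le_trans (by positivity) h1
  have hs3 : 3 * s ≤ s * r := by nlinarith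
  have e1 : 2 * (n : ℝ) * s ^ 2 = 2 * (s * r) ^ 2 := by
    rw [← hr2]
    ring
  rw [e1]
  nlinarith

theorem G5 {n : ℕ} {x : ℝ} (hn : 3 ≤ n) (h1 : cc n ≤ |x - n|) (h2 : |x - n| ≤ 1 / 2) :
    cc (T n) ≤ D n x := by
  have hn' : (3 : ℝ) ≤ n := by exact_mod_cast hn
  have hn0 : (0 : ℝ) < n := by linarith
  have ha : 3 / 2 ≤ |x - n| * n := by
    unfold cc at h1
    exact (div_le_iff₀ hn0).mp h1
  have hs0 : 0 ≤ |x - (n : ℝ)| := abs_nonneg _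
  rcases Nat.mod_two_eq_zero_or_one n with he | ho
  · refine le_trans ?_ (D_ge_even he h2)
    unfold cc
    rw [T_even he]
    generalize |x - (n : ℝ)| = s at *
    have e1 : (3 : ℝ) / 2 / (n / 2) = 3 / n := by
      field_simp
    rw [e1, div_le_iff₀ hn0]
    nlinarith
  · refine le_trans ?_ (D_ge h2)
    unfold cc
    rw [T_odd ho]
    generalize |x - (n : ℝ)| = s at *
    have h3 : (3 : ℝ) / 2 / ((3 * n + 1) / 2) ≤ 1 / n := by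
      rw [div_le_div_iff₀ (by positivity) hn0]
      nlinarith
    refine h3.trans ?_
    rw [div_le_iff₀ hn0]
    nlinarith

end Pool.Agent.Lib.MP_a247fa_nt.V
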