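import Pool.Agent.Lib.MP_a247fa_nt.V.Defs

/-! HB. Elementary bounds for `hs s = sin^2 (π s/2)` and `xi t = 1 + cos (π t)/2`.

`cos_hs`: `cos (2u) = 1 - 2 sin^2 u`, `u = π s/2`.
`hs_ge`: `sin` is concave on `[0, π]` (`strictConcaveOn_sin_Icc`), so `sin (π s/2) ≥ 2 s sin (π/4) = √2 s` for `s ≤ 1/2`. Square.
`hs_le`: `|sin u| ≤ |u|`, `π^2 < 9.87` (`pi_sq_lt` in Trap.lean): `hs s ≤ π^2/4 s^2`.
`hs_ge3`: `u = π s/2 ≤ .2357`, `sin u ≥ u - u^3/6` (`cubic_le_sin` in TrigBounds.lean), so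
`hs s ≥ u^2 (1 - u^2/6)^2 ≥ u^2 (1 - u^2/3) ≥ (9.869/4) s^2 * .9814 ≥ 2.42 s^2` (`π^2 > 9.869`: `pi_sq_gt`; `u^2 ≤ .0556`).
`hs_mono`: `sin` is nonnegative and increasing on `[0, π/2]`.
`xi_one_sub`: `cos (π (1-s)) = - cos (π s) = 2 hs s - 1`.
`cos_ge_lin`: concavity of `cos` on `[0, π/2]` (or `cos (π s) = sin (π (1/2 - s)) ≥ 2 (1/2 - s)`, Jordan `Real.mul_le_sin`).
`cos_le_lin`: `- cos (π u) = sin (π (u - 1/2)) ≥ 2 (u - 1/2)`. `xi_le9`: `xi t ≤ 1 + (1 - 2t)/2 ≤ 9/10`. -/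

set_option autoImplicit false

namespace Pool.Agent.Lib.MP_a247fa_nt.V

open Set MeasureTheory
open Pool.Agent.Lib.MP_a247fa_nt.W

theorem hs_nonneg (s : ℝ) : 0 ≤ hs s := sq_nonneg _

theorem hs_le_one (s : ℝ) : hs s ≤ 1 := Real.sin_sq_le_one _

theorem cos_hs (s : ℝ) : Real.cos (Real.pi * s) = 1 - 2 * hs s := by
  have e : Real.pi * s = 2 * (Real.pi * s / 2) := by ring
  have h1 := Real.sin_sq_add_cos_sq (Real.pi * s / 2)
  unfold hs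
  rw [e, Real.cos_two_mul]
  have e2 : 2 * (Real.pi * s / 2) / 2 = Real.pi * s / 2 := by ring
  rw [e2]
  linarith

theorem hs_ge {s : ℝ} (h0 : 0 ≤ s) (h1 : s ≤ 1 / 2) : 2 * s ^ 2 ≤ hs s := by
  have hpi := Real.pi_pos
  have hcc : ConcaveOn ℝ (Icc 0 Real.pi) Real.sin := strictConcaveOn_sin_Icc.concaveOn
  have hc := hcc.2 (show (0 : ℝ) ∈ Icc 0 Real.pi from ⟨le_refl _, hpi.le⟩)
    (show Real.pi / 4 ∈ Icc 0 Real.pi from ⟨by linarith, by linarith⟩)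
    (show (0 : ℝ) ≤ 1 - 2 * s by linarith) (show (0 : ℝ) ≤ 2 * s by linarith) (by ring)
  simp only [smul_eq_mul, Real.sin_zero, mul_zero, zero_add, Real.sin_pi_div_four] at hc
  have e : 2 * s * (Real.pi / 4) = Real.pi * s / 2 := by ring
  rw [e] at hc
  have h2 : √2 ^ 2 = 2 := Real.sq_sqrt (by norm_num)
  have h3 : (2 * s * (√2 / 2)) ^ 2 ≤ Real.sin (Real.pi * s / 2) ^ 2 :=
    pow_le_pow_left₀ (by positivity) hc 2
  unfold hs
  have e3 : (2 * s * (√2 / 2)) ^ 2 = s ^ 2 * √2 ^ 2 := by ring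
  rw [e3, h2] at h3
  linarith

theorem hs_le (s : ℝ) : hs s ≤ 987 / 400 * s ^ 2 := by
  have h1 := one_sub_cos_le s
  rw [cos_hs] at h1
  have h2 := pi_sq_lt
  have h3 : Real.pi ^ 2 * s ^ 2 ≤ 9.87 * s ^ 2 := mul_le_mul_of_nonneg_right h2.le (sq_nonneg s)
  norm_num at h3
  linarith

theorem hs_ge3 {s : ℝ} (h0 : 0 ≤ s) (h1 : s ≤ 3 / 20) : 121 / 50 * s ^ 2 ≤ hs s := by
  have hpi := Real.pi_pos
  obtain ⟨u, hu⟩ : ∃ u, u = Real.pi * s / 2 := ⟨_, rfl⟩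
  have hu0 : 0 ≤ u := by rw [hu]; positivity
  have h2 := cubic_le_sin hu0
  have e : u ^ 2 = Real.pi ^ 2 * s ^ 2 / 4 := by rw [hu]; ring
  have l1 := pi_sq_lt
  have l2 := pi_sq_gt
  have s2 : s ^ 2 ≤ 9 / 400 := by nlinarith
  have s0 : 0 ≤ s ^ 2 := sq_nonneg s
  have u2 : u ^ 2 ≤ 556 / 10000 := by
    rw [e]
    have : Real.pi ^ 2 * s ^ 2 ≤ 9.87 * (9 / 400) := mul_le_mul l1.le s2 s0 (by norm_num)
    norm_num at this
    linarith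
  have u3 : 9869 / 4000 * s ^ 2 ≤ u ^ 2 := by
    rw [e]
    have : 9.869 * s ^ 2 ≤ Real.pi ^ 2 * s ^ 2 := mul_le_mul_of_nonneg_right l2.le s0
    norm_num at this
    linarith
  have h3 : u * (1 - u ^ 2 / 6) ≤ Real.sin u := by
    have : u * (1 - u ^ 2 / 6) = u - u ^ 3 / 6 := by ring
    rw [this]; exact h2
  have h4 : 0 ≤ u * (1 - u ^ 2 / 6) := by
    apply mul_nonneg hu0
    linarith
  have h5 : (u * (1 - u ^ 2 / 6)) ^ 2 ≤ Real.sin u ^ 2 := pow_le_pow_left₀ h4 h3 2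
  have h6 : u ^ 2 * (98146 / 100000) ≤ (u * (1 - u ^ 2 / 6)) ^ 2 := by
    have e6 : (u * (1 - u ^ 2 / 6)) ^ 2 = u ^ 2 * (1 - u ^ 2 / 6) ^ 2 := by ring
    rw [e6]
    apply mul_le_mul_of_nonneg_left _ (sq_nonneg u)
    nlinarith [sq_nonneg (u ^ 2)]
  unfold hs
  rw [← hu]
  nlinarith

theorem hs_mono {s t : ℝ} (h0 : 0 ≤ s) (h : s ≤ t) (h1 : t ≤ 1) : hs s ≤ hs t := by
  have hpi := Real.pi_pos
  unfold hs
  apply pow_le_pow_left₀
  · apply Real.sin_nonneg_of_nonneg_of_le_pi (by positivity)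
    nlinarith
  · apply Real.sin_le_sin_of_le_of_le_pi_div_two
    · nlinarith
    · nlinarith
    · nlinarith

theorem xi_hs (t : ℝ) : xi t = 3 / 2 - hs t := by
  unfold xi
  rw [cos_hs]
  ring

theorem xi_ge (t : ℝ) : 1 / 2 ≤ xi t := by
  rw [xi_hs]
  linarith [hs_le_one t]

theorem xi_le (t : ℝ) : xi t ≤ 3 / 2 := by
  rw [xi_hs]
  linarith [hs_nonneg t]

theorem xi_neg (t : ℝ) : xi (-t) = xi t := by
  unfold xi
  rw [mul_neg, Real.cos_neg]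

theorem xi_abs (t : ℝ) : xi |t| = xi t := by
  rcases abs_choice t with h | h
  · rw [h]
  · rw [h, xi_neg]

theorem xi_anti {s t : ℝ} (h0 : 0 ≤ s) (h : s ≤ t) (h1 : t ≤ 1) : xi t ≤ xi s := by
  rw [xi_hs, xi_hs]
  linarith [hs_mono h0 h h1]

theorem xi_one_sub (s : ℝ) : xi (1 - s) = 1 / 2 + hs s := by
  unfold xi
  have e : Real.pi * (1 - s) = Real.pi - Real.pi * s := by ring
  rw [e, Real.cos_pi_sub, cos_hs]
  ring

theorem continuous_xi : Continuous xi := by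
  unfold xi
  fun_prop

theorem cos_ge_lin {s : ℝ} (h0 : 0 ≤ s) (h1 : s ≤ 1 / 2) : 1 - 2 * s ≤ Real.cos (Real.pi * s) := by
  have hpi := Real.pi_pos
  have h := Real.mul_le_sin (x := Real.pi / 2 - Real.pi * s) (by nlinarith) (by nlinarith)
  rw [Real.sin_pi_div_two_sub] at h
  have e : 2 / Real.pi * (Real.pi / 2 - Real.pi * s) = 1 - 2 * s := by field_simp
  rw [e] at h
  exact h

theorem cos_le_lin {u : ℝ} (h0 : 1 / 2 ≤ u) (h1 : u ≤ 1) : Real.cos (Real.pi * u) ≤ 1 - 2 * u := by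
  have hpi := Real.pi_pos
  have h := Real.mul_le_sin (x := Real.pi * u - Real.pi / 2) (by nlinarith) (by nlinarith)
  rw [Real.sin_sub_pi_div_two] at h
  have e : 2 / Real.pi * (Real.pi * u - Real.pi / 2) = 2 * u - 1 := by field_simp
  rw [e] at h
  linarith

theorem xi_le9 {t : ℝ} (h0 : 3 / 5 ≤ t) (h1 : t ≤ 1) : xi t ≤ 9 / 10 := by
  have := cos_le_lin (u := t) (by linarith) h1
  unfold xi
  linarith

end Pool.Agent.Lib.MP_a247fa_nt.V
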