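import Pool.Agent.Lib.MP_a247fa_nt.V.CrBasic

/-! TRANSFER (50 min). Paper (2.2). `ν' = (ν.restrict (Ioo p q)).map cf`.

`tr_preimage`: for `lo i ≤ y < z ≤ hi i`: `{x ∈ (p,q) : cf x ∈ (y,z)} = (min (h y) (h z), max (h y) (h z))` (`h` strictly monotone, inverse of `cf` on `[p,q]`), so
`mu ν' y z = mu ν (h y) (h z)` (`i` even) or `mu ν (h z) (h y)` (`i` odd) (`Measure.map_apply`, `Measure.restrict_apply`).
`transfer_cr`: finite: `Measure.isFiniteMeasure_map`; no atoms: `ν' {t} = ν {x ∈ (p,q) : cf x = t}` and this set has at most one point. The inequality: for `x < y < z < w` in `[lo i, hi i]` multiply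
CR of `ν` at the points `h x, h y, h z, h w` (reversed order for `i` odd; all in `[p,q] ⊆ [i,i+1] ⊆ [a,b]`) with the `CrC` inequality of `h`
`|hz-hy| |hw-hx| (y-x)(w-z) ≤ |hy-hx| |hw-hz| (z-y)(w-x)` and divide by the positive number `|hz-hy| |hw-hx|`... precisely: `A = mu(hy,hz) mu(hx,hw)`, `B = mu(hx,hy) mu(hz,hw)`,
`A (hy-hx)(hw-hz) ≤ B (hz-hy)(hw-hx)` and `(hz-hy)(hw-hx)(y-x)(w-z) ≤ (hy-hx)(hw-hz)(z-y)(w-x)`; hence `A (y-x)(w-z) (hy-hx)(hw-hz) ≤ B (y-x)(w-z)(hz-hy)(hw-hx) ≤ B (z-y)(w-x)(hy-hx)(hw-hz)`; cancel.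
`transfer_itg`: `integral_map` (`cf` continuous, `F` measurable) and `cf x ∈ (lo i, hi i)` for `x ∈ (p,q)` (strict monotonicity), so the restriction to `Ioo (lo i) (hi i)` does nothing.
`transfer_meas`: same. -/

set_option autoImplicit false

namespace Pool.Agent.Lib.MP_a247fa_nt.V

open Set MeasureTheory
open Pool.Agent.Lib.MP_a247fa_nt.W

/-- the transferred measure -/
noncomputable def tr (ν : Measure ℝ) (p q : ℝ) : Measure ℝ := (ν.restrict (Ioo p q)).map cf

private theorem cf_cont' : Continuous cf := by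
  unfold cf
  fun_prop

private theorem cf_meas' : Measurable cf := cf_cont'.measurable

private theorem br_mem {i : ℕ} {p q : ℝ} {h : ℝ → ℝ} (hB : Br i p q h) {x : ℝ} (hx : x ∈ Ioo p q) :
    cf x ∈ Ioo (lo i : ℝ) (hi i) := by
  have hp : p ∈ Icc p q := left_mem_Icc.mpr hB.lt.le
  have hq : q ∈ Icc p q := right_mem_Icc.mpr hB.lt.le
  have hx' : x ∈ Icc p q := Ioo_subset_Icc_self hx
  rcases Nat.mod_two_eq_zero_or_one i with h1 | h1
  · obtain ⟨m, _, _, e1, e2⟩ := hB.even h1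
    have a1 := m hp hx' hx.1
    have a2 := m hx' hq hx.2
    rw [e1] at a1
    rw [e2] at a2
    exact ⟨a1, a2⟩
  · obtain ⟨m, _, _, e1, e2⟩ := hB.odd h1
    have a1 := m hp hx' hx.1
    have a2 := m hx' hq hx.2
    rw [e1] at a1
    rw [e2] at a2
    exact ⟨a2, a1⟩

private theorem tr_apply {ν : Measure ℝ} {p q : ℝ} {S : Set ℝ} (hS : MeasurableSet S) :
    (tr ν p q) S = ν (Ioo p q ∩ cf ⁻¹' S) := by
  rw [tr, Measure.map_apply cf_meas' hS, Measure.restrict_apply (cf_meas' hS), inter_comm]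

private theorem pre_even {i : ℕ} {p q : ℝ} {h : ℝ → ℝ} (hB : Br i p q h) (h1 : i % 2 = 0) {y z : ℝ}
    (hy : y ∈ Icc (lo i : ℝ) (hi i)) (hz : z ∈ Icc (lo i : ℝ) (hi i)) :
    Ioo p q ∩ cf ⁻¹' (Ioo y z) = Ioo (h y) (h z) := by
  obtain ⟨m, _, _, e1, e2⟩ := hB.even h1
  have y1 := hB.h_mem y hy
  have z1 := hB.h_mem z hz
  have y2 := hB.cf_h y hy
  have z2 := hB.cf_h z hz
  ext x
  constructor
  · rintro ⟨hx, hx2⟩
    have hx' : x ∈ Icc p q := Ioo_subset_Icc_self hx
    have hx3 : y < cf x ∧ cf x < z := hx2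
    constructor
    · by_contra hc
      push Not at hc
      have := m.monotoneOn hx' y1 hc
      linarith [hx3.1]
    · by_contra hc
      push Not at hc
      have := m.monotoneOn z1 hx' hc
      linarith [hx3.2]
  · intro hx
    have hx1 : x ∈ Ioo p q := ⟨y1.1.trans_lt hx.1, hx.2.trans_le z1.2⟩
    have hx' : x ∈ Icc p q := Ioo_subset_Icc_self hx1
    refine ⟨hx1, ?_⟩
    show y < cf x ∧ cf x < z
    have a1 := m y1 hx' hx.1
    have a2 := m hx' z1 hx.2
    rw [y2] at a1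
    rw [z2] at a2
    exact ⟨a1, a2⟩

private theorem pre_odd {i : ℕ} {p q : ℝ} {h : ℝ → ℝ} (hB : Br i p q h) (h1 : i % 2 = 1) {y z : ℝ}
    (hy : y ∈ Icc (lo i : ℝ) (hi i)) (hz : z ∈ Icc (lo i : ℝ) (hi i)) :
    Ioo p q ∩ cf ⁻¹' (Ioo y z) = Ioo (h z) (h y) := by
  obtain ⟨m, _, _, e1, e2⟩ := hB.odd h1
  have y1 := hB.h_mem y hy
  have z1 := hB.h_mem z hz
  have y2 := hB.cf_h y hy
  have z2 := hB.cf_h z hz
  ext x
  constructor
  · rintro ⟨hx, hx2⟩
    have hx' : x ∈ Icc p q := Ioo_subset_Icc_self hx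
    have hx3 : y < cf x ∧ cf x < z := hx2
    constructor
    · by_contra hc
      push Not at hc
      have := m.antitoneOn hx' z1 hc
      linarith [hx3.2]
    · by_contra hc
      push Not at hc
      have := m.antitoneOn y1 hx' hc
      linarith [hx3.1]
  · intro hx
    have hx1 : x ∈ Ioo p q := ⟨z1.1.trans_lt hx.1, hx.2.trans_le y1.2⟩
    have hx' : x ∈ Icc p q := Ioo_subset_Icc_self hx1
    refine ⟨hx1, ?_⟩
    show y < cf x ∧ cf x < z
    have a1 := m z1 hx' hx.1
    have a2 := m hx' y1 hx.2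
    rw [z2] at a1
    rw [y2] at a2
    exact ⟨a2, a1⟩

private theorem tr_alg {A B P Q R S u v : ℝ} (hP : 0 < P) (hQ : 0 < Q) (hB : 0 ≤ B) (hu : 0 ≤ u)
    (h1 : A * (P * Q) ≤ B * (R * S)) (h2 : R * S * u ≤ P * Q * v) : A * u ≤ B * v := by
  have h3 : A * u * (P * Q) ≤ B * v * (P * Q) := by
    calc A * u * (P * Q) = (A * (P * Q)) * u := by ring
      _ ≤ (B * (R * S)) * u := mul_le_mul_of_nonneg_right h1 hu
      _ = B * (R * S * u) := by ring
      _ ≤ B * (P * Q * v) := mul_le_mul_of_nonneg_left h2 hB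
      _ = B * v * (P * Q) := by ring
  exact le_of_mul_le_mul_right h3 (mul_pos hP hQ)

theorem transfer_cr {ν : Measure ℝ} {a b : ℝ} {i : ℕ} {p q : ℝ} {h : ℝ → ℝ} (hB : Br i p q h) (hν : CR ν a b)
    (ha : a ≤ i) (hb : (i : ℝ) + 1 ≤ b) : CR (tr ν p q) (lo i) (hi i) := by
  haveI := hν.fin
  haveI := hν.noat
  refine ⟨?_, ?_, ?_⟩
  · unfold tr
    infer_instance
  · refine ⟨fun t => ?_⟩
    rw [tr_apply (measurableSet_singleton t)]
    have hsub : (Ioo p q ∩ cf ⁻¹' {t}).Subsingleton := by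
      rintro x ⟨hx, hx2⟩ y ⟨hy, hy2⟩
      have hx3 : cf x = t := hx2
      have hy3 : cf y = t := hy2
      have := hB.h_cf x (Ioo_subset_Icc_self hx)
      have h2 := hB.h_cf y (Ioo_subset_Icc_self hy)
      rw [hx3] at this
      rw [hy3] at h2
      rw [← this, ← h2]
    exact hsub.measure_zero ν
  · intro x y z w hx hxy hyz hzw hw
    have mx : x ∈ Icc (lo i : ℝ) (hi i) := ⟨hx, by linarith⟩
    have my : y ∈ Icc (lo i : ℝ) (hi i) := ⟨by linarith, by linarith⟩
    have mz : z ∈ Icc (lo i : ℝ) (hi i) := ⟨by linarith, by linarith⟩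
    have mw : w ∈ Icc (lo i : ℝ) (hi i) := ⟨by linarith, hw⟩
    have hx1 := hB.h_mem x mx
    have hy1 := hB.h_mem y my
    have hz1 := hB.h_mem z mz
    have hw1 := hB.h_mem w mw
    have ex := hB.cf_h x mx
    have ey := hB.cf_h y my
    have ez := hB.cf_h z mz
    have ew := hB.cf_h w mw
    have hp := hB.le_p
    have hq := hB.q_le
    have hc := hB.crc.cr x y z w hx hxy hyz hzw hw
    have hu : 0 ≤ (y - x) * (w - z) := mul_nonneg (by linarith) (by linarith)
    rcases Nat.mod_two_eq_zero_or_one i with h1 | h1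
    · have hm : ∀ s t : ℝ, s ∈ Icc (lo i : ℝ) (hi i) → t ∈ Icc (lo i : ℝ) (hi i) →
          mu (tr ν p q) s t = mu ν (h s) (h t) := by
        intro s t hs ht
        rw [mu, tr_apply measurableSet_Ioo, pre_even hB h1 hs ht]
        rfl
      obtain ⟨m, _, _, _, _⟩ := hB.even h1
      have hinc : ∀ s t : ℝ, s ∈ Icc (lo i : ℝ) (hi i) → t ∈ Icc (lo i : ℝ) (hi i) → s < t → h s < h t := by
        intro s t hs ht hst
        by_contra hcon
        push Not at hcon
        have := m.monotoneOn (hB.h_mem t ht) (hB.h_mem s hs) hcon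
        rw [hB.cf_h s hs, hB.cf_h t ht] at this
        linarith
      have i1 := hinc x y mx my hxy
      have i2 := hinc y z my mz hyz
      have i3 := hinc z w mz mw hzw
      have hcr := hν.cr (h x) (h y) (h z) (h w) (by linarith [hx1.1]) i1 i2 i3 (by linarith [hw1.2])
      rw [hm y z my mz, hm x w mx mw, hm x y mx my, hm z w mz mw]
      rw [abs_of_pos (by linarith : 0 < h z - h y), abs_of_pos (by linarith : 0 < h w - h x),
        abs_of_pos (by linarith : 0 < h y - h x), abs_of_pos (by linarith : 0 < h w - h z)] at hc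
      exact tr_alg (by linarith : 0 < h y - h x) (by linarith : 0 < h w - h z)
        (mul_nonneg (mu_nonneg _ _ _) (mu_nonneg _ _ _)) hu hcr hc
    · have hm : ∀ s t : ℝ, s ∈ Icc (lo i : ℝ) (hi i) → t ∈ Icc (lo i : ℝ) (hi i) →
          mu (tr ν p q) s t = mu ν (h t) (h s) := by
        intro s t hs ht
        rw [mu, tr_apply measurableSet_Ioo, pre_odd hB h1 hs ht]
        rfl
      obtain ⟨m, _, _, _, _⟩ := hB.odd h1
      have hinc : ∀ s t : ℝ, s ∈ Icc (lo i : ℝ) (hi i) → t ∈ Icc (lo i : ℝ) (hi i) → s < t → h t < h s := by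
        intro s t hs ht hst
        by_contra hcon
        push Not at hcon
        have := m.antitoneOn (hB.h_mem s hs) (hB.h_mem t ht) hcon
        rw [hB.cf_h s hs, hB.cf_h t ht] at this
        linarith
      have i1 := hinc x y mx my hxy
      have i2 := hinc y z my mz hyz
      have i3 := hinc z w mz mw hzw
      have hcr := hν.cr (h w) (h z) (h y) (h x) (by linarith [hw1.1]) i3 i2 i1 (by linarith [hx1.2])
      rw [hm y z my mz, hm x w mx mw, hm x y mx my, hm z w mz mw]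
      rw [abs_of_neg (by linarith : h z - h y < 0), abs_of_neg (by linarith : h w - h x < 0),
        abs_of_neg (by linarith : h y - h x < 0), abs_of_neg (by linarith : h w - h z < 0)] at hc
      refine tr_alg (P := h x - h y) (Q := h z - h w) (R := h y - h z) (S := h x - h w)
        (by linarith) (by linarith)
        (mul_nonneg (mu_nonneg _ _ _) (mu_nonneg _ _ _)) hu ?_ ?_
      · have e1 : (h z - h w) * (h x - h y) = (h x - h y) * (h z - h w) := mul_comm _ _
        rw [e1] at hcr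
        rw [mul_comm (mu ν (h y) (h x)) (mu ν (h w) (h z))]
        exact hcr
      · have e2 : -(h z - h y) * -(h w - h x) = (h y - h z) * (h x - h w) := by ring
        have e3 : -(h y - h x) * -(h w - h z) = (h x - h y) * (h z - h w) := by ring
        rw [e2, e3] at hc
        exact hc

theorem transfer_itg {ν : Measure ℝ} {i : ℕ} {p q : ℝ} {h : ℝ → ℝ} (hB : Br i p q h) {F : ℝ → ℝ} (hF : BM F) :
    itg (tr ν p q) F (lo i) (hi i) = itg ν (fun x => F (cf x)) p q := by
  unfold itg tr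
  rw [setIntegral_map measurableSet_Ioo hF.1.aestronglyMeasurable cf_meas'.aemeasurable,
    Measure.restrict_restrict (cf_meas' measurableSet_Ioo)]
  congr 2
  ext x
  constructor
  · exact fun hx => hx.2
  · exact fun hx => ⟨br_mem hB hx, hx⟩

theorem transfer_meas {ν : Measure ℝ} {i : ℕ} {p q : ℝ} {h : ℝ → ℝ} (hB : Br i p q h) {S : Set ℝ}
    (hS : MeasurableSet S) : (tr ν p q) (Ioo (lo i : ℝ) (hi i) ∩ S) = ν (Ioo p q ∩ cf ⁻¹' S) := by
  rw [tr_apply (measurableSet_Ioo.inter hS)]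
  congr 1
  ext x
  constructor
  · exact fun hx => ⟨hx.1, hx.2.2⟩
  · exact fun hx => ⟨hx.1, br_mem hB hx.1, hx.2⟩

end Pool.Agent.Lib.MP_a247fa_nt.V
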