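import Pool.Agent.Lib.MP_a247fa_nt.V.Step
import Pool.Agent.Lib.MP_a247fa_nt.V.Transfer
import Pool.Agent.Lib.MP_a247fa_nt.V.Branch

/-! INDUCT (60 min). Paper section 6. `σ = 23/1250`.

`unit_le`: one unit `(i, i+1)`, `i ≥ 1`, `Br i p q h` (`exists_br`), `ν' = tr ν p q`. Up to the null set `{p, q}`: `Ioo i (i+1) ∩ Vt (t+1)` is the union of `{x : Trp x, ¬ VerS i}` (`⌊x⌋₊ = i`) and
`{x ∈ (p,q) : cf x ∈ Vt t}` (`Br.trp`, `Br.fld`). The second part has measure `ν' (Ioo (lo i) (hi i) ∩ Vt t)` (`transfer_meas`).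
`i ≥ 2` (`lo i + 3 ≤ hi i`): by `P t` for `ν'` (`transfer_cr`): `≤ itg ν' (phi (lo i) (hi i)) + σ ν'(.. ∩ Ct t) = itg ν (fun x => phi (lo i) (hi i) (cf x)) p q + σ ν {x ∈ (p,q), cf x ∈ Ct t}` (`transfer_itg`, `transfer_meas`),
and on `(p,q)` `phi (lo i) (hi i) (cf x) = Nx x`; on `Trp` points `Nx x = 1` if `¬ VerS i`; `Nx ≥ 0`. So the sum is `≤ itg ν Nx i (i+1) + σ ν (Ioo i (i+1) ∩ (Ct (t+1) \ Cap))`.
`i = 1`: `VerS 1`; `v_one`: no point of `[1,2)` is in `Vt t` (induction: `¬ Trp, ¬ Fld`, `1 ≤ x < 2` implies `1 ≤ cf x < 2`: `¬ Fld`: `cf x ≥ 1`, `¬ Trp`: `cf x < 2`). So the left side is `0`.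
`main_V`: induction on `t`; `t = 0`: `Vt 0 = ∅`, right side `≥ 0`. Step: for `b'` from `a` to `b` (induction, splitting at integers, `ν {j} = 0`):
`ν (Ioo a b' ∩ Vt (t+1)) ≤ itg ν Nx a b' + σ ν (Ioo a b' ∩ (Ct (t+1) \ Cap))`; at `b' = b` use `step` and `Cap ⊆ Ct (t+1)`: `ν (.. ∩ Cap) + ν (.. ∩ (Ct (t+1) \ Cap)) = ν (.. ∩ Ct (t+1))`. -/

set_option autoImplicit false

namespace Pool.Agent.Lib.MP_a247fa_nt.V

open Set MeasureTheory
open Pool.Agent.Lib.MP_a247fa_nt.W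

/-- the induction statement -/
def PV (t : ℕ) : Prop := ∀ (a b : ℕ) (ν : Measure ℝ), 1 ≤ a → a + 3 ≤ b → CR ν a b →
  (ν (Ioo (a : ℝ) b ∩ Vt t)).toReal ≤ itg ν (phi a b) a b + 23 / 1250 * (ν (Ioo (a : ℝ) b ∩ Ct t)).toReal

theorem v_one (t : ℕ) {x : ℝ} (h1 : 1 ≤ x) (h2 : x < 2) : x ∉ Vt t := by
  induction t generalizing x with
  | zero => simp [Vt]
  | succ t ih =>
    intro hx
    have hf : ⌊x⌋₊ = 1 := by
      rw [Nat.floor_eq_iff (by linarith)]
      constructor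
      · simpa using h1
      · norm_num; exact h2
    have hx' : (Trp x ∧ ¬ VerS ⌊x⌋₊) ∨ (¬ Trp x ∧ ¬ Fld x ∧ cf x ∈ Vt t) := hx
    rcases hx' with ⟨-, hv⟩ | ⟨hT, hF, hv⟩
    · rw [hf] at hv
      exact hv ⟨0, rfl⟩
    · unfold Trp at hT
      unfold Fld at hF
      rw [hf] at hT hF
      have e1 : cf x < 2 := by
        by_contra hcon
        apply hT
        refine ⟨by norm_num, ?_⟩
        have : T 1 = 2 := by unfold T; norm_num
        rw [this]
        push_cast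
        linarith
      have e2 : 1 ≤ cf x := by
        by_contra hcon
        apply hF
        refine ⟨by norm_num, ?_⟩
        push_cast
        linarith
      exact ih e2 e1 hv

private lemma Ind_le {ν : Measure ℝ} [IsFiniteMeasure ν] {A B C : Set ℝ} (h : A ⊆ B ∪ C) :
    (ν A).toReal ≤ (ν B).toReal + (ν C).toReal := by
  have := (measure_mono h).trans (measure_union_le (μ := ν) B C)
  rw [← ENNReal.toReal_add (measure_ne_top _ _) (measure_ne_top _ _)]
  exact ENNReal.toReal_mono (ENNReal.add_ne_top.2 ⟨measure_ne_top _ _, measure_ne_top _ _⟩) this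

private lemma Ind_ge {ν : Measure ℝ} [IsFiniteMeasure ν] {A B C : Set ℝ} (h : B ∪ C ⊆ A) (hd : Disjoint B C)
    (hC : MeasurableSet C) : (ν B).toReal + (ν C).toReal ≤ (ν A).toReal := by
  rw [← ENNReal.toReal_add (measure_ne_top _ _) (measure_ne_top _ _), ← measure_union hd hC]
  exact ENNReal.toReal_mono (measure_ne_top _ _) (measure_mono h)

theorem unit_le {t : ℕ} (hP : PV t) {i : ℕ} (hi1 : 1 ≤ i) {ν : Measure ℝ} {a b : ℝ} (hν : CR ν a b) (ha : a ≤ i)
    (hb : (i : ℝ) + 1 ≤ b) :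
    (ν (Ioo (i : ℝ) (i + 1) ∩ Vt (t + 1))).toReal ≤
      itg ν Nx i (i + 1) + 23 / 1250 * (ν (Ioo (i : ℝ) (i + 1) ∩ (Ct (t + 1) \ Cap))).toReal := by
  have fin := hν.fin
  have noat := hν.noat
  rcases hi1.eq_or_lt with h1 | h2
  · have hA : Ioo (i : ℝ) (i + 1) ∩ Vt (t + 1) = ∅ := by
      rw [← h1]
      ext x
      simp only [mem_inter_iff, mem_empty_iff_false, iff_false]
      rintro ⟨hx, hv⟩
      have a1 := hx.1
      have a2 := hx.2
      push_cast at a1 a2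
      exact v_one (t + 1) (by linarith) (by linarith) hv
    rw [hA]
    simp only [measure_empty, ENNReal.toReal_zero]
    have e1 : 0 ≤ itg ν Nx i (i + 1) := itg_nonneg (fun t _ => nx_nonneg t)
    have e2 : 0 ≤ (ν (Ioo (i : ℝ) (i + 1) ∩ (Ct (t + 1) \ Cap))).toReal := ENNReal.toReal_nonneg
    linarith
  · obtain ⟨p, q, h, hB⟩ := exists_br hi1
    have hlo : 1 ≤ lo i := by unfold lo; omega
    have hlh : lo i + 3 ≤ hi i := by unfold lo hi; omega
    have key := hP (lo i) (hi i) (tr ν p q) hlo hlh (transfer_cr hB hν ha hb)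
    rw [transfer_meas hB (meas_Vt t), transfer_meas hB (meas_Ct t), transfer_itg hB (bm_phi _ _)] at key
    have hp := hB.le_p
    have hpq := hB.lt
    have hq := hB.q_le
    have fl : ∀ x ∈ Ioo (i : ℝ) (i + 1), ⌊x⌋₊ = i := by
      intro x hx
      have h0 : (0 : ℝ) ≤ i := Nat.cast_nonneg i
      rw [Nat.floor_eq_iff (by linarith [hx.1])]
      exact ⟨hx.1.le, hx.2⟩
    have hin : ∀ x ∈ Ioo p q, x ∈ Ioo (i : ℝ) (i + 1) ∧ ¬ Trp x ∧ ¬ Fld x := by
      intro x hx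
      have hxi : x ∈ Ioo (i : ℝ) (i + 1) := ⟨by linarith [hx.1], by linarith [hx.2]⟩
      refine ⟨hxi, ?_, ?_⟩
      · rw [hB.trp x hxi]; intro a; linarith [hx.1]
      · rw [hB.fld x hxi]; intro a; linarith [hx.2]
    have sp1 := itg_split (ν := ν) bm_nx (x := (i : ℝ)) (y := p) (z := (i : ℝ) + 1) hp (by linarith)
    have sp2 := itg_split (ν := ν) bm_nx (x := p) (y := q) (z := (i : ℝ) + 1) hpq.le hq
    have n3 : 0 ≤ itg ν Nx q (i + 1) := itg_nonneg (fun t _ => nx_nonneg t)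
    have mid : itg ν (fun x => phi (lo i) (hi i) (cf x)) p q ≤ itg ν Nx p q := by
      apply itg_mono (bm_comp (bm_phi _ _) continuous_cf.measurable) bm_nx
      intro x hx
      obtain ⟨hxi, hT, hF⟩ := hin x hx
      rw [Nx, if_neg (by rintro (b | b) <;> contradiction), fl x hxi, if_neg (by omega)]
    have ctp : (ν (Ioo p q ∩ cf ⁻¹' Ct t)).toReal ≤ (ν (Ioo (i : ℝ) (i + 1) ∩ (Ct (t + 1) \ Cap))).toReal := by
      apply ENNReal.toReal_mono (measure_ne_top _ _)
      apply measure_mono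
      rintro x ⟨hx, hxc⟩
      obtain ⟨hxi, hT, hF⟩ := hin x hx
      refine ⟨hxi, ?_, ?_⟩
      · exact Or.inr ⟨hT, hF, hxc⟩
      · rintro (b | b) <;> contradiction
    have z1 : (ν {p}).toReal = 0 := by rw [measure_singleton]; rfl
    have z2 : (ν {q}).toReal = 0 := by rw [measure_singleton]; rfl
    by_cases hV : VerS i
    · have sub : Ioo (i : ℝ) (i + 1) ∩ Vt (t + 1) ⊆ (Ioo p q ∩ cf ⁻¹' Vt t) ∪ {q} := by
        rintro x ⟨hxi, hx⟩
        rcases hx with ⟨-, hx⟩ | ⟨hT, hF, hx⟩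
        · rw [fl x hxi] at hx
          exact absurd hV hx
        · rw [hB.trp x hxi] at hT
          rw [hB.fld x hxi] at hF
          push Not at hT hF
          rcases hF.lt_or_eq with hl | he
          · exact Or.inl ⟨⟨hT, hl⟩, hx⟩
          · exact Or.inr he
      have l1 := Ind_le (ν := ν) sub
      have n1 : 0 ≤ itg ν Nx i p := itg_nonneg (fun t _ => nx_nonneg t)
      linarith
    · have sub : Ioo (i : ℝ) (i + 1) ∩ Vt (t + 1) ⊆ ((Ioo p q ∩ cf ⁻¹' Vt t) ∪ {q}) ∪ (Ioo (i : ℝ) p ∪ {p}) := by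
        rintro x ⟨hxi, hx⟩
        rcases hx with ⟨hT, -⟩ | ⟨hT, hF, hx⟩
        · rw [hB.trp x hxi] at hT
          right
          rcases hT.lt_or_eq with hl | he
          · exact Or.inl ⟨hxi.1, hl⟩
          · exact Or.inr he
        · rw [hB.trp x hxi] at hT
          rw [hB.fld x hxi] at hF
          push Not at hT hF
          left
          rcases hF.lt_or_eq with hl | he
          · exact Or.inl ⟨⟨hT, hl⟩, hx⟩
          · exact Or.inr he
      have l1 := Ind_le (ν := ν) sub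
      have l2 := Ind_le (ν := ν) (Subset.refl ((Ioo p q ∩ cf ⁻¹' Vt t) ∪ {q}))
      have l3 := Ind_le (ν := ν) (Subset.refl (Ioo (i : ℝ) p ∪ {p}))
      have l4 : (ν (Ioo (i : ℝ) p)).toReal ≤ itg ν Nx i p := by
        have e := itg_const (ν := ν) 1 (i : ℝ) p
        rw [one_mul] at e
        change mu ν i p ≤ _
        rw [← e]
        apply itg_mono (bm_const 1) bm_nx
        intro x hx
        have hxi : x ∈ Ioo (i : ℝ) (i + 1) := ⟨hx.1, by linarith [hx.2]⟩
        have hT : Trp x := by rw [hB.trp x hxi]; exact hx.2.le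
        rw [Nx, if_pos (Or.inl hT), if_pos ⟨hT, by rw [fl x hxi]; exact hV⟩]
      linarith

theorem main_V (t : ℕ) : PV t := by
  induction t with
  | zero =>
    intro a b ν ha hab hν
    have fin := hν.fin
    have h0 : Ioo (a : ℝ) b ∩ Vt 0 = ∅ := by simp [Vt]
    rw [h0]
    simp only [measure_empty, ENNReal.toReal_zero]
    have h1 : 0 ≤ itg ν (phi a b) a b := itg_nonneg (fun t _ => phi_nonneg a b t)
    have h2 : 0 ≤ (ν (Ioo (a : ℝ) b ∩ Ct 0)).toReal := ENNReal.toReal_nonneg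
    linarith
  | succ t ih =>
    intro a b ν ha hab hν
    have fin := hν.fin
    have noat := hν.noat
    have cl : ∀ c : ℕ, a ≤ c → c ≤ b → (ν (Ioo (a : ℝ) c ∩ Vt (t + 1))).toReal ≤
        itg ν Nx a c + 23 / 1250 * (ν (Ioo (a : ℝ) c ∩ (Ct (t + 1) \ Cap))).toReal := by
      intro c hc
      induction c, hc using Nat.le_induction with
      | base => intro _; simp [itg]
      | succ c hc ihc =>
        intro hcb
        have h1 := ihc (by omega)
        have hac : (a : ℝ) ≤ c := by exact_mod_cast hc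
        have h2 := unit_le ih (i := c) (by omega) hν hac (by exact_mod_cast hcb)
        push_cast
        have sub : Ioo (a : ℝ) (c + 1) ∩ Vt (t + 1) ⊆
            ((Ioo (a : ℝ) c ∩ Vt (t + 1)) ∪ (Ioo (c : ℝ) (c + 1) ∩ Vt (t + 1))) ∪ {(c : ℝ)} := by
          rintro x ⟨hx, hv⟩
          rcases lt_trichotomy x c with hl | he | hg
          · exact Or.inl (Or.inl ⟨⟨hx.1, hl⟩, hv⟩)
          · exact Or.inr he
          · exact Or.inl (Or.inr ⟨⟨hg, hx.2⟩, hv⟩)
        have l1 := Ind_le (ν := ν) sub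
        have l2 := Ind_le (ν := ν) (Subset.refl ((Ioo (a : ℝ) c ∩ Vt (t + 1)) ∪ (Ioo (c : ℝ) (c + 1) ∩ Vt (t + 1))))
        have z1 : (ν {(c : ℝ)}).toReal = 0 := by rw [measure_singleton]; rfl
        have sp := itg_split (ν := ν) bm_nx (x := (a : ℝ)) (y := c) (z := (c : ℝ) + 1) hac (by linarith)
        have l3 : (ν (Ioo (a : ℝ) c ∩ (Ct (t + 1) \ Cap))).toReal +
            (ν (Ioo (c : ℝ) (c + 1) ∩ (Ct (t + 1) \ Cap))).toReal ≤
            (ν (Ioo (a : ℝ) (c + 1) ∩ (Ct (t + 1) \ Cap))).toReal := by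
          apply Ind_ge
          · rintro x (⟨hx, hv⟩ | ⟨hx, hv⟩)
            · exact ⟨⟨hx.1, by linarith [hx.2]⟩, hv⟩
            · exact ⟨⟨by linarith [hx.1], hx.2⟩, hv⟩
          · rw [Set.disjoint_left]
            rintro x ⟨hx, -⟩ ⟨hy, -⟩
            linarith [hx.2, hy.1]
          · exact measurableSet_Ioo.inter ((meas_Ct _).diff meas_cap)
        linarith
    have h1 := cl b (by omega) le_rfl
    have h2 := step ha hab hν
    have h3 : (ν (Ioo (a : ℝ) b ∩ (Ct (t + 1) \ Cap))).toReal + (ν (Ioo (a : ℝ) b ∩ Cap)).toReal ≤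
        (ν (Ioo (a : ℝ) b ∩ Ct (t + 1))).toReal := by
      apply Ind_ge
      · rintro x (⟨hx, hv⟩ | ⟨hx, hv⟩)
        · exact ⟨hx, hv.1⟩
        · exact ⟨hx, Or.inl hv⟩
      · rw [Set.disjoint_left]
        rintro x ⟨-, hx⟩ ⟨-, hy⟩
        exact hx.2 hy
      · exact measurableSet_Ioo.inter meas_cap
    linarith

end Pool.Agent.Lib.MP_a247fa_nt.V
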