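import Pool.Agent.Lib.MP_a247fa_nt.V.Defs

/-! LDEFS. Definitions for the large windows. -/

set_option autoImplicit false

namespace Pool.Agent.Lib.MP_a247fa_nt.V

open Set MeasureTheory
open Pool.Agent.Lib.MP_a247fa_nt.W

/-- `e0 = Phi(2.25 m + 3) - Phi(1.49 m)` -/
noncomputable def e0 (m : ℕ) : ℝ := Phi (9 / 4 * m + 3) - Phi (149 / 100 * m)

/-- the majorant of the next cost in the inner part of the window of `m`, as a function of `t = |x - m|` -/
noncomputable def Hm (m : ℕ) (t : ℝ) : ℝ := Phi ((m + 3) * xi t) + e0 m * ind (-1) (ta m) t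

/-- `omega_m` -/
noncomputable def om (m : ℕ) : ℝ := if m ≤ 20000000 then 0 else 302 / 100 / m

/-- `q_m` -/
noncomputable def qm (m : ℕ) : ℝ := if m ≤ 20000000 then 0 else 453 / 100 / m

end Pool.Agent.Lib.MP_a247fa_nt.V
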