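import Pool.Agent.Lib.MP_a247fa_nt.V.PP
import Pool.Agent.Lib.MP_a247fa_nt.V.Wn
import Pool.Agent.Lib.MP_a247fa_nt.V.VerSmall
import Pool.Agent.Lib.MP_a247fa_nt.V.LDefs

/-! L53O (50 min). Paper (5.3), large windows, POINTWISE, outer parts `|x - m| ≥ L = LL m`, i.e. `s = |x - n| ≤ 1 - LL m = ta k` with `n = k` (left) or `n = k+2` (right); `m = k+1 ≥ 4000`.

`phi a b x ≥ Phi m` (see S53p). `ta k < 1/2`, so `s < 1/2`.
 `n = a` (left) or `n = b` (right): if `s < zz n`: P1: `Nx ≤ 1/16000 ≤ phi` or (`¬ VerS n`, `s < cc n`): `phi = 1 ≥ Nx`. If `s ≥ zz n` (`n` even): P2: `Nx ≤ Phi (max (cf x + 1) (3/2 T n + 1))`.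
 `n` interior: `s < ze n`: `Nx ≤ 1/16000 + tn n·ind` (P1), `1/16000 = en n + Phi (3/4 (n-1))` (`n > 4000`; for `n = 4000`: `k = 4000`, `en = 1/16000` anyway `1/16000 ≤ en n + Phi (3/4 m + 2) - ..` fine). `s ≥ ze n`: P2.
 Bounds: `cf x + 1 ≤ (m+3) xi t` with `xi t = 1/2 + (1 - cos(πs))/2 ≤ 1/2 + (5/2) s²`, `s² ≤ .7225/k`, so `(m+3) xi t ≤ m/2 + 4 ≤ 3/4 m + 2`; `3/2 T n + 1 ≤ 3/4 (m+1) + 1 ≤ 3/4 m + 2`; `3/4 (n - 1) ≤ 3/4 m ≤ 3/4 m + 2`.
 So `Nx ≤ Phi (3/4 m + 2) + [n interior](en n·ind zone + tn n·ind tube)`, and `Phi (3/4 m + 2) + om m ≤ Phi m` (`Wn_outer` for `m > 2*10^7`; else `om = 0` and `Phi_mono`). If `n` is an end, `Phi (3/4 m + 2) ≤ Phi m ≤ phi`. -/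

set_option autoImplicit false

namespace Pool.Agent.Lib.MP_a247fa_nt.V

open Set MeasureTheory
open Pool.Agent.Lib.MP_a247fa_nt.W

private theorem o_sqrt {k : ℕ} (h : 4000 ≤ k) : 63 ≤ √(k : ℝ) ∧ √(k : ℝ) ^ 2 = k := by
  have h1 : (4000 : ℝ) ≤ k := by exact_mod_cast h
  refine ⟨?_, Real.sq_sqrt (by linarith)⟩
  apply Real.le_sqrt_of_sq_le
  norm_num
  linarith

private theorem phi_le_one (a b : ℕ) (x : ℝ) : phi a b x ≤ 1 := by
  have h := fun y => Phi_lt y
  unfold phi
  split_ifs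
  · exact le_rfl
  · norm_num
  · linarith [h (3 / 2 * a + 1)]
  · linarith [h (3 / 2 * b + 1)]
  · linarith [h (2 * (⌊x / 2⌋₊ : ℝ) + 1)]

private theorem Nx_le_one (x : ℝ) : Nx x ≤ 1 := by
  unfold Nx
  split_ifs
  · exact le_rfl
  · norm_num
  · norm_num
  · exact phi_le_one _ _ _

private theorem phi_ge {a b k m : ℕ} (hk : k % 2 = 0) (hm : m = k + 1) (hak : a ≤ k) (hkb : k + 2 ≤ b)
    {x : ℝ} (h1 : (k : ℝ) < x) (h2 : x < k + 2) : Phi m ≤ phi a b x := by
  have hP := Phi_lt (m : ℝ)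
  unfold phi
  split_ifs with c1 c2 c3 c4
  · linarith
  · exact hP.le
  · exfalso
    have h3 : a + 1 ≤ k := by omega
    have h4 : (a : ℝ) + 1 ≤ k := by exact_mod_cast h3
    linarith [c3.2]
  · exfalso
    have h3 : k + 3 ≤ b := by omega
    have h4 : (k : ℝ) + 3 ≤ b := by exact_mod_cast h3
    linarith [c4.2]
  · apply Phi_mono
    have h5 : ⌊x / 2⌋₊ = k / 2 := by
      obtain ⟨c, hc⟩ : ∃ c, k = 2 * c := ⟨k / 2, by omega⟩
      have h6 : k / 2 = c := by omega
      rw [h6, Nat.floor_eq_iff (by have : (0 : ℝ) ≤ k := Nat.cast_nonneg k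
                                   linarith)]
      rw [hc] at h1 h2
      push_cast at h1 h2
      constructor <;> linarith
    rw [h5, hm]
    obtain ⟨c, hc⟩ : ∃ c, k = 2 * c := ⟨k / 2, by omega⟩
    have h6 : k / 2 = c := by omega
    rw [h6, hc]
    push_cast
    exact le_rfl

private theorem o_core {k m n i : ℕ} (hk : k % 2 = 0) (hm : m = k + 1) (hk4 : 4000 ≤ k)
    (hni : (n = k ∧ i = k) ∨ (n = k + 2 ∧ i = k + 1)) {x : ℝ} (hx : x ∈ Ioo (i : ℝ) (i + 1))
    (hsn : |x - n| ≤ 17 / 20 / √(k : ℝ)) :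
    (zz n ≤ |x - n| → Nx x ≤ Phi (3 / 4 * m + 2)) ∧
      (Nx x ≤ 1 / 16000 ∨ (¬ VerS n ∧ |x - n| < cc n)) := by
  obtain ⟨q1, q2⟩ := o_sqrt hk4
  have hkr : (4000 : ℝ) ≤ k := by exact_mod_cast hk4
  have hs2 : |x - n| ≤ 1 / 2 := by
    refine hsn.trans ?_
    rw [div_le_iff₀ (by linarith)]
    linarith
  have hi2 : 2 ≤ i := by omega
  have hni' : n = i ∨ n = i + 1 := by omega
  have hne : n % 2 = 0 := by omega
  refine ⟨fun hz => ?_, P1 hi2 hx hni' hs2⟩
  refine (P2 hi2 hx hni' hs2 (Or.inr ⟨hne, hz⟩)).trans (Phi_mono (max_le ?_ ?_))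
  · have hmo : m % 2 = 1 := by omega
    have hxm : |x - m| = 1 - |x - n| := by
      rcases hni with ⟨h1, h2⟩ | ⟨h1, h2⟩
      · rw [h2] at hx
        rw [h1, hm]
        push_cast
        rw [abs_of_pos (by linarith [hx.1] : (0 : ℝ) < x - k),
          abs_of_neg (by linarith [hx.2] : x - ((k : ℝ) + 1) < 0)]
        ring
      · rw [h2] at hx
        push_cast at hx
        rw [h1, hm]
        push_cast
        rw [abs_of_neg (by linarith [hx.2] : x - ((k : ℝ) + 2) < 0),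
          abs_of_pos (by linarith [hx.1] : (0 : ℝ) < x - ((k : ℝ) + 1))]
        ring
    have h3 : |x - m| ≤ 1 := by
      rw [hxm]
      linarith [abs_nonneg (x - n)]
    refine (cf_add_one_le hmo h3).trans ?_
    rw [hxm, xi_one_sub]
    have h4 := hs_le |x - n|
    have h5 : |x - n| ^ 2 ≤ 289 / 400 / k := by
      have h6 := pow_le_pow_left₀ (abs_nonneg (x - n)) hsn 2
      rw [div_pow, q2] at h6
      norm_num at h6 ⊢
      exact h6
    have h7 : hs |x - n| ≤ 987 / 400 * (289 / 400 / k) := by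
      refine h4.trans ?_
      exact mul_le_mul_of_nonneg_left h5 (by norm_num)
    have hmr : (m : ℝ) = k + 1 := by rw [hm]; push_cast; ring
    have h8 : ((m : ℝ) + 3) * hs |x - n| ≤ (m + 3) * (987 / 400 * (289 / 400 / k)) :=
      mul_le_mul_of_nonneg_left h7 (by linarith)
    have h9 : ((m : ℝ) + 3) * (987 / 400 * (289 / 400 / k)) ≤ 2 := by
      have : ((m : ℝ) + 3) * (987 / 400 * (289 / 400 / k)) = (m + 3) * (987 / 400 * (289 / 400)) / k := by
        field_simp
      rw [this, div_le_iff₀ (by linarith), hmr]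
      linarith
    have h10 : ((m : ℝ) + 3) * (1 / 2 + hs |x - n|) = (m + 3) / 2 + (m + 3) * hs |x - n| := by ring
    rw [h10]
    linarith
  · have h1 := T_eq_even hne
    have h2 : ((T n : ℕ) : ℝ) = n / 2 := by rw [h1.1, h1.2.2.1]
    rw [h2]
    have h3 : (n : ℝ) ≤ k + 2 := by
      have : n ≤ k + 2 := by omega
      exact_mod_cast this
    have hmr : (m : ℝ) = k + 1 := by rw [hm]; push_cast; ring
    linarith

private theorem o_Phi {m : ℕ} (hm : 4000 ≤ m) : Phi (3 / 4 * m + 2) + om m ≤ Phi m := by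
  have h1 : (4000 : ℝ) ≤ m := by exact_mod_cast hm
  unfold om
  split_ifs with h
  · rw [add_zero]
    apply Phi_mono
    linarith
  · apply Wn_outer
    have : 20000000 ≤ m := by omega
    exact_mod_cast this

private theorem o_en {n : ℕ} : 0 ≤ en n := by
  unfold en
  split_ifs
  · norm_num
  · linarith [Phi_lt (3 / 4 * ((n : ℝ) - 1))]

private theorem o_tn {n : ℕ} : 0 ≤ tn n := by
  unfold tn
  split_ifs <;> norm_num

private theorem o_ind (c d x : ℝ) : 0 ≤ ind c d x := by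
  unfold ind
  split_ifs <;> norm_num

/-- the interior case -/
private theorem o_int {n m : ℕ} {x c d e : ℝ} (hm : 4000 ≤ m) (hnm : n ≤ m + 1) (hP : Phi m ≤ d)
    (hn : 32 ≤ n) (he : n % 2 = 0)
    (h1 : zz n ≤ |x - n| → Nx x ≤ Phi (3 / 4 * m + 2))
    (h2 : Nx x ≤ 1 / 16000 ∨ (¬ VerS n ∧ |x - n| < cc n))
    (hc : 0 ≤ c) (hc1 : |x - n| < ze n → c = 1) (he0 : 0 ≤ e) (he1 : |x - n| < cc n → e = 1) :
    Nx x - d ≤ en n * c + tn n * e - om m := by
  have h3 := o_Phi hm
  have h4 : (0 : ℝ) ≤ en n * c := mul_nonneg o_en hc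
  have h5 : (0 : ℝ) ≤ tn n * e := mul_nonneg o_tn he0
  rcases lt_or_ge |x - n| (ze n) with h | h
  · have h6 := hc1 h
    have h7 : Nx x ≤ 1 / 16000 + tn n * e := by
      rcases h2 with h2 | ⟨h2, h2'⟩
      · linarith
      · rw [he1 h2', tn, if_neg h2]
        linarith [Nx_le_one x]
    have h8 : 1 / 16000 ≤ en n + Phi (3 / 4 * m + 2) := by
      unfold en
      split_ifs with hh
      · linarith [Phi_pos (3 / 4 * (m : ℝ) + 2)]
      · have : Phi (3 / 4 * ((n : ℝ) - 1)) ≤ Phi (3 / 4 * m + 2) := by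
          apply Phi_mono
          have : (n : ℝ) ≤ m + 1 := by exact_mod_cast hnm
          linarith
        linarith
    rw [h6, mul_one]
    linarith
  · have h6 := h1 (by rw [zz_eq_ze hn he]; exact h)
    linarith

theorem l53o_left {a b k m : ℕ} (ha : 1 ≤ a) (hk : k % 2 = 0) (hm : m = k + 1) (hm4 : 4000 ≤ m)
    (hak : a ≤ k) (hkb : k + 2 ≤ b) {x : ℝ} (h1 : (k : ℝ) < x) (h2 : x ≤ m - LL m) :
    Nx x - phi a b x ≤ if a < k then en k * ind k (k + ze k) x + tn k * ind k (k + cc k) x - om m else 0 := by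
  have hk4 : 4000 ≤ k := by omega
  have hmr : (m : ℝ) = k + 1 := by rw [hm]; push_cast; ring
  obtain ⟨q1, q2⟩ := o_sqrt hk4
  have h3 : x - k ≤ 17 / 20 / √(k : ℝ) := by
    unfold LL at h2
    rw [hmr, add_sub_cancel_right] at h2
    linarith
  have h3' : 17 / 20 / √(k : ℝ) ≤ 1 / 2 := by
    rw [div_le_iff₀ (by linarith)]
    linarith
  have hab : |x - (k : ℝ)| = x - k := abs_of_pos (by linarith)
  have hc := o_core (n := k) (i := k) hk hm hk4 (Or.inl ⟨rfl, rfl⟩) (x := x)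
    ⟨h1, by linarith⟩ (by rw [hab]; exact h3)
  have hP := phi_ge (a := a) (b := b) hk hm hak hkb h1 (by linarith)
  split_ifs with hlt
  · refine o_int hm4 (by omega) hP (by omega) hk hc.1 hc.2 (o_ind _ _ _) ?_ (o_ind _ _ _) ?_
    · intro h
      rw [hab] at h
      rw [ind, if_pos ⟨h1, by linarith⟩]
    · intro h
      rw [hab] at h
      rw [ind, if_pos ⟨h1, by linarith⟩]
  · have hae : a = k := by omega
    rcases lt_or_ge (x - k) (zz k) with h | h
    · have hge : (1 : ℝ) / 16000 ≤ phi a b x := by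
        unfold phi
        rw [hae]
        split_ifs with c1 c2
        · norm_num
        · exact le_rfl
        · exact absurd (Or.inl h) c2
        · exact absurd (Or.inl h) c2
        · exact absurd (Or.inl h) c2
      rcases hc.2 with h4 | ⟨h4, h5⟩
      · linarith
      · have : phi a b x = 1 := by
          unfold phi
          rw [if_pos (Or.inl ⟨by rw [hae]; exact h4, by rw [hae]; rw [hab] at h5; exact h5⟩)]
        rw [this]
        linarith [Nx_le_one x]
    · have h4 := hc.1 (by rw [hab]; exact h)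
      have h5 := Phi_mono (show (3 / 4 * (m : ℝ) + 2) ≤ m by
        have : (4000 : ℝ) ≤ m := by exact_mod_cast hm4
        linarith)
      linarith

theorem l53o_right {a b k m : ℕ} (ha : 1 ≤ a) (hk : k % 2 = 0) (hm : m = k + 1) (hm4 : 4000 ≤ m)
    (hak : a ≤ k) (hkb : k + 2 ≤ b) {x : ℝ} (h1 : m + LL m ≤ x) (h2 : x < k + 2) :
    Nx x - phi a b x ≤ if k + 2 < b then en (k + 2) * ind (k + 2 - ze (k + 2)) (k + 2) x +
      tn (k + 2) * ind (k + 2 - cc (k + 2)) (k + 2) x - om m else 0 := by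
  have hk4 : 4000 ≤ k := by omega
  have hmr : (m : ℝ) = k + 1 := by rw [hm]; push_cast; ring
  obtain ⟨q1, q2⟩ := o_sqrt hk4
  have h3 : (k : ℝ) + 2 - x ≤ 17 / 20 / √(k : ℝ) := by
    unfold LL at h1
    rw [hmr, add_sub_cancel_right] at h1
    linarith
  have h3' : 17 / 20 / √(k : ℝ) ≤ 1 / 2 := by
    rw [div_le_iff₀ (by linarith)]
    linarith
  have hcast : ((k + 2 : ℕ) : ℝ) = k + 2 := by push_cast; ring
  have hab : |x - ((k + 2 : ℕ) : ℝ)| = k + 2 - x := by
    rw [hcast, abs_of_neg (by linarith)]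
    ring
  have hc := o_core (n := k + 2) (i := k + 1) hk hm hk4 (Or.inr ⟨rfl, rfl⟩) (x := x)
    ⟨by push_cast; linarith, by push_cast; linarith⟩ (by rw [hab]; exact h3)
  have hP := phi_ge (a := a) (b := b) hk hm hak hkb (x := x) (by linarith) h2
  split_ifs with hlt
  · refine o_int hm4 (by omega) hP (by omega) (by omega) hc.1 hc.2 (o_ind _ _ _) ?_ (o_ind _ _ _) ?_
    · intro h
      rw [hab] at h
      rw [ind, if_pos ⟨by linarith, h2⟩]
    · intro h
      rw [hab] at h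
      rw [ind, if_pos ⟨by linarith, h2⟩]
  · have hbe : b = k + 2 := by omega
    rcases lt_or_ge ((k : ℝ) + 2 - x) (zz (k + 2)) with h | h
    · have hge : (1 : ℝ) / 16000 ≤ phi a b x := by
        unfold phi
        rw [hbe, hcast]
        split_ifs with c1 c2
        · norm_num
        · exact le_rfl
        · exact absurd (Or.inr h) c2
        · exact absurd (Or.inr h) c2
        · exact absurd (Or.inr h) c2
      rcases hc.2 with h4 | ⟨h4, h5⟩
      · linarith
      · have : phi a b x = 1 := by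
          unfold phi
          rw [if_pos (Or.inr ⟨by rw [hbe]; exact h4, by
            rw [hab] at h5
            rw [hbe, hcast]
            exact h5⟩)]
        rw [this]
        linarith [Nx_le_one x]
    · have h4 := hc.1 (by rw [hab]; exact h)
      have h5 := Phi_mono (show (3 / 4 * (m : ℝ) + 2) ≤ m by
        have : (4000 : ℝ) ≤ m := by exact_mod_cast hm4
        linarith)
      linarith

end Pool.Agent.Lib.MP_a247fa_nt.V
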