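import Pool.Agent.Lib.MP_a247fa_nt.V.Defs

/-! PHIA. Basic facts on `Phi x = (1/16000) r/(1+r)`, `r = √(max x 2000/20000000) > 0`: `r/(1+r)` is increasing in `r > 0`, in `(0,1)`, continuous. -/

set_option autoImplicit false

namespace Pool.Agent.Lib.MP_a247fa_nt.V

open Set MeasureTheory
open Pool.Agent.Lib.MP_a247fa_nt.W

private theorem PhiA_frac {r s : ℝ} (hr : 0 ≤ r) (h : r ≤ s) : r / (1 + r) ≤ s / (1 + s) := by
  rw [div_le_div_iff₀ (by linarith) (by linarith)]
  nlinarith

theorem Phi_mono {x y : ℝ} (h : x ≤ y) : Phi x ≤ Phi y := by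
  unfold Phi
  apply mul_le_mul_of_nonneg_left _ (by norm_num)
  apply PhiA_frac (Real.sqrt_nonneg _)
  apply Real.sqrt_le_sqrt
  have : max x 2000 ≤ max y 2000 := max_le_max h le_rfl
  linarith

private theorem PhiA_pos (x : ℝ) : 0 < √(max x 2000 / 20000000) := by
  apply Real.sqrt_pos.2
  have : (2000 : ℝ) ≤ max x 2000 := le_max_right _ _
  positivity

theorem Phi_pos (x : ℝ) : 0 < Phi x := by
  unfold Phi
  have := PhiA_pos x
  positivity

theorem Phi_lt (x : ℝ) : Phi x < 1 / 16000 := by
  unfold Phi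
  have h := PhiA_pos x
  have : √(max x 2000 / 20000000) / (1 + √(max x 2000 / 20000000)) < 1 := by
    rw [div_lt_one (by linarith)]
    linarith
  linarith

theorem Phi_flat {x : ℝ} (h : x ≤ 2000) : Phi x = Phi 2000 := by
  unfold Phi
  rw [max_eq_right h, max_self]

theorem continuous_Phi : Continuous Phi := by
  unfold Phi
  have h1 : Continuous fun x : ℝ => √(max x 2000 / 20000000) := by fun_prop
  exact continuous_const.mul (h1.div (continuous_const.add h1) fun x => by
    have := PhiA_pos x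
    positivity)

theorem measurable_Phi : Measurable Phi := continuous_Phi.measurable

theorem Phi_eq {x : ℝ} (h : 2000 ≤ x) : Phi x = 1 / 16000 * (√(x / 20000000) / (1 + √(x / 20000000))) := by
  unfold Phi
  rw [max_eq_left h]

theorem Phi_gap {x : ℝ} (h : 2000 ≤ x) : 1 / 16000 - Phi x = 1 / 16000 * (1 / (1 + √(x / 20000000))) := by
  rw [Phi_eq h]
  have h0 : 0 ≤ √(x / 20000000) := Real.sqrt_nonneg _
  have h1 : 1 + √(x / 20000000) ≠ 0 := by positivity
  field_simp
  ring

end Pool.Agent.Lib.MP_a247fa_nt.V
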