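import Pool.Agent.Lib.MP_a247fa_nt.V.MuBasic
import Pool.Agent.Lib.MP_a247fa_nt.V.PhiA

/-! MEASV (30 min). Measurability and bounds. `Trp`, `Fld`: conditions on `⌊y⌋₊` (`Nat.measurable_floor`, every set of naturals is measurable) and the continuous `cf`
(e.g. `{y | Trp y} = ⋃ m odd, {⌊y⌋₊ = m} ∩ {T m ≤ cf y}`). `Vt`, `Ct`: induction, preimages under `cf`. `phi a b`: nested `Measurable.ite` (all conditions are measurable sets, the last value is
`Phi` (measurable, `PhiA`) of `2 ⌊x/2⌋₊ + 1`). `Nx`: for each `m` the function `phi (lo m) (hi m) (cf x)` is measurable; `⌊x⌋₊` takes countably many values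
(`measurable_from_prod_countable` or `Nx = fun x => G ⌊x⌋₊ x` with `measurable` of `x ↦ G ⌊x⌋₊ x`: `measurable_from_prod_countable_right`-type lemma composed with `x ↦ (⌊x⌋₊, x)`).
Bounds: `0 ≤ phi ≤ 1`, `0 ≤ Nx ≤ 1` since `0 ≤ Phi ≤ 1/16000`. -/

set_option autoImplicit false

namespace Pool.Agent.Lib.MP_a247fa_nt.V

open Set MeasureTheory
open Pool.Agent.Lib.MP_a247fa_nt.W

private theorem MeasV_floor : Measurable (fun x : ℝ => ⌊x⌋₊) := Nat.measurable_floor

private theorem MeasV_cf : Measurable cf := continuous_cf.measurable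

private theorem MeasV_odd : MeasurableSet {x : ℝ | ⌊x⌋₊ % 2 = 1} :=
  MeasV_floor (MeasurableSet.of_discrete (s := {m : ℕ | m % 2 = 1}))

theorem meas_trp : MeasurableSet {x : ℝ | Trp x} := by
  have h1 : Measurable (fun x : ℝ => ((T ⌊x⌋₊ : ℕ) : ℝ)) :=
    (Measurable.of_discrete (f := fun m : ℕ => ((T m : ℕ) : ℝ))).comp MeasV_floor
  exact MeasV_odd.inter (measurableSet_le h1 MeasV_cf)

theorem meas_fld : MeasurableSet {x : ℝ | Fld x} := by
  have h1 : Measurable (fun x : ℝ => ((⌊x⌋₊ : ℝ) + 1) / 2) :=
    (Measurable.of_discrete (f := fun m : ℕ => ((m : ℝ) + 1) / 2)).comp MeasV_floor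
  exact MeasV_odd.inter (measurableSet_lt MeasV_cf h1)

theorem meas_cap : MeasurableSet Cap := meas_trp.union meas_fld

private theorem MeasV_ver : MeasurableSet {x : ℝ | ¬ VerS ⌊x⌋₊} :=
  MeasV_floor (MeasurableSet.of_discrete (s := {m : ℕ | ¬ VerS m}))

theorem meas_Vt (t : ℕ) : MeasurableSet (Vt t) := by
  induction t with
  | zero => exact MeasurableSet.empty
  | succ t ih =>
    exact (meas_trp.inter MeasV_ver).union
      (meas_trp.compl.inter (meas_fld.compl.inter (MeasV_cf ih)))

theorem meas_Ct (t : ℕ) : MeasurableSet (Ct t) := by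
  induction t with
  | zero => exact MeasurableSet.empty
  | succ t ih =>
    exact (meas_trp.union meas_fld).union
      (meas_trp.compl.inter (meas_fld.compl.inter (MeasV_cf ih)))

theorem phi_nonneg (a b : ℕ) (x : ℝ) : 0 ≤ phi a b x := by
  unfold phi
  split_ifs
  · norm_num
  · norm_num
  · exact (Phi_pos _).le
  · exact (Phi_pos _).le
  · exact (Phi_pos _).le

theorem phi_le_one (a b : ℕ) (x : ℝ) : phi a b x ≤ 1 := by
  have h : ∀ y, Phi y ≤ 1 := fun y => (Phi_lt y).le.trans (by norm_num)
  unfold phi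
  split_ifs
  · norm_num
  · norm_num
  · exact h _
  · exact h _
  · exact h _

private theorem MeasV_phi (a b : ℕ) : Measurable (phi a b) := by
  unfold phi
  have m1 : MeasurableSet {x : ℝ | x - (a : ℝ) < cc a} :=
    measurableSet_lt (measurable_id.sub_const _) measurable_const
  have m2 : MeasurableSet {x : ℝ | (b : ℝ) - x < cc b} :=
    measurableSet_lt (measurable_const.sub measurable_id) measurable_const
  have m3 : MeasurableSet {x : ℝ | x - (a : ℝ) < zz a} :=
    measurableSet_lt (measurable_id.sub_const _) measurable_const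
  have m4 : MeasurableSet {x : ℝ | (b : ℝ) - x < zz b} :=
    measurableSet_lt (measurable_const.sub measurable_id) measurable_const
  have m5 : MeasurableSet {x : ℝ | x < (a : ℝ) + 1} :=
    measurableSet_lt measurable_id measurable_const
  have m6 : MeasurableSet {x : ℝ | (b : ℝ) - 1 < x} :=
    measurableSet_lt measurable_const measurable_id
  have m7 : Measurable (fun x : ℝ => Phi (2 * (⌊x / 2⌋₊ : ℝ) + 1)) := by
    have h1 : Measurable (fun m : ℕ => 2 * (m : ℝ) + 1) := Measurable.of_discrete
    exact measurable_Phi.comp (h1.comp (MeasV_floor.comp (measurable_id.div_const 2)))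
  refine Measurable.ite ?_ measurable_const ?_
  · exact ((MeasurableSet.const _).inter m1).union ((MeasurableSet.const _).inter m2)
  refine Measurable.ite ?_ measurable_const ?_
  · exact m3.union m4
  refine Measurable.ite ?_ measurable_const ?_
  · exact (MeasurableSet.const _).inter m5
  refine Measurable.ite ?_ measurable_const m7
  · exact (MeasurableSet.const _).inter m6

theorem bm_phi (a b : ℕ) : BM (phi a b) := by
  refine ⟨MeasV_phi a b, 1, fun x => ?_⟩
  rw [abs_of_nonneg (phi_nonneg a b x)]
  exact phi_le_one a b x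

theorem nx_nonneg (x : ℝ) : 0 ≤ Nx x := by
  unfold Nx
  split_ifs
  · norm_num
  · norm_num
  · norm_num
  · exact phi_nonneg _ _ _

theorem nx_le_one (x : ℝ) : Nx x ≤ 1 := by
  unfold Nx
  split_ifs
  · norm_num
  · norm_num
  · norm_num
  · exact phi_le_one _ _ _

theorem bm_nx : BM Nx := by
  refine ⟨?_, 1, fun x => ?_⟩
  · unfold Nx
    refine Measurable.ite (meas_trp.union meas_fld) ?_ ?_
    · exact Measurable.ite (meas_trp.inter MeasV_ver) measurable_const measurable_const
    · refine Measurable.ite ?_ measurable_const ?_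
      · exact MeasV_floor (MeasurableSet.of_discrete (s := {m : ℕ | m ≤ 1}))
      · have hg : Measurable (fun p : ℕ × ℝ => phi (lo p.1) (hi p.1) p.2) :=
          measurable_from_prod_countable_right fun m => MeasV_phi (lo m) (hi m)
        exact hg.comp (MeasV_floor.prodMk MeasV_cf)
  · rw [abs_of_nonneg (nx_nonneg x)]
    exact nx_le_one x

end Pool.Agent.Lib.MP_a247fa_nt.V
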