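import Pool.Agent.Lib.MP_a247fa_nt.V.L53i
import Pool.Agent.Lib.MP_a247fa_nt.V.L53o
import Pool.Agent.Lib.MP_a247fa_nt.V.E54
import Pool.Agent.Lib.MP_a247fa_nt.V.E55
import Pool.Agent.Lib.MP_a247fa_nt.V.CrLayer
import Pool.Agent.Lib.MP_a247fa_nt.V.MeasV

/-! L53 (60 min). Paper (5.3), large windows, integrated. `L = LL m = 1 - ta k`, `I = (m-L, m+L) = (k + ta k, k+2 - ta k)`.

Split `itg ν (Nx - phi) k (k+2)` at `m ∓ L` (`itg_split`).
Inner: `l53i`; `itg ν (Hm m |x-m|) I ≤ 1/L ∫_0^L Hm · mu I` (`cr_layer`, `c = m`; `Hm m` is antitone on `[0,L]` (`hm_anti`), `≥ 0`, BM), and `1/L ∫_0^L Hm m + qm m ≤ Phi m` (`E54`; `∫_0^L Hm m = ∫_0^L Phi ((m+3) xi t) + e0 m · ta m` since `0 < ta m ≤ L`, `hm_int`), so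
`inner ≤ - qm m · mu I + (1/16000 - Phi (9/4 m)) mu (m - ze m) (m + ze m) + tn m · mu (m - cc m) (m + cc m)`. By `E55` + `cr_right` (`al_le_ze`, `ze_lt_one`) the second term is `≤ sigma mu m (m + al m)`. `cr_four` (`w = m ∓ L`):
`mu (m-cc m) (m + cc m) ≤ (3/m)(2L)/(4 (L - cc m)²) mu I ≤ 1.51/m · mu I` (`L ≥ 1 - .85/√k`, `m > 2*10^7` if `tn m ≠ 0`).
Outer left: `l53o_left`: `a < k`: `≤ en k mu k (k + ze k) + tn k mu k (k + cc k) - om m · mu k (k + ta k)` (`ze k, cc k ≤ ta k` or just `mu_mono`-free: the ind integrals over `(k, k + ta k)` are `≤` those over the whole; they are equal as `ze k ≤ ta k`, `cc k ≤ ta k`).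
Compare with `Gr ν k = en k mu k (k+ze k) + tn k mu k (k+cc k) - wn k · mu k (k+1/2)`: need `wn k · mu k (k+1/2) ≤ om m · (mu k (k + ta k) + mu (k + ta k) (k + 1/2))`: `wn k ≤ om m` (if `¬ VerS k` then `k > 2*10^7` and `3.01/k ≤ 3.02/m`).
Same at the right (`wn (k+2) ≤ om m`). The sum of the two inner pieces `mu (k + ta k) (k+1/2) + mu (k+3/2) (k+2 - ta k) ≤ mu I`. So in total
`≤ sigma mu m (m+al m) + Gr + Gl + (-qm m + 1.51/m [m > N] + om m) mu I` and `1.51/m + 3.02/m = 4.53/m = qm m` (all zero if `m ≤ 2*10^7`: then `m`, `k`, `k+2` are verified;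
`k + 2 ≤ 20000000 + 1`, even, so `≤ 2*10^7`). If `k = a` there is no `Gr` term and the outer left part is `≤ 0`. -/

set_option autoImplicit false

namespace Pool.Agent.Lib.MP_a247fa_nt.V

open Set MeasureTheory
open Pool.Agent.Lib.MP_a247fa_nt.W

private theorem l53_e0_nonneg (m : ℕ) : 0 ≤ e0 m := by
  unfold e0
  have h : Phi (149 / 100 * (m : ℝ)) ≤ Phi (9 / 4 * m + 3) := by
    apply Phi_mono
    have : (0 : ℝ) ≤ m := Nat.cast_nonneg m
    linarith
  linarith

theorem hm_anti {m : ℕ} (hm : 4000 ≤ m) {L : ℝ} (hL : L ≤ 1) : AntitoneOn (Hm m) (Icc 0 L) := by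
  intro s hs t ht hst
  unfold Hm
  have h1 : xi t ≤ xi s := xi_anti hs.1 hst (ht.2.trans hL)
  have h2 : Phi (((m : ℝ) + 3) * xi t) ≤ Phi ((m + 3) * xi s) := by
    apply Phi_mono
    apply mul_le_mul_of_nonneg_left h1
    have : (0 : ℝ) ≤ m := Nat.cast_nonneg m
    linarith
  have h3 : ind (-1) (ta m) t ≤ ind (-1) (ta m) s := by
    by_cases h : t < ta m
    · rw [ind_of_mem (by linarith [ht.1]) h, ind_of_mem (by linarith [hs.1]) (lt_of_le_of_lt hst h)]
    · rw [ind_of_ge (not_lt.1 h)]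
      exact ind_nonneg _ _ _
  exact add_le_add h2 (mul_le_mul_of_nonneg_left h3 (l53_e0_nonneg m))

private theorem l53_bm_phi (m : ℕ) : BM (fun t => Phi ((m + 3) * xi t)) := by
  refine ⟨measurable_Phi.comp (continuous_xi.measurable.const_mul _), 1 / 16000, fun x => ?_⟩
  rw [abs_of_pos (Phi_pos _)]
  exact (Phi_lt _).le

theorem hm_bm (m : ℕ) : BM (Hm m) := by
  unfold Hm
  exact bm_add (l53_bm_phi m) (bm_cmul _ (bm_ind _ _))

theorem hm_nonneg {m : ℕ} (hm : 4000 ≤ m) (t : ℝ) : 0 ≤ Hm m t := by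
  unfold Hm
  exact add_nonneg (Phi_pos _).le (mul_nonneg (l53_e0_nonneg m) (ind_nonneg _ _ _))

private theorem l53_gap {m : ℕ} : 1 - LL m = 17 / 20 / √((m : ℝ) - 1) := by
  unfold LL; ring

private theorem l53_ta_le {m : ℕ} (hm : 4000 ≤ m) : ta m ≤ 1 - LL m := by
  rw [l53_gap]; exact ta_le_gap hm (by omega)

theorem hm_int {m : ℕ} (hm : 4000 ≤ m) :
    ∫ t in (0 : ℝ)..(LL m), Hm m t = (∫ t in (0 : ℝ)..(LL m), Phi ((m + 3) * xi t)) + e0 m * ta m := by
  have hL := LL_ge hm
  have hta := l53_ta_le hm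
  have hta0 : 0 < ta m := ta_pos (by omega)
  unfold Hm
  rw [intervalIntegral.integral_add, intervalIntegral.integral_const_mul]
  · congr 2
    rw [intervalIntegral.integral_of_le (by linarith), ind_eq, setIntegral_indicator measurableSet_Ioo]
    have e : Ioc (0 : ℝ) (LL m) ∩ Ioo (-1) (ta m) = Ioo 0 (ta m) := by
      ext x
      simp only [mem_inter_iff, mem_Ioc, mem_Ioo]
      constructor
      · rintro ⟨⟨h1, h2⟩, h3, h4⟩; exact ⟨h1, h4⟩
      · rintro ⟨h1, h2⟩; exact ⟨⟨h1, by linarith⟩, by linarith, h2⟩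
    rw [e, setIntegral_const, smul_eq_mul, mul_one, Measure.real, Real.volume_Ioo, sub_zero,
      ENNReal.toReal_ofReal hta0.le]
  · apply Continuous.intervalIntegrable
    exact continuous_Phi.comp (continuous_const.mul continuous_xi)
  · have hb := bm_int (ν := volume.restrict (Ioc (0 : ℝ) (LL m))) (bm_cmul (e0 m) (bm_ind (-1) (ta m))) univ
    rw [intervalIntegrable_iff_integrableOn_Ioc_of_le (by linarith)]
    simpa [IntegrableOn] using hb

private theorem l53_sqrt {m : ℕ} (hm : 20000000 < m) : 4472 ≤ √((m : ℝ) - 1) := by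
  apply Real.le_sqrt_of_sq_le
  have : (20000001 : ℝ) ≤ m := by exact_mod_cast hm
  norm_num
  linarith

private theorem l53_LL_big {m : ℕ} (hm : 20000000 < m) : 9998 / 10000 ≤ LL m := by
  have h := l53_sqrt hm
  have h2 : 17 / 20 / √((m : ℝ) - 1) ≤ 17 / 20 / 4472 := by
    apply div_le_div_of_nonneg_left (by norm_num) (by norm_num) h
  unfold LL
  linarith [show (17 : ℝ) / 20 / 4472 ≤ 2 / 10000 by norm_num]

/-- coefficient of the tube term -/
private noncomputable def l53_c1 (m : ℕ) : ℝ := if m ≤ 20000000 then 0 else 151 / 100 / m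

private theorem l53_tube {ν : Measure ℝ} {a b m : ℕ} (hm4 : 4000 ≤ m) (hν : CR ν a b)
    (ha : (a : ℝ) ≤ m - 1) (hb : (m : ℝ) + 1 ≤ b) :
    tn m * mu ν (m - cc m) (m + cc m) ≤ l53_c1 m * mu ν (m - LL m) (m + LL m) := by
  have := hν.fin
  have := hν.noat
  by_cases h : m ≤ 20000000
  · rw [l53_c1, if_pos h, tn, if_pos (ver_small (by omega) h)]
    simp
  have hL := l53_LL_big (not_le.1 h)
  have hL1 := LL_lt hm4
  have hmR : (20000001 : ℝ) ≤ m := by exact_mod_cast (not_le.1 h)
  have hc0 : 0 < cc m := by unfold cc; positivity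
  have hc : cc m ≤ 1 / 10000000 := by
    unfold cc
    rw [div_le_iff₀ (by linarith)]
    linarith
  have h4 := cr_four (w1 := m - LL m) (x := m - cc m) (y := m + cc m) (w2 := m + LL m) hν (by linarith)
    (by linarith) (by linarith) (by linarith) (by linarith)
  have hB := mu_nonneg ν (m - LL m) (m + LL m)
  have htn : tn m ≤ 1 := by unfold tn; split_ifs <;> norm_num
  have htn0 : 0 ≤ tn m := by unfold tn; split_ifs <;> norm_num
  have hmu := mu_nonneg ν (m - cc m) (m + cc m)
  have h5 : tn m * mu ν (m - cc m) (m + cc m) ≤ mu ν (m - cc m) (m + cc m) := by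
    nlinarith
  refine h5.trans (h4.trans ?_)
  apply mul_le_mul_of_nonneg_right _ hB
  rw [l53_c1, if_neg h]
  have e1 : ((m : ℝ) + cc m - (m - cc m)) * (m + LL m - (m - LL m)) = 4 * (cc m * LL m) := by ring
  have e2 : ((m : ℝ) - cc m - (m - LL m)) * (m + LL m - (m + cc m)) = (LL m - cc m) ^ 2 := by ring
  rw [e1, e2, mul_div_mul_left _ _ (by norm_num : (4 : ℝ) ≠ 0), div_le_iff₀ (by
    have : 0 < LL m - cc m := by linarith
    positivity)]
  have h6 : (9995 : ℝ) / 10000 * 1 ≤ (LL m - cc m) ^ 2 * 1 := by nlinarith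
  have h7 : cc m * LL m ≤ cc m := by nlinarith
  have h8 : cc m = 150 / 100 / m := by unfold cc; norm_num
  have h9 : (0 : ℝ) < 1 / m := by positivity
  have h10 : (151 : ℝ) / 100 / m = 151 / 100 * (1 / m) := by ring
  have h11 : (150 : ℝ) / 100 / m = 150 / 100 * (1 / m) := by ring
  have h12 : 151 / 100 * (1 / (m : ℝ)) * (9995 / 10000) ≤ 151 / 100 * (1 / (m : ℝ)) * (LL m - cc m) ^ 2 :=
    mul_le_mul_of_nonneg_left (by linarith) (by positivity)
  have h13 : cc m = 150 / 100 * (1 / (m : ℝ)) := by rw [h8, h11]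
  rw [h10]
  refine h7.trans (le_trans ?_ h12)
  rw [h13]
  linarith

private theorem l53_inner {ν : Measure ℝ} {a b k m : ℕ} (ha : 1 ≤ a) (hk : k % 2 = 0) (hm : m = k + 1) (hm4 : 4000 ≤ m)
    (hak : a ≤ k) (hkb : k + 2 ≤ b) (hν : CR ν a b) :
    itg ν (fun x => Nx x - phi a b x) (m - LL m) (m + LL m) ≤
      (l53_c1 m - qm m) * mu ν (m - LL m) (m + LL m) + 23 / 1250 * mu ν m (m + al m) := by
  have := hν.fin
  have := hν.noat
  have hL := LL_ge hm4
  have hL1 := LL_lt hm4
  have haR : (a : ℝ) ≤ m - 1 := by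
    have : (a : ℝ) ≤ k := by exact_mod_cast hak
    have h2 : (m : ℝ) = k + 1 := by rw [hm]; push_cast; ring
    linarith
  have hbR : (m : ℝ) + 1 ≤ b := by
    have : ((k + 2 : ℕ) : ℝ) ≤ b := by exact_mod_cast hkb
    have h2 : (m : ℝ) = k + 1 := by rw [hm]; push_cast; ring
    push_cast at this
    linarith
  have hze : ze m ≤ 1 - LL m := by rw [l53_gap]; exact ze_le_gap hm4 (by omega)
  have hze0 : 0 < ze m := ze_pos (by omega)
  have hcz : cc m ≤ ze m := cc_le_ze (by omega)
  have hcc0 : 0 < cc m := by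
    unfold cc
    have : (0 : ℝ) < m := by exact_mod_cast (by omega : 0 < m)
    positivity
  have hF : BM (fun x => Nx x - phi a b x) := bm_sub bm_nx (bm_phi a b)
  have hH : BM (fun x => Hm m |x - m|) := bm_comp (hm_bm m) (by fun_prop)
  have hG1 : BM (fun x => Hm m |x - m| - Phi m) := bm_sub hH (bm_const _)
  have hI1 : BM (fun x => (1 / 16000 - Phi (9 / 4 * m)) * ind (m - ze m) (m + ze m) x) := bm_cmul _ (bm_ind _ _)
  have hI2 : BM (fun x => tn m * ind (m - cc m) (m + cc m) x) := bm_cmul _ (bm_ind _ _)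
  have hG2 := bm_add hG1 hI1
  have hG3 := bm_add hG2 hI2
  have h1 := itg_mono (ν := ν) hF hG3 (x := m - LL m) (y := m + LL m) (fun x hx => by
    apply l53i ha hk hm hm4 hak hkb
    rw [abs_lt]
    constructor <;> linarith [hx.1, hx.2])
  rw [itg_add hG2 hI2, itg_add hG1 hI1, itg_sub hH (bm_const _), itg_const, itg_cmul, itg_cmul,
    itg_ind (by linarith) (by linarith), itg_ind (by linarith) (by linarith)] at h1
  have h2 := cr_layer (c := m) (L := LL m) hν (by linarith) (by linarith) (by linarith)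
    (hm_anti hm4 hL1.le) (fun t _ => hm_nonneg hm4 t) (hm_bm m)
  have hB := mu_nonneg ν (m - LL m) (m + LL m)
  have h3 : 1 / LL m * (∫ t in (0 : ℝ)..(LL m), Hm m t) ≤ Phi m - qm m := by
    rw [hm_int hm4]
    have h := E54 hm4
    have e : 1 / LL m * ((∫ t in (0 : ℝ)..(LL m), Phi ((m + 3) * xi t)) + e0 m * ta m) =
        (1 / LL m) * (∫ t in (0 : ℝ)..(LL m), Phi ((m + 3) * xi t)) +
        (Phi (9 / 4 * m + 3) - Phi (149 / 100 * m)) * (ta m / LL m) := by
      unfold e0; ring
    rw [e]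
    unfold qm
    linarith
  have h4 := mul_le_mul_of_nonneg_right h3 hB
  have h5 := cr_right (n := m) (al := al m) (r := ze m) hν haR hbR (al_pos m) (al_le_ze (by omega)) (ze_lt_one (by omega))
  have hP : 0 ≤ 1 / 16000 - Phi (9 / 4 * m) := by linarith [Phi_lt (9 / 4 * (m : ℝ))]
  have h6 := mul_le_mul_of_nonneg_left h5 hP
  have h7 := mul_le_mul_of_nonneg_right (E55 hm4) (mu_nonneg ν m (m + al m))
  have h8 := l53_tube hm4 hν haR hbR
  have e7 : (1 / 16000 - Phi (9 / 4 * m)) * (2 * ze m / (al m * (1 - ze m)) * mu ν m (m + al m)) =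
    (1 / 16000 - Phi (9 / 4 * m)) * (2 * ze m / (al m * (1 - ze m))) * mu ν m (m + al m) := by ring
  rw [e7] at h6
  rw [sub_mul] at h4
  rw [sub_mul]
  linarith [h1, h2, h4, h6, h7, h8]

private theorem l53_wn_le {m n : ℕ} (hn : 1 ≤ n) (h : 20000000 < n → 20000000 < m ∧ m ≤ n + 1) : wn n ≤ om m := by
  unfold wn om
  by_cases hv : VerS n
  · rw [if_pos hv]
    split_ifs <;> positivity
  · have h1 := big_of_not_ver hn hv
    obtain ⟨h2, h3⟩ := h h1
    rw [if_neg hv, if_neg (by omega)]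
    have h1R : (20000000 : ℝ) < n := by exact_mod_cast h1
    have h2R : (20000000 : ℝ) < m := by exact_mod_cast h2
    have h3R : (m : ℝ) ≤ n + 1 := by exact_mod_cast h3
    rw [div_le_div_iff₀ (by linarith) (by linarith)]
    nlinarith

theorem l53 {ν : Measure ℝ} {a b k m : ℕ} (ha : 1 ≤ a) (hk : k % 2 = 0) (hm : m = k + 1) (hm4 : 4000 ≤ m)
    (hak : a ≤ k) (hkb : k + 2 ≤ b) (hν : CR ν a b) :
    itg ν (fun x => Nx x - phi a b x) k (k + 2) ≤ 23 / 1250 * mu ν m (m + al m) +
      (if a < k then Gr ν k else 0) + (if k + 2 < b then Gl ν (k + 2) else 0) := by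
  have := hν.fin
  have := hν.noat
  have hL := LL_ge hm4
  have hL1 := LL_lt hm4
  have hmk : (m : ℝ) = k + 1 := by rw [hm]; push_cast; ring
  have hF : BM (fun x => Nx x - phi a b x) := bm_sub bm_nx (bm_phi a b)
  have hin := l53_inner ha hk hm hm4 hak hkb hν
  -- left outer part
  have hzk : ze k ≤ 1 - LL m := by rw [l53_gap]; exact ze_le_gap hm4 (by omega)
  have hck : cc k ≤ ze k := cc_le_ze (by omega)
  have hzk0 : 0 < ze k := ze_pos (by omega)
  have hzk2 : ze (k + 2) ≤ 1 - LL m := by rw [l53_gap]; exact ze_le_gap hm4 (by omega)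
  have hck2 : cc (k + 2) ≤ ze (k + 2) := cc_le_ze (by omega)
  have hzk20 : 0 < ze (k + 2) := ze_pos (by omega)
  set A := mu ν k (m - LL m) with hA
  set B := mu ν (m - LL m) (m + LL m) with hB
  set C := mu ν (m + LL m) (k + 2) with hC
  have hA0 : 0 ≤ A := mu_nonneg _ _ _
  have hB0 : 0 ≤ B := mu_nonneg _ _ _
  have hC0 : 0 ≤ C := mu_nonneg _ _ _
  have hleft : itg ν (fun x => Nx x - phi a b x) k (m - LL m) ≤
      if a < k then en k * mu ν k (k + ze k) + tn k * mu ν k (k + cc k) - om m * A else 0 := by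
    split_ifs with h
    · have hI1 : BM (fun x => en k * ind k (k + ze k) x) := bm_cmul _ (bm_ind _ _)
      have hI2 : BM (fun x => tn k * ind k (k + cc k) x) := bm_cmul _ (bm_ind _ _)
      have hI3 := bm_add hI1 hI2
      have hI4 := bm_sub hI3 (bm_const (om m))
      have h1 := itg_mono (ν := ν) hF hI4 (x := k) (y := m - LL m) (fun x hx => by
        have := l53o_left ha hk hm hm4 hak hkb hx.1 hx.2.le
        rw [if_pos h] at this
        exact this)
      rw [itg_sub hI3 (bm_const _), itg_add hI1 hI2, itg_const, itg_cmul, itg_cmul,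
        itg_ind le_rfl (by linarith), itg_ind le_rfl (by linarith)] at h1
      exact h1
    · have h1 := itg_mono (ν := ν) hF (bm_const 0) (x := k) (y := m - LL m) (fun x hx => by
        have := l53o_left ha hk hm hm4 hak hkb hx.1 hx.2.le
        rw [if_neg h] at this
        exact this)
      rw [itg_const, zero_mul] at h1
      exact h1
  have hright : itg ν (fun x => Nx x - phi a b x) (m + LL m) (k + 2) ≤
      if k + 2 < b then en (k + 2) * mu ν (k + 2 - ze (k + 2)) (k + 2) +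
        tn (k + 2) * mu ν (k + 2 - cc (k + 2)) (k + 2) - om m * C else 0 := by
    split_ifs with h
    · have hI1 : BM (fun x => en (k + 2) * ind (k + 2 - ze (k + 2)) (k + 2) x) := bm_cmul _ (bm_ind _ _)
      have hI2 : BM (fun x => tn (k + 2) * ind (k + 2 - cc (k + 2)) (k + 2) x) := bm_cmul _ (bm_ind _ _)
      have hI3 := bm_add hI1 hI2
      have hI4 := bm_sub hI3 (bm_const (om m))
      have h1 := itg_mono (ν := ν) hF hI4 (x := m + LL m) (y := k + 2) (fun x hx => by
        have := l53o_right ha hk hm hm4 hak hkb hx.1.le hx.2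
        rw [if_pos h] at this
        exact this)
      rw [itg_sub hI3 (bm_const _), itg_add hI1 hI2, itg_const, itg_cmul, itg_cmul,
        itg_ind (by linarith) le_rfl, itg_ind (by linarith) le_rfl] at h1
      exact h1
    · have h1 := itg_mono (ν := ν) hF (bm_const 0) (x := m + LL m) (y := k + 2) (fun x hx => by
        have := l53o_right ha hk hm hm4 hak hkb hx.1.le hx.2
        rw [if_neg h] at this
        exact this)
      rw [itg_const, zero_mul] at h1
      exact h1
  have hsplit : itg ν (fun x => Nx x - phi a b x) k (k + 2) =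
      itg ν (fun x => Nx x - phi a b x) k (m - LL m) + (itg ν (fun x => Nx x - phi a b x) (m - LL m) (m + LL m) +
      itg ν (fun x => Nx x - phi a b x) (m + LL m) (k + 2)) := by
    rw [← itg_split hF (by linarith) (by linarith), ← itg_split hF (by linarith) (by linarith)]
  -- the pieces of the middle
  set A' := mu ν (m - LL m) (k + 1 / 2) with hA'
  set C' := mu ν (k + 3 / 2) (m + LL m) with hC'
  have hA'0 : 0 ≤ A' := mu_nonneg _ _ _
  have hC'0 : 0 ≤ C' := mu_nonneg _ _ _
  have hAA : mu ν k (k + 1 / 2) = A + A' := mu_add (by linarith) (by linarith)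
  have hCC : mu ν (k + 3 / 2) (k + 2) = C' + C := mu_add (by linarith) (by linarith)
  have hBB : A' + C' ≤ B := by
    have h1 : B = A' + mu ν (k + 1 / 2) (m + LL m) := mu_add (by linarith) (by linarith)
    have h2 : mu ν (k + 1 / 2) (m + LL m) = mu ν (k + 1 / 2) (k + 3 / 2) + C' :=
      mu_add (by linarith) (by linarith)
    have h3 := mu_nonneg ν ((k : ℝ) + 1 / 2) (k + 3 / 2)
    linarith
  have hom0 : 0 ≤ om m := by unfold om; split_ifs <;> positivity
  have hw1 : wn k ≤ om m := l53_wn_le (by omega) (fun h => ⟨by omega, by omega⟩)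
  have hw2 : wn (k + 2) ≤ om m := l53_wn_le (by omega) (fun h => ⟨by omega, by omega⟩)
  have hcoef : om m + l53_c1 m ≤ qm m := by
    unfold om l53_c1 qm
    split_ifs
    · norm_num
    · apply le_of_eq; ring
  have hk1 : wn k * (A + A') ≤ om m * (A + A') := mul_le_mul_of_nonneg_right hw1 (add_nonneg hA0 hA'0)
  have hk2 : wn (k + 2) * (C' + C) ≤ om m * (C' + C) := mul_le_mul_of_nonneg_right hw2 (add_nonneg hC'0 hC0)
  have hk3 : 0 ≤ om m * A' := mul_nonneg hom0 hA'0
  have hk4 : 0 ≤ om m * C' := mul_nonneg hom0 hC'0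
  rw [mul_add (om m)] at hk1 hk2
  have hGr : (if a < k then en k * mu ν k (k + ze k) + tn k * mu ν k (k + cc k) - om m * A else 0) ≤
      (if a < k then Gr ν k else 0) + om m * A' := by
    split_ifs
    · unfold Gr
      rw [hAA]
      linarith
    · linarith
  have hGl : (if k + 2 < b then en (k + 2) * mu ν (k + 2 - ze (k + 2)) (k + 2) +
        tn (k + 2) * mu ν (k + 2 - cc (k + 2)) (k + 2) - om m * C else 0) ≤
      (if k + 2 < b then Gl ν (k + 2) else 0) + om m * C' := by
    split_ifs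
    · unfold Gl
      have e : ((k + 2 : ℕ) : ℝ) - 1 / 2 = k + 3 / 2 := by push_cast; ring
      rw [e]
      push_cast
      rw [hCC]
      linarith
    · linarith
  have h10 : om m * (A' + C') ≤ om m * B := mul_le_mul_of_nonneg_left hBB hom0
  have h11 : (om m + l53_c1 m) * B ≤ qm m * B := mul_le_mul_of_nonneg_right hcoef hB0
  rw [hsplit]
  rw [mul_add (om m)] at h10
  rw [add_mul] at h11
  rw [sub_mul] at hin
  linarith [hin, hleft, hright, hGr, hGl, h10, h11]

end Pool.Agent.Lib.MP_a247fa_nt.V
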