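import Pool.Agent.Lib.MP_a247fa_nt.V.Defs

/-! MUBASIC. Elementary facts on `mu`, `itg`, `ind`, `BM`. -/

set_option autoImplicit false

namespace Pool.Agent.Lib.MP_a247fa_nt.V

open Set MeasureTheory

theorem mu_nonneg (ν : Measure ℝ) (x y : ℝ) : 0 ≤ mu ν x y := ENNReal.toReal_nonneg

theorem mu_self (ν : Measure ℝ) (x : ℝ) : mu ν x x = 0 := by simp [mu]

theorem mu_mono {ν : Measure ℝ} [IsFiniteMeasure ν] {x y x' y' : ℝ} (h1 : x' ≤ x) (h2 : y ≤ y') :
    mu ν x y ≤ mu ν x' y' :=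
  ENNReal.toReal_mono (measure_ne_top _ _) (measure_mono (Ioo_subset_Ioo h1 h2))

theorem mu_add {ν : Measure ℝ} [IsFiniteMeasure ν] [NullSingletonClass ν] {x y z : ℝ} (h1 : x ≤ y) (h2 : y ≤ z) :
    mu ν x z = mu ν x y + mu ν y z := by
  rcases eq_or_lt_of_le h1 with rfl | h1
  · simp [mu_self]
  rcases eq_or_lt_of_le h2 with rfl | h2
  · simp [mu_self]
  have e : Ioo x z = Ioo x y ∪ Ico y z := (Ioo_union_Ico_eq_Ioo h1 h2.le).symm
  rw [mu, e, measure_union (by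
    rw [Set.disjoint_left]; intro t ht ht2; exact absurd ht.2 (not_lt.2 ht2.1)) measurableSet_Ico,
    ENNReal.toReal_add (measure_ne_top _ _) (measure_ne_top _ _),
    measure_congr (Ioo_ae_eq_Ico (μ := ν) (a := y) (b := z)).symm]
  rfl

theorem ind_nonneg (c d x : ℝ) : 0 ≤ ind c d x := by unfold ind; split_ifs <;> norm_num

theorem ind_le_one (c d x : ℝ) : ind c d x ≤ 1 := by unfold ind; split_ifs <;> norm_num

theorem ind_of_mem {c d x : ℝ} (h1 : c < x) (h2 : x < d) : ind c d x = 1 := by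
  rw [ind, if_pos ⟨h1, h2⟩]

theorem ind_of_le {c d x : ℝ} (h : x ≤ c) : ind c d x = 0 := by
  rw [ind, if_neg (fun h2 => absurd h2.1 (not_lt.2 h))]

theorem ind_of_ge {c d x : ℝ} (h : d ≤ x) : ind c d x = 0 := by
  rw [ind, if_neg (fun h2 => absurd h2.2 (not_lt.2 h))]

theorem ind_eq (c d : ℝ) : ind c d = (Ioo c d).indicator (fun _ => (1 : ℝ)) := by
  ext x
  by_cases h : x ∈ Ioo c d
  · rw [indicator_of_mem h, ind, if_pos (show c < x ∧ x < d from h)]
  · rw [indicator_of_notMem h, ind, if_neg (show ¬ (c < x ∧ x < d) from h)]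

theorem bm_const (c : ℝ) : BM (fun _ => c) := ⟨measurable_const, |c|, fun _ => le_rfl⟩

theorem bm_ind (c d : ℝ) : BM (ind c d) := by
  refine ⟨?_, 1, fun x => ?_⟩
  · rw [ind_eq]; exact measurable_const.indicator measurableSet_Ioo
  · rw [abs_of_nonneg (ind_nonneg _ _ _)]; exact ind_le_one _ _ _

theorem bm_add {F G : ℝ → ℝ} (hF : BM F) (hG : BM G) : BM (fun x => F x + G x) := by
  obtain ⟨h1, C, h2⟩ := hF
  obtain ⟨h3, C', h4⟩ := hG
  exact ⟨h1.add h3, C + C', fun x => (abs_add_le _ _).trans (add_le_add (h2 x) (h4 x))⟩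

theorem bm_cmul (c : ℝ) {F : ℝ → ℝ} (hF : BM F) : BM (fun x => c * F x) := by
  obtain ⟨h1, C, h2⟩ := hF
  refine ⟨h1.const_mul c, |c| * C, fun x => ?_⟩
  rw [abs_mul]
  exact mul_le_mul_of_nonneg_left (h2 x) (abs_nonneg c)

theorem bm_sub {F G : ℝ → ℝ} (hF : BM F) (hG : BM G) : BM (fun x => F x - G x) := by
  obtain ⟨h1, C, h2⟩ := hF
  obtain ⟨h3, C', h4⟩ := hG
  exact ⟨h1.sub h3, C + C', fun x => (abs_sub _ _).trans (add_le_add (h2 x) (h4 x))⟩

theorem bm_comp {F g : ℝ → ℝ} (hF : BM F) (hg : Measurable g) : BM (fun x => F (g x)) := by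
  obtain ⟨h1, C, h2⟩ := hF
  exact ⟨h1.comp hg, C, fun x => h2 _⟩

theorem bm_int {ν : Measure ℝ} [IsFiniteMeasure ν] {F : ℝ → ℝ} (hF : BM F) (s : Set ℝ) :
    IntegrableOn F s ν := by
  obtain ⟨h1, C, h2⟩ := hF
  exact Measure.integrableOn_of_bounded (M := C) (measure_ne_top _ _) h1.aestronglyMeasurable
    (Filter.Eventually.of_forall fun x => by rw [Real.norm_eq_abs]; exact h2 x)

theorem itg_mono {ν : Measure ℝ} [IsFiniteMeasure ν] {F G : ℝ → ℝ} (hF : BM F) (hG : BM G) {x y : ℝ}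
    (h : ∀ t ∈ Ioo x y, F t ≤ G t) : itg ν F x y ≤ itg ν G x y :=
  setIntegral_mono_on (bm_int hF _) (bm_int hG _) measurableSet_Ioo h

theorem itg_add {ν : Measure ℝ} [IsFiniteMeasure ν] {F G : ℝ → ℝ} (hF : BM F) (hG : BM G) (x y : ℝ) :
    itg ν (fun t => F t + G t) x y = itg ν F x y + itg ν G x y :=
  integral_add (bm_int hF _) (bm_int hG _)

theorem itg_sub {ν : Measure ℝ} [IsFiniteMeasure ν] {F G : ℝ → ℝ} (hF : BM F) (hG : BM G) (x y : ℝ) :
    itg ν (fun t => F t - G t) x y = itg ν F x y - itg ν G x y :=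
  integral_sub (bm_int hF _) (bm_int hG _)

theorem itg_cmul {ν : Measure ℝ} (c : ℝ) (F : ℝ → ℝ) (x y : ℝ) :
    itg ν (fun t => c * F t) x y = c * itg ν F x y := integral_const_mul c _

theorem itg_const {ν : Measure ℝ} [IsFiniteMeasure ν] (c x y : ℝ) :
    itg ν (fun _ => c) x y = c * mu ν x y := by
  rw [itg, setIntegral_const, smul_eq_mul, mul_comm]
  rfl

theorem itg_nonneg {ν : Measure ℝ} {F : ℝ → ℝ} {x y : ℝ} (h : ∀ t ∈ Ioo x y, 0 ≤ F t) : 0 ≤ itg ν F x y :=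
  setIntegral_nonneg measurableSet_Ioo h

theorem itg_ind {ν : Measure ℝ} [IsFiniteMeasure ν] {c d x y : ℝ} (h1 : x ≤ c) (h2 : d ≤ y) :
    itg ν (ind c d) x y = mu ν c d := by
  rw [itg, ind_eq, setIntegral_indicator measurableSet_Ioo,
    inter_eq_self_of_subset_right (Ioo_subset_Ioo h1 h2), setIntegral_const, smul_eq_mul, mul_one]
  rfl

theorem itg_split {ν : Measure ℝ} [IsFiniteMeasure ν] [NullSingletonClass ν] {F : ℝ → ℝ} (hF : BM F) {x y z : ℝ}
    (h1 : x ≤ y) (h2 : y ≤ z) : itg ν F x z = itg ν F x y + itg ν F y z := by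
  rcases eq_or_lt_of_le h1 with rfl | h1
  · simp [itg]
  rcases eq_or_lt_of_le h2 with rfl | h2
  · simp [itg]
  have e : Ioo x z = Ioo x y ∪ Ico y z := (Ioo_union_Ico_eq_Ioo h1 h2.le).symm
  rw [itg, e, setIntegral_union (by
    rw [Set.disjoint_left]; intro t ht ht2; exact absurd ht.2 (not_lt.2 ht2.1)) measurableSet_Ico
    (bm_int hF _) (bm_int hF _), setIntegral_congr_set Ioo_ae_eq_Ico.symm]
  rfl

end Pool.Agent.Lib.MP_a247fa_nt.V
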