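import Pool.Agent.Lib.MP_a247fa_nt.V.PP
import Pool.Agent.Lib.MP_a247fa_nt.V.LDefs
import Pool.Agent.Lib.MP_a247fa_nt.V.MuBasic

/-! L53I (50 min). Paper (5.3), large windows (`m ≥ 4000`), POINTWISE, inner part `t = |x - m| < L = LL m` (`= 1 - ta k`), `m = k+1` odd, window `(k, k+2)` inside `(a, b)`.

`phi a b x ≥ Phi m` (values `1`, `1/16000` or `Phi m`; half pieces do not occur, see S53p).
 `t > 1/2`: nearest `n = k` or `k+2`, `s = 1 - t > 1 - LL m ≥ ta n` (`ta_le_gap`): G2 (`n ≥ 9`): P3: `Nx ≤ Phi (cf x + 1) ≤ Phi ((m+3) xi t) ≤ Hm m t` (`cf_add_one_le`; `e0 ≥ 0`).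
 `t ≤ 1/2`, `n = m`: `t ≥ ta m`: G2, P3: same. `ze m ≤ t < ta m`: P2: `Nx ≤ Phi (max (cf x + 1) (9/4 m + 7/4))`; `cf x + 1 ≤ (m+3) xi t`; and `Phi (9/4 m + 3) = e0 + Phi (149/100 m) ≤ e0 + Phi ((m+3) xi t) = Hm m t` because
   `xi t = 1 + cos(πt)/2 ≥ 3/2 - (5/2) t²` (`1 - cos y ≤ y²/2`, `π² ≤ 10`) and `t² < .7225/m`: `(m+3)(3/2 - 1.81/m) ≥ 1.49 m`.
 `t < ze m` (`≤ ta m` for `m ≥ 32`): P1: `Nx ≤ 1/16000 + tn m · ind (m - cc m) (m + cc m) x`, and `1/16000 ≤ Hm m t + (1/16000 - Phi (9/4 m))` since `Hm m t ≥ Phi (9/4 m + 3) ≥ Phi (9/4 m)`.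
 The terms `(1/16000 - Phi ..) · ind` and `tn · ind` are `≥ 0`. -/

set_option autoImplicit false

namespace Pool.Agent.Lib.MP_a247fa_nt.V

open Set MeasureTheory
open Pool.Agent.Lib.MP_a247fa_nt.W

private theorem phi_ge {a b k m : ℕ} (hk : k % 2 = 0) (hm : m = k + 1)
    (hak : a ≤ k) (hkb : k + 2 ≤ b) {x : ℝ} (h1 : (k : ℝ) < x) (h2 : x < k + 2) :
    Phi m ≤ phi a b x := by
  have hlt := Phi_lt (m : ℝ)
  have hakr : (a : ℝ) ≤ k := by exact_mod_cast hak
  unfold phi
  split_ifs with c1 c2 c3 c4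
  · linarith
  · exact hlt.le
  · exfalso
    have h3 : a + 1 ≤ k := by omega
    have h4 : (a : ℝ) + 1 ≤ k := by exact_mod_cast h3
    linarith [c3.2]
  · exfalso
    have h3 : k + 3 ≤ b := by omega
    have h4 : (k : ℝ) + 3 ≤ b := by exact_mod_cast h3
    linarith [c4.2]
  · have h3 : ⌊x / 2⌋₊ = k / 2 := by
      have hk0 : (0 : ℝ) ≤ k := Nat.cast_nonneg k
      have e : ((k / 2 : ℕ) : ℝ) = (k : ℝ) / 2 := by
        rw [Nat.cast_div (by omega) (by norm_num)]
        norm_num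
      rw [Nat.floor_eq_iff (by linarith), e]
      constructor
      · linarith
      · linarith
    rw [h3]
    apply le_of_eq
    congr 1
    have e : ((k / 2 : ℕ) : ℝ) = (k : ℝ) / 2 := by
      rw [Nat.cast_div (by omega) (by norm_num)]
      norm_num
    rw [e, hm]
    push_cast
    ring

private theorem nx_one (x : ℝ) : Nx x ≤ 1 := by
  have hp : ∀ (a b : ℕ) (y : ℝ), phi a b y ≤ 1 := by
    intro a b y
    unfold phi
    split_ifs
    · exact le_rfl
    · norm_num
    · linarith [Phi_lt (3 / 2 * (a : ℝ) + 1)]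
    · linarith [Phi_lt (3 / 2 * (b : ℝ) + 1)]
    · linarith [Phi_lt (2 * (⌊y / 2⌋₊ : ℝ) + 1)]
  unfold Nx
  split_ifs
  · exact le_rfl
  · norm_num
  · norm_num
  · exact hp _ _ _

private theorem e0_nonneg (m : ℕ) : 0 ≤ e0 m := by
  have h0 : (0 : ℝ) ≤ m := Nat.cast_nonneg m
  have := Phi_mono (x := 149 / 100 * (m : ℝ)) (y := 9 / 4 * m + 3) (by linarith)
  unfold e0
  linarith

private theorem hm_ge (m : ℕ) (t : ℝ) : Phi ((m + 3) * xi t) ≤ Hm m t := by
  have := mul_nonneg (e0_nonneg m) (ind_nonneg (-1) (ta m) t)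
  unfold Hm
  linarith

private theorem xi_big {m : ℕ} (hm4 : 4000 ≤ m) {t : ℝ} (h0 : 0 ≤ t) (ht : t < ta m) :
    149 / 100 * (m : ℝ) ≤ (m + 3) * xi t := by
  have hm : (4000 : ℝ) ≤ m := by exact_mod_cast hm4
  have h1 : hs t ≤ 987 / 400 * t ^ 2 := hs_le t
  have h2 : t ^ 2 ≤ 289 / 400 / m := by
    have h3 : t ^ 2 ≤ (ta m) ^ 2 := pow_le_pow_left₀ h0 ht.le 2
    have h4 : (ta m) ^ 2 = 289 / 400 / m := by
      unfold ta
      rw [div_pow, Real.sq_sqrt (by linarith)]
      norm_num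
    rw [h4] at h3
    exact h3
  have h5 : (m : ℝ) * t ^ 2 ≤ 289 / 400 := by
    have := mul_le_mul_of_nonneg_left h2 (by linarith : (0 : ℝ) ≤ m)
    have e : (m : ℝ) * (289 / 400 / m) = 289 / 400 := by
      field_simp
    linarith
  have h6 : t ^ 2 ≤ 1 := by
    have h7 : (289 / 400 : ℝ) / m ≤ 1 := by
      rw [div_le_one (by linarith)]
      linarith
    linarith
  rw [xi_hs]
  nlinarith

private theorem phi_max_le {m : ℕ} (hm4 : 4000 ≤ m) {x t : ℝ} (h0 : 0 ≤ t) (ht : t < ta m)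
    (hx : cf x + 1 ≤ (m + 3) * xi t) {B : ℝ} (hB : B ≤ 9 / 4 * m + 3) :
    Phi (max (cf x + 1) B) ≤ Hm m t := by
  have hi1 : ind (-1) (ta m) t = 1 := ind_of_mem (by linarith) ht
  have hH : Hm m t = Phi ((m + 3) * xi t) + (Phi (9 / 4 * m + 3) - Phi (149 / 100 * m)) := by
    unfold Hm e0
    rw [hi1, mul_one]
  rcases le_total (cf x + 1) B with h | h
  · rw [max_eq_right h, hH]
    have h1 := Phi_mono hB
    have h2 := Phi_mono (xi_big hm4 h0 ht)
    linarith
  · rw [max_eq_left h]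
    exact (Phi_mono hx).trans (hm_ge m t)

theorem l53i {a b k m : ℕ} (ha : 1 ≤ a) (hk : k % 2 = 0) (hm : m = k + 1) (hm4 : 4000 ≤ m)
    (hak : a ≤ k) (hkb : k + 2 ≤ b) {x : ℝ} (hx : |x - m| < LL m) :
    Nx x - phi a b x ≤ Hm m |x - m| - Phi m + (1 / 16000 - Phi (9 / 4 * m)) * ind (m - ze m) (m + ze m) x +
      tn m * ind (m - cc m) (m + cc m) x := by
  have hmr : (4000 : ℝ) ≤ m := by exact_mod_cast hm4
  have hmk : (m : ℝ) = k + 1 := by rw [hm]; push_cast; ring
  have hmo : m % 2 = 1 := by omega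
  have hL1 := LL_lt hm4
  have ht1 : |x - m| < 1 := hx.trans hL1
  have ht0 : 0 ≤ |x - m| := abs_nonneg _
  have hx2 := abs_lt.mp ht1
  have hphi : Phi m ≤ phi a b x := phi_ge hk hm hak hkb (by linarith [hx2.1]) (by linarith [hx2.2])
  have hZ0 : 0 ≤ 1 / 16000 - Phi (9 / 4 * m) := by linarith [Phi_lt (9 / 4 * (m : ℝ))]
  have hZ : 0 ≤ (1 / 16000 - Phi (9 / 4 * m)) * ind (m - ze m) (m + ze m) x :=
    mul_nonneg hZ0 (ind_nonneg _ _ _)
  have htn : 0 ≤ tn m := by
    unfold tn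
    split_ifs <;> norm_num
  have hW : 0 ≤ tn m * ind (m - cc m) (m + cc m) x := mul_nonneg htn (ind_nonneg _ _ _)
  have hH0 : Phi ((m + 3) * xi |x - m|) ≤ Hm m |x - m| := hm_ge m _
  have hHp : 0 ≤ Hm m |x - m| := (Phi_pos _).le.trans hH0
  have hcf : cf x + 1 ≤ (m + 3) * xi |x - m| := cf_add_one_le hmo ht1.le
  suffices hmain : Nx x ≤ Hm m |x - m| + (1 / 16000 - Phi (9 / 4 * m)) * ind (m - ze m) (m + ze m) x +
      tn m * ind (m - cc m) (m + cc m) x by linarith
  have good : Nx x ≤ Phi (cf x + 1) → Nx x ≤ Hm m |x - m| +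
      (1 / 16000 - Phi (9 / 4 * m)) * ind (m - ze m) (m + ze m) x +
      tn m * ind (m - cc m) (m + cc m) x := by
    intro h
    have h2 := Phi_mono hcf
    linarith
  have tube : ¬ VerS m → |x - m| < cc m → Nx x ≤ Hm m |x - m| +
      (1 / 16000 - Phi (9 / 4 * m)) * ind (m - ze m) (m + ze m) x +
      tn m * ind (m - cc m) (m + cc m) x := by
    intro h1 h2
    have h3 : tn m = 1 := by
      unfold tn
      rw [if_neg h1]
    have h4 := abs_lt.mp h2
    have h5 : ind (m - cc m) (m + cc m) x = 1 := ind_of_mem (by linarith [h4.1]) (by linarith [h4.2])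
    rw [h3, h5, one_mul]
    have := nx_one x
    linarith
  -- the case x = m
  by_cases hxm : x = m
  · by_cases hv : VerS m
    · have hfl : ⌊(m : ℝ)⌋₊ = m := Nat.floor_natCast m
      have hcfm : ((T m : ℕ) : ℝ) ≤ cf (m : ℝ) := by
        have h3 := T_eq_odd hmo
        have h4 : ((T m : ℕ) : ℝ) = (3 * m + 1) / 2 := by rw [h3.1, h3.2.2.2]
        have h5 := cf_xi hmo (m : ℝ)
        have h6 : xi ((m : ℝ) - m) = 3 / 2 := by
          rw [sub_self]
          unfold xi
          rw [mul_zero, Real.cos_zero]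
          norm_num
        rw [h4, h5, h6]
        linarith
      have htr : Trp x := by
        rw [hxm]
        unfold Trp
        rw [hfl]
        exact ⟨hmo, hcfm⟩
      have h0 : Nx x = 0 := by
        unfold Nx
        rw [if_pos (Or.inl htr), if_neg]
        rintro ⟨_, h⟩
        rw [hxm, hfl] at h
        exact h hv
      rw [h0]
      linarith
    · apply tube hv
      rw [hxm, sub_self, abs_zero]
      unfold cc
      positivity
  · -- the unit of x
    obtain ⟨i, hi2, hxi, hmi, hside⟩ : ∃ i : ℕ, 2 ≤ i ∧ x ∈ Ioo (i : ℝ) (i + 1) ∧ (m = i ∨ m = i + 1) ∧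
        ((i = k ∧ |x - m| = m - x) ∨ (i = m ∧ |x - m| = x - m)) := by
      rcases lt_or_gt_of_ne hxm with h | h
      · refine ⟨k, by omega, ⟨by linarith [hx2.1], by linarith⟩, Or.inr hm, Or.inl ⟨rfl, ?_⟩⟩
        rw [abs_of_neg (by linarith)]
        ring
      · refine ⟨m, by omega, ⟨h, by linarith [hx2.2]⟩, Or.inl rfl, Or.inr ⟨rfl, ?_⟩⟩
        rw [abs_of_pos (by linarith)]
    rcases le_or_gt (|x - m|) (1 / 2) with hhalf | hhalf
    · -- nearest integer m
      rcases le_or_gt (ta m) (|x - m|) with hta | hta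
      · exact good (P3 hi2 hxi hmi hhalf (G2 (by omega) hta hhalf))
      · rcases le_or_gt (ze m) (|x - m|) with hze | hze
        · have h1 := P2 hi2 hxi hmi hhalf (Or.inl hze)
          have h2 : 3 / 2 * ((T m : ℕ) : ℝ) + 1 ≤ 9 / 4 * m + 3 := by
            have h3 := T_eq_odd hmo
            have h4 : ((T m : ℕ) : ℝ) = (3 * m + 1) / 2 := by rw [h3.1, h3.2.2.2]
            rw [h4]
            linarith
          have h3 := phi_max_le hm4 ht0 hta hcf h2
          linarith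
        · rcases P1 hi2 hxi hmi hhalf with h1 | ⟨h1, h2⟩
          · have h4 := abs_lt.mp hze
            have h5 : ind (m - ze m) (m + ze m) x = 1 :=
              ind_of_mem (by linarith [h4.1]) (by linarith [h4.2])
            have h6 : Phi (9 / 4 * m + 3) ≤ Hm m |x - m| :=
              (Phi_mono (le_max_right (cf x + 1) _)).trans (phi_max_le hm4 ht0 hta hcf le_rfl)
            have h7 := Phi_mono (x := 9 / 4 * (m : ℝ)) (y := 9 / 4 * m + 3) (by linarith)
            rw [h5, mul_one]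
            linarith
          · exact tube h1 h2
    · -- nearest integer k or k + 2
      have hLL : LL m = 1 - 17 / 20 / √((m : ℝ) - 1) := rfl
      rcases hside with ⟨h1, h2⟩ | ⟨h1, h2⟩
      · subst h1
        have h3 : |x - i| = 1 - |x - m| := by
          rw [abs_of_pos (by linarith [hxi.1]), h2]
          linarith
        have h4 : ta i ≤ |x - i| := by
          have := ta_le_gap (n := i) hm4 (by omega)
          rw [h3]
          linarith
        have h5 : |x - i| ≤ 1 / 2 := by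
          rw [h3]
          linarith
        exact good (P3 hi2 hxi (Or.inl rfl) h5 (G2 (by omega) h4 h5))
      · subst h1
        have h3 : |x - ((i + 1 : ℕ) : ℝ)| = 1 - |x - i| := by
          rw [abs_of_neg (by push_cast; linarith [hxi.2]), h2]
          push_cast
          ring
        have h4 : ta (i + 1) ≤ |x - ((i + 1 : ℕ) : ℝ)| := by
          have := ta_le_gap (n := i + 1) hm4 (by omega)
          rw [h3]
          linarith
        have h5 : |x - ((i + 1 : ℕ) : ℝ)| ≤ 1 / 2 := by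
          rw [h3]
          linarith
        exact good (P3 hi2 hxi (Or.inr rfl) h5 (G2 (by omega) h4 h5))

end Pool.Agent.Lib.MP_a247fa_nt.V
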