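import Pool.Agent.Lib.MP_a247fa_nt.V.GG1
import Pool.Agent.Lib.MP_a247fa_nt.V.G0
import Pool.Agent.Lib.MP_a247fa_nt.V.PhiA
import Pool.Agent.Lib.MP_a247fa_nt.V.VerSmall
import Pool.Agent.Lib.MP_a247fa_nt.V.Branch

/-! PP (60 min). The pointwise lemmas P1, P2, P3 (paper section 4), `x` in the unit `(i, i+1)`, `i ≥ 2`, `n ∈ {i, i+1}` with `|x - n| ≤ 1/2`.

`ver_T`: `VerS m ↔ VerS (T m)` for `m ≥ 1` (if `T^[j] m = 1`, `j ≥ 1`: `T^[j-1] (T m) = 1`; `j = 0`: `m = 1`, `T 1 = 2`, `T 2 = 1`). `¬ VerS k`, `k ≥ 1` gives `k > 20000000` (`big_of_not_ver`), so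
`cc k ≤ zz k` (`cc_le_zz`), `cc k < 1`. `zz_le_one`. Ends: `T_eq_even`, `T_eq_odd` (G0): `{T i, T (i+1)} = {lo i, hi i}`.
Position: for uncaptured `x` (`exists_br`: `Trp x ↔ x ≤ p`, `Fld x ↔ q < x`, so `x ∈ (p, q]` and `cf x ∈ [lo i, hi i]`): `|cf x - T n| = D n x ≥ 0`, and by `G0_even_left ..` the distance of `cf x` to the OTHER end of `(lo i, hi i)` is `≥ 5/4`:
at that end neither the tube (`cc < 1`) nor the zone (`zz ≤ 1`) nor the half piece (distance `< 1`) applies.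
`trp_n`: `Trp x` implies `n = i`, `i` odd, `D i x ≤ 0`: `⌊x⌋₊ = i` odd, `cf x ≥ T i = hi i`; if `n = i+1` then `x ≥ i + 1/2` and `G0_odd_right` gives `cf x ≤ hi i - 5/4`, contradiction (`i ≥ 3`).
P1: captured: `Nx = 0`, or `Nx = 1` with `Trp x`, `¬ VerS i`, `n = i`, `D i x ≤ 0 < cc (T i)`, so `|x - i| < cc i` by G5. Uncaptured: `Nx = phi (lo i) (hi i) (cf x)`; if it is the first value `1`: only the tube of `T n` is possible: `¬ VerS (T n)`,
`D n x < cc (T n)`; so `¬ VerS n` and G5 gives `|x-n| < cc n`. Otherwise all values are `≤ 1/16000` (`Phi_lt`).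
P2: by G1/G3 `0 < zz (T n) ≤ D n x`, so `x` is not `Trp` (`trp_n`); if `Fld x` then `Nx = 0`; uncaptured: `cf x` is neither in a tube (`cc ≤ zz`) nor in a zone, so the value is the half-piece value of the end `T n` (odd): `Phi (3/2 T n + 1)`,
or `Phi (2⌊cf x/2⌋₊ + 1) ≤ Phi (cf x + 1)`. P3: `D n x ≥ 1 ≥ zz (T n)`, and the half piece needs distance `< 1`. -/

set_option autoImplicit false

namespace Pool.Agent.Lib.MP_a247fa_nt.V

open Set MeasureTheory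
open Pool.Agent.Lib.MP_a247fa_nt.W

theorem ver_one : VerS 1 := ⟨0, rfl⟩

theorem ver_two : VerS 2 := ⟨1, rfl⟩

theorem ver_T {m : ℕ} (hm : 1 ≤ m) : VerS (T m) ↔ VerS m := by
  constructor
  · rintro ⟨j, hj⟩
    exact ⟨j + 1, by rw [Function.iterate_succ_apply]; exact hj⟩
  · rintro ⟨j, hj⟩
    rcases j with _ | j
    · rw [Function.iterate_zero, id_eq] at hj
      rw [hj]
      exact ver_two
    · exact ⟨j, by rw [← Function.iterate_succ_apply]; exact hj⟩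

private theorem pp_floor {i : ℕ} {x : ℝ} (hx : x ∈ Ioo (i : ℝ) (i + 1)) : ⌊x⌋₊ = i := by
  rw [Nat.floor_eq_iff ((Nat.cast_nonneg i).trans hx.1.le)]
  exact ⟨hx.1.le, hx.2⟩

private theorem pp_half {i n : ℕ} {x : ℝ} (hn : n = i ∨ n = i + 1)
    (hs : |x - n| ≤ 1 / 2) : (n = i ∧ x ≤ i + 1 / 2) ∨ (n = i + 1 ∧ (i : ℝ) + 1 / 2 ≤ x) := by
  rw [abs_le] at hs
  rcases hn with rfl | rfl
  · exact Or.inl ⟨rfl, by linarith [hs.2]⟩
  · refine Or.inr ⟨rfl, ?_⟩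
    have := hs.1
    push_cast at this
    linarith

theorem trp_n {i n : ℕ} (hi2 : 2 ≤ i) {x : ℝ} (hx : x ∈ Ioo (i : ℝ) (i + 1)) (hn : n = i ∨ n = i + 1)
    (hs : |x - n| ≤ 1 / 2) (hT : Trp x) : n = i ∧ i % 2 = 1 ∧ D n x ≤ 0 := by
  obtain ⟨h1, h2⟩ := hT
  rw [pp_floor hx] at h1 h2
  have h3 := T_eq_odd h1
  have h4 : ((T i : ℕ) : ℝ) = (3 * i + 1) / 2 := by rw [h3.1, h3.2.2.2]
  rcases pp_half hn hs with ⟨h5, h6⟩ | ⟨h5, h6⟩
  · refine ⟨h5, h1, ?_⟩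
    rw [h5, D, if_neg (by omega)]
    linarith
  · exfalso
    have h7 := G0_odd_right h1 (by omega) h6 hx.2.le
    rw [h3.2.2.2] at h7
    linarith

/-- the position of `cf x` in the interval of the children -/
private theorem pp_pos {i n : ℕ} (hi2 : 2 ≤ i) {x : ℝ} (hx : x ∈ Ioo (i : ℝ) (i + 1)) (hn : n = i ∨ n = i + 1)
    (hs : |x - n| ≤ 1 / 2) :
    (T n = lo i ∧ D n x = cf x - lo i ∧ cf x ≤ hi i - 5 / 4) ∨
    (T n = hi i ∧ D n x = hi i - cf x ∧ lo i + 5 / 4 ≤ cf x) := by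
  rcases Nat.mod_two_eq_zero_or_one i with h1 | h1
  · have h3 := T_eq_even h1
    rcases pp_half hn hs with ⟨h5, h6⟩ | ⟨h5, h6⟩
    · left
      refine ⟨by rw [h5, h3.1], ?_, G0_even_left h1 hi2 hx.1.le h6⟩
      rw [h5, D, if_pos h1, h3.2.2.1]
    · right
      refine ⟨by rw [h5, h3.2.1], ?_, G0_even_right h1 hi2 h6 hx.2.le⟩
      rw [h5, D, if_neg (by omega), h3.2.2.2]
      push_cast
      ring
  · have h3 := T_eq_odd h1
    rcases pp_half hn hs with ⟨h5, h6⟩ | ⟨h5, h6⟩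
    · right
      refine ⟨by rw [h5, h3.1], ?_, G0_odd_left h1 (by omega) hx.1.le h6⟩
      rw [h5, D, if_neg (by omega), h3.2.2.2]
    · left
      refine ⟨by rw [h5, h3.2.1], ?_, G0_odd_right h1 (by omega) h6 hx.2.le⟩
      rw [h5, D, if_pos (by omega), h3.2.2.1]
      push_cast
      ring

private theorem pp_cc {k : ℕ} (hk : 1 ≤ k) (hv : ¬ VerS k) : 0 < cc k ∧ cc k ≤ zz k ∧ cc k < 1 := by
  have h1 := big_of_not_ver hk hv
  have h2 : (20000000 : ℝ) < k := by exact_mod_cast h1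
  refine ⟨by rw [cc]; positivity, cc_le_zz (by omega), ?_⟩
  rw [cc, div_lt_one (by linarith)]
  linarith

private theorem pp_lohi {i : ℕ} (hi2 : 2 ≤ i) : 1 ≤ lo i ∧ 1 ≤ hi i := by
  unfold lo hi
  omega

private theorem pp_nx {i : ℕ} (hi2 : 2 ≤ i) {x : ℝ} (hx : x ∈ Ioo (i : ℝ) (i + 1)) (hT : ¬ Trp x) (hF : ¬ Fld x) :
    Nx x = phi (lo i) (hi i) (cf x) := by
  rw [Nx, if_neg (by tauto), pp_floor hx, if_neg (by omega)]

theorem P1 {i n : ℕ} (hi2 : 2 ≤ i) {x : ℝ} (hx : x ∈ Ioo (i : ℝ) (i + 1)) (hn : n = i ∨ n = i + 1)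
    (hs : |x - n| ≤ 1 / 2) : Nx x ≤ 1 / 16000 ∨ (¬ VerS n ∧ |x - n| < cc n) := by
  have hn1 : 1 ≤ n := by omega
  by_cases hTF : Trp x ∨ Fld x
  · by_cases h1 : Trp x ∧ ¬ VerS ⌊x⌋₊
    · obtain ⟨h2, h3⟩ := h1
      obtain ⟨h4, h5, h6⟩ := trp_n hi2 hx hn hs h2
      rw [pp_floor hx] at h3
      right
      refine ⟨by rwa [h4], ?_⟩
      by_contra hcon
      push Not at hcon
      have h7 := G5 (n := n) (by omega) hcon hs
      have h8 : 0 < cc (T n) := (pp_cc (T_pos hn1) (by rw [ver_T hn1, h4]; exact h3)).1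
      linarith
    · left
      rw [Nx, if_pos hTF, if_neg h1]
      norm_num
  · push Not at hTF
    rw [pp_nx hi2 hx hTF.1 hTF.2]
    have hlh := pp_lohi hi2
    have key : ∀ (h1 : ¬ VerS (T n)) (h2 : D n x < cc (T n)), ¬ VerS n ∧ |x - n| < cc n := by
      intro h1 h2
      have h3 : ¬ VerS n := by rwa [ver_T hn1] at h1
      refine ⟨h3, ?_⟩
      by_contra hcon
      push Not at hcon
      have h4 := big_of_not_ver hn1 h3
      have h5 := G5 (n := n) (by omega) hcon hs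
      linarith
    by_cases ht : (¬ VerS (lo i) ∧ cf x - lo i < cc (lo i)) ∨ (¬ VerS (hi i) ∧ hi i - cf x < cc (hi i))
    · right
      rcases pp_pos hi2 hx hn hs with ⟨h1, h2, h3⟩ | ⟨h1, h2, h3⟩
      · rcases ht with ⟨h4, h5⟩ | ⟨h4, h5⟩
        · exact key (by rw [h1]; exact h4) (by rw [h1, h2]; exact h5)
        · have := (pp_cc hlh.2 h4).2.2
          linarith
      · rcases ht with ⟨h4, h5⟩ | ⟨h4, h5⟩
        · have := (pp_cc hlh.1 h4).2.2
          linarith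
        · exact key (by rw [h1]; exact h4) (by rw [h1, h2]; exact h5)
    · left
      rw [phi, if_neg ht]
      split_ifs
      · exact le_rfl
      · exact (Phi_lt _).le
      · exact (Phi_lt _).le
      · exact (Phi_lt _).le

private theorem pp_core {i n : ℕ} (hi2 : 2 ≤ i) {x : ℝ} (hx : x ∈ Ioo (i : ℝ) (i + 1)) (hn : n = i ∨ n = i + 1)
    (hs : |x - n| ≤ 1 / 2) (hz : zz (T n) ≤ D n x) :
    Nx x ≤ Phi (max (cf x + 1) (3 / 2 * (T n : ℕ) + 1)) ∧ (1 ≤ D n x → Nx x ≤ Phi (cf x + 1)) := by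
  have hn1 : 1 ≤ n := by omega
  have hzp := zz_pos (T_pos hn1)
  have hnT : ¬ Trp x := by
    intro hT
    have := (trp_n hi2 hx hn hs hT).2.2
    linarith
  by_cases hF : Fld x
  · have h0 : Nx x = 0 := by
      rw [Nx, if_pos (Or.inr hF), if_neg (by tauto)]
    rw [h0]
    exact ⟨(Phi_pos _).le, fun _ => (Phi_pos _).le⟩
  rw [pp_nx hi2 hx hnT hF]
  have hlh := pp_lohi hi2
  have hlo0 : (0 : ℝ) ≤ lo i := Nat.cast_nonneg _
  have hhi0 : (0 : ℝ) ≤ hi i := Nat.cast_nonneg _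
  have hpos := pp_pos hi2 hx hn hs
  have hy0 : 0 ≤ cf x := by
    have := cf_pos x (by have := hx.1; have : (2 : ℝ) ≤ i := by exact_mod_cast hi2
                         linarith)
    exact this.le
  have hA : ¬ ((¬ VerS (lo i) ∧ cf x - lo i < cc (lo i)) ∨ (¬ VerS (hi i) ∧ hi i - cf x < cc (hi i))) := by
    rintro (⟨h4, h5⟩ | ⟨h4, h5⟩)
    · obtain ⟨c1, c2, c3⟩ := pp_cc hlh.1 h4
      rcases hpos with ⟨h1, h2, h3⟩ | ⟨h1, h2, h3⟩
      · rw [h1, h2] at hz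
        linarith
      · linarith
    · obtain ⟨c1, c2, c3⟩ := pp_cc hlh.2 h4
      rcases hpos with ⟨h1, h2, h3⟩ | ⟨h1, h2, h3⟩
      · linarith
      · rw [h1, h2] at hz
        linarith
  have hB : ¬ (cf x - lo i < zz (lo i) ∨ hi i - cf x < zz (hi i)) := by
    have z1 := zz_le_one (lo i)
    have z2 := zz_le_one (hi i)
    rintro (h5 | h5)
    · rcases hpos with ⟨h1, h2, h3⟩ | ⟨h1, h2, h3⟩
      · rw [h1, h2] at hz
        linarith
      · linarith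
    · rcases hpos with ⟨h1, h2, h3⟩ | ⟨h1, h2, h3⟩
      · linarith
      · rw [h1, h2] at hz
        linarith
  have hC : ∀ y : ℝ, 0 ≤ y → Phi (2 * (⌊y / 2⌋₊ : ℝ) + 1) ≤ Phi (y + 1) := by
    intro y hy
    apply Phi_mono
    have := Nat.floor_le (a := y / 2) (by linarith)
    linarith
  rw [phi, if_neg hA, if_neg hB]
  split_ifs with h6 h7
  · -- half piece at `lo i`
    rcases hpos with ⟨h1, h2, h3⟩ | ⟨h1, h2, h3⟩
    · refine ⟨?_, fun hD => ?_⟩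
      · apply Phi_mono
        rw [h1]
        exact le_max_right _ _
      · rw [h2] at hD
        linarith [h6.2]
    · exfalso
      linarith [h6.2]
  · rcases hpos with ⟨h1, h2, h3⟩ | ⟨h1, h2, h3⟩
    · exfalso
      linarith [h7.2]
    · refine ⟨?_, fun hD => ?_⟩
      · apply Phi_mono
        rw [h1]
        exact le_max_right _ _
      · rw [h2] at hD
        linarith [h7.2]
  · refine ⟨(hC _ hy0).trans (Phi_mono (le_max_left _ _)), fun _ => hC _ hy0⟩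

theorem P2 {i n : ℕ} (hi2 : 2 ≤ i) {x : ℝ} (hx : x ∈ Ioo (i : ℝ) (i + 1)) (hn : n = i ∨ n = i + 1)
    (hs : |x - n| ≤ 1 / 2) (hz : ze n ≤ |x - n| ∨ (n % 2 = 0 ∧ zz n ≤ |x - n|)) :
    Nx x ≤ Phi (max (cf x + 1) (3 / 2 * (T n : ℕ) + 1)) := by
  have h1 : zz (T n) ≤ D n x := by
    rcases hz with h | ⟨h, h'⟩
    · exact G1 (by omega) h hs
    · exact G3 (by omega) h h' hs
  exact (pp_core hi2 hx hn hs h1).1

theorem P3 {i n : ℕ} (hi2 : 2 ≤ i) {x : ℝ} (hx : x ∈ Ioo (i : ℝ) (i + 1)) (hn : n = i ∨ n = i + 1)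
    (hs : |x - n| ≤ 1 / 2) (hD : 1 ≤ D n x) : Nx x ≤ Phi (cf x + 1) :=
  (pp_core hi2 hx hn hs ((zz_le_one _).trans hD)).2 hD

end Pool.Agent.Lib.MP_a247fa_nt.V
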