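import Pool.Agent.Lib.MP_a247fa_nt.V.PhiA

/-! PHIB. Ratios of the potential. For `m ≥ 2000` put `r = √(m/20000000)`, `S = 16000 Phi m = r/(1+r) ∈ (0,1)`. If `y m ≥ 2000` then with `w = √y` (`√(y m/N) = w r`):
`Phi (y m) = (1/16000) w r/(1 + w r) = Phi m * w/(1 + S (w - 1))` since `1 + S(w-1) = (1 + w r)/(1 + r)`.
`Phi_ratio_le`: `w/(1+S(w-1)) ≤ S + (1-S) w` : multiply by `1+S(w-1) > 0`: `(S + (1-S) w)(1 + S(w-1)) - w = S(1-S)(w-1)^2 ≥ 0` (expand).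
`Phi_diff`: `w/(1+S(w-1)) - v/(1+S(v-1)) = (1-S)(w-v)/((1+S(w-1))(1+S(v-1)))`.
`Phi_diff_le`: both factors of the denominator are `≥ 1` when `w ≥ v ≥ 1`.
`Phi_slack`: `Phi m (1-S) = (1/16000) r/(1+r)^2`, `m = 20000000 r^2`, `r ≥ 1`: `m Phi m (1-S) = 1250 r^3/(1+r)^2 ≥ 1250/4` since `4 r^3 ≥ (1+r)^2` for `r ≥ 1`. -/

set_option autoImplicit false

namespace Pool.Agent.Lib.MP_a247fa_nt.V

open Set MeasureTheory
open Pool.Agent.Lib.MP_a247fa_nt.W

private theorem PhiB_S {m : ℝ} (hm : 2000 ≤ m) : ∃ r : ℝ, 0 < r ∧ r = √(m / 20000000) ∧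
    16000 * Phi m = r / (1 + r) := by
  refine ⟨√(m / 20000000), Real.sqrt_pos.2 (by positivity), rfl, ?_⟩
  rw [Phi_eq hm]
  ring

theorem Phi_ratio {m y : ℝ} (hm : 2000 ≤ m) (hy : 2000 ≤ y * m) :
    Phi (y * m) = Phi m * (√y / (1 + 16000 * Phi m * (√y - 1))) ∧ 0 < 1 + 16000 * Phi m * (√y - 1) := by
  obtain ⟨r, hr0, hr, hS⟩ := PhiB_S hm
  have hm0 : 0 < m := by linarith
  have hy0 : 0 < y := by
    by_contra hcon
    push Not at hcon
    nlinarith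
  have hw0 : 0 < √y := Real.sqrt_pos.2 hy0
  have e1 : √(y * m / 20000000) = √y * r := by
    rw [hr, ← Real.sqrt_mul hy0.le]
    congr 1
    ring
  have e2 : 1 + 16000 * Phi m * (√y - 1) = (1 + √y * r) / (1 + r) := by
    rw [hS]
    field_simp
    ring
  have hpos : 0 < (1 + √y * r) / (1 + r) := by positivity
  refine ⟨?_, by rw [e2]; exact hpos⟩
  rw [e2, Phi_eq hy, e1]
  have e3 : Phi m = 1 / 16000 * (r / (1 + r)) := by linarith
  rw [e3]
  have h1 : 0 < 1 + √y * r := by positivity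
  field_simp

theorem Phi_ratio_le {m y : ℝ} (hm : 2000 ≤ m) (hy : 2000 ≤ y * m) :
    Phi (y * m) ≤ Phi m * (16000 * Phi m + (1 - 16000 * Phi m) * √y) := by
  obtain ⟨h1, h2⟩ := Phi_ratio hm hy
  rw [h1]
  apply mul_le_mul_of_nonneg_left _ (Phi_pos m).le
  rw [div_le_iff₀ h2]
  have hS0 := Phi_pos m
  have hS1 := Phi_lt m
  have : 0 ≤ 16000 * Phi m * (1 - 16000 * Phi m) * (√y - 1) ^ 2 := by
    apply mul_nonneg _ (sq_nonneg _)
    apply mul_nonneg <;> linarith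
  nlinarith

theorem Phi_diff {m y v : ℝ} (hm : 2000 ≤ m) (hy : 2000 ≤ y * m) (hv : 2000 ≤ v * m) :
    Phi (y * m) - Phi (v * m) = Phi m * (1 - 16000 * Phi m) * (√y - √v) /
      ((1 + 16000 * Phi m * (√y - 1)) * (1 + 16000 * Phi m * (√v - 1))) := by
  obtain ⟨h1, h2⟩ := Phi_ratio hm hy
  obtain ⟨h3, h4⟩ := Phi_ratio hm hv
  rw [h1, h3]
  obtain ⟨A, hA⟩ : ∃ A, A = 1 + 16000 * Phi m * (√y - 1) := ⟨_, rfl⟩
  obtain ⟨B, hB⟩ : ∃ B, B = 1 + 16000 * Phi m * (√v - 1) := ⟨_, rfl⟩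
  rw [← hA] at h2 ⊢
  rw [← hB] at h4 ⊢
  have h2' := h2.ne'
  have h4' := h4.ne'
  have e : Phi m * (√y / A) - Phi m * (√v / B) = Phi m * (√y * B - √v * A) / (A * B) := by
    field_simp
  rw [e]
  congr 1
  rw [hA, hB]
  ring

theorem Phi_diff_le {m y v : ℝ} (hm : 2000 ≤ m) (hv : 1 ≤ v) (hyv : v ≤ y) :
    Phi (y * m) - Phi (v * m) ≤ Phi m * (1 - 16000 * Phi m) * (√y - √v) := by
  have hm0 : 0 < m := by linarith
  have hS0 := Phi_pos m
  have hS1 := Phi_lt m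
  rw [Phi_diff hm (by nlinarith) (by nlinarith)]
  have w1 : 1 ≤ √v := Real.one_le_sqrt.2 hv
  have w2 : √v ≤ √y := Real.sqrt_le_sqrt hyv
  apply div_le_self
  · apply mul_nonneg
    · apply mul_nonneg <;> linarith
    · linarith
  · have a1 : 1 ≤ 1 + 16000 * Phi m * (√y - 1) := by
      have : 0 ≤ 16000 * Phi m * (√y - 1) := by
        apply mul_nonneg <;> linarith
      linarith
    have a2 : 1 ≤ 1 + 16000 * Phi m * (√v - 1) := by
      have : 0 ≤ 16000 * Phi m * (√v - 1) := by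
        apply mul_nonneg <;> linarith
      linarith
    nlinarith

theorem Phi_slack {m : ℝ} (hm : 20000000 ≤ m) : 625 / 2 / m ≤ Phi m * (1 - 16000 * Phi m) := by
  obtain ⟨r, hr0, hr, hS⟩ := PhiB_S (m := m) (by linarith)
  have hm0 : 0 < m := by linarith
  have hr1 : 1 ≤ r := by
    rw [hr]
    apply Real.one_le_sqrt.2
    rw [le_div_iff₀ (by norm_num)]
    linarith
  have hr2 : m = 20000000 * r ^ 2 := by
    rw [hr, Real.sq_sqrt (by positivity)]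
    ring
  have e3 : Phi m = 1 / 16000 * (r / (1 + r)) := by linarith
  rw [hS, e3, hr2]
  have h1 : 0 < 1 + r := by linarith
  have e4 : 1 / 16000 * (r / (1 + r)) * (1 - r / (1 + r)) = 1 / 16000 * r / (1 + r) ^ 2 := by
    field_simp
    ring
  rw [e4, div_le_div_iff₀ (by positivity) (by positivity)]
  nlinarith [mul_nonneg (mul_nonneg (sub_nonneg.2 hr1) hr0.le) hr0.le]

end Pool.Agent.Lib.MP_a247fa_nt.V
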