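import Pool.Agent.Lib.MP_a247fa_nt.V.PhiA
import Pool.Agent.Lib.MP_a247fa_nt.V.Wid

/-! S53C. The scalar sum for small windows, `3 ≤ m < 4000` odd; `23/1250 = .0184`. `al m = .58/(m+1)`.
(i) `2 (3/5)/(al m (2/5)) = (3/.58)(m+1) ≤ 5.1725 (m+1)`. If `m ≤ 1330` then `1.5m+5 ≤ 2000` and the difference of `Phi` is 0 (`Phi_flat`). In general for `2000 ≤ x ≤ y`:
`Phi y - Phi x ≤ (1/16000)(√(y/N) - √(x/N))` (the map `ρ ↦ ρ/(1+ρ)` has slope ≤ 1) and `√(y/N) - √(x/N) = (y-x)/N/(√(y/N) + √(x/N)) ≤ (y - x)/(2 √N √x)`, `√N ≥ 4472`. With `x = max m 2000`, `y = 1.5m+5 ≤ 1.5 x + 5`,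
`y - x ≤ .5x + 5`: difference `≤ (1/16000)(.5 x + 5)/(8944 √x) ≤ (1/16000) (.5025 √x)/8944 ≤ (1/16000) * .00356` (`x ≤ 4000`, `√x ≤ 63.25`). Product with `5.1725*4000 = 20690`: `≤ 73.7/16000`.
(ii) `2 ta m/(al m (1 - ta m)) = (1.7/.58) (m+1)/(√m - .85)`; the difference of `Phi` is 0 if `2.25m+2 ≤ 2000` (m ≤ 888); else m ≥ 889 and it is `≤ (1/16000)(1.25x + 2)/(8944 √x) ≤ (1/16000) * .0089`, and
`(m+1)/(√m - .85) ≤ 1.04 √m ≤ 65.8`: product `≤ (1/16000) * .0089 * 2.9311 * 65.8 ≤ 1.8/16000`.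
(iii) `2 ze m/(al m (1 - ze m))`: m < 32: `= (2/.58)(m+1)/(√m - 1) ≤ 25` (m = 3: 18.9, 5: 16.8, .., 31: 24.2); m ≥ 33: `(1.6/.58)(m+1)/(√m √√m (1 - ze m)) ≤ 2.7587 * 1.031 * 7.96/.94 ≤ 24.1` (`√√m ≤ 7.96`, `ze m ≤ .06`).
Sum `≤ (73.7 + 1.8 + 25)/16000 ≤ .0063`. -/

set_option autoImplicit false

namespace Pool.Agent.Lib.MP_a247fa_nt.V

open Set MeasureTheory
open Pool.Agent.Lib.MP_a247fa_nt.W

/-- the slope of the potential -/
private theorem s53_slope {x y K : ℝ} (h : x ≤ y) (hK : max y 2000 - max x 2000 ≤ K) :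
    Phi y - Phi x ≤ K / 400000 / 16000 := by
  obtain ⟨a, ha⟩ : ∃ a, a = √(max x 2000 / 20000000) := ⟨_, rfl⟩
  obtain ⟨b, hb⟩ : ∃ b, b = √(max y 2000 / 20000000) := ⟨_, rfl⟩
  have hX : (2000 : ℝ) ≤ max x 2000 := le_max_right _ _
  have hXY : max x 2000 ≤ max y 2000 := max_le_max h le_rfl
  have ha1 : 1 / 100 ≤ a := by
    rw [ha]; apply Real.le_sqrt_of_sq_le; norm_num; linarith
  have hab : a ≤ b := by
    rw [ha, hb]; exact Real.sqrt_le_sqrt (by linarith)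
  have ha2 : a ^ 2 = max x 2000 / 20000000 := by
    rw [ha]; exact Real.sq_sqrt (by linarith)
  have hb2 : b ^ 2 = max y 2000 / 20000000 := by
    rw [hb]; exact Real.sq_sqrt (by linarith)
  have hx : Phi x = 1 / 16000 * (a / (1 + a)) := by rw [Phi, ha]
  have hy : Phi y = 1 / 16000 * (b / (1 + b)) := by rw [Phi, hb]
  have ha0 : 0 < 1 + a := by linarith
  have hb0 : 0 < 1 + b := by linarith
  have h1 : b / (1 + b) - a / (1 + a) ≤ b - a := by
    have e : b / (1 + b) - a / (1 + a) = (b - a) / ((1 + b) * (1 + a)) := by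
      field_simp
      ring
    rw [e, div_le_iff₀ (by positivity)]
    have h2 : 1 ≤ (1 + b) * (1 + a) := by nlinarith
    nlinarith
  have h2 : (b - a) * (1 / 50) ≤ b ^ 2 - a ^ 2 := by nlinarith
  rw [hx, hy]
  have h3 : b - a ≤ K / 400000 := by
    rw [hb2, ha2] at h2
    linarith
  linarith

private theorem s53_r {m : ℕ} (h3 : 3 ≤ m) (h4 : m < 4000) : 17 / 10 ≤ √(m : ℝ) ∧ √(m : ℝ) ≤ 64 := by
  have h5 : (3 : ℝ) ≤ m := by exact_mod_cast h3
  have h6 : (m : ℝ) < 4000 := by exact_mod_cast h4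
  constructor
  · apply Real.le_sqrt_of_sq_le; norm_num; linarith
  · rw [Real.sqrt_le_left (by norm_num)]; norm_num; linarith

private theorem s53_two {m : ℕ} (h3 : 3 ≤ m) (h4 : m < 4000) :
    0 ≤ 2 * ta m / (al m * (1 - ta m)) ∧ 2 * ta m / (al m * (1 - ta m)) ≤ 200 := by
  obtain ⟨r, hr⟩ : ∃ r, r = √(m : ℝ) := ⟨_, rfl⟩
  obtain ⟨h5, h6⟩ := s53_r h3 h4
  rw [← hr] at h5 h6
  have hrr : r ^ 2 = m := by rw [hr]; exact Real.sq_sqrt (Nat.cast_nonneg m)
  have hm4 : (m : ℝ) < 4000 := by exact_mod_cast h4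
  have h7 : 0 < r - 17 / 20 := by linarith
  have e : 2 * ta m / (al m * (1 - ta m)) = 85 / 29 * (m + 1) / (r - 17 / 20) := by
    rw [ta, al, ← hr]
    have h8 : 1 - 17 / 20 / r = (r - 17 / 20) / r := by field_simp
    rw [h8]
    field_simp
    ring
  rw [e]
  constructor
  · positivity
  · rw [div_le_iff₀ h7, ← hrr]
    have h9 : r ≤ 634 / 10 := by
      rw [hr, Real.sqrt_le_left (by norm_num)]; norm_num; linarith
    nlinarith [mul_nonneg (show (0 : ℝ) ≤ r - 17 / 10 by linarith) (show (0 : ℝ) ≤ 634 / 10 - r by linarith)]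

private theorem s53_three {m : ℕ} (h3 : 3 ≤ m) (h4 : m < 4000) :
    2 * ze m / (al m * (1 - ze m)) ≤ 40 := by
  obtain ⟨r, hr⟩ : ∃ r, r = √(m : ℝ) := ⟨_, rfl⟩
  obtain ⟨h5, h6⟩ := s53_r h3 h4
  rw [← hr] at h5 h6
  have hrr : r ^ 2 = m := by rw [hr]; exact Real.sq_sqrt (Nat.cast_nonneg m)
  by_cases h32 : m < 32
  · have e2 : ze m = 1 / r := by rw [ze, if_pos h32, hr]
    have hr6 : r ≤ 6 := by
      rw [hr, Real.sqrt_le_left (by norm_num)]
      have : (m : ℝ) < 32 := by exact_mod_cast h32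
      norm_num; linarith
    have hr1 : (0 : ℝ) < r - 1 := by linarith
    have e3 : 2 * ze m / (al m * (1 - ze m)) = 100 / 29 * (m + 1) / (r - 1) := by
      rw [e2, al]
      have h8 : 1 - 1 / r = (r - 1) / r := by field_simp
      rw [h8]
      field_simp
      ring
    rw [e3, div_le_iff₀ hr1, ← hrr]
    nlinarith [mul_nonneg (show (0 : ℝ) ≤ r - 17 / 10 by linarith) (show (0 : ℝ) ≤ 6 - r by linarith)]
  · obtain ⟨q, hq⟩ : ∃ q, q = √r := ⟨_, rfl⟩
    have hqq : q ^ 2 = r := by rw [hq]; exact Real.sq_sqrt (by linarith)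
    have hn32 : (32 : ℝ) ≤ m := by
      have : 32 ≤ m := by omega
      exact_mod_cast this
    have hr5 : (56 : ℝ) / 10 ≤ r := by
      rw [hr]; apply Real.le_sqrt_of_sq_le; norm_num; linarith
    have hq2 : (23 : ℝ) / 10 ≤ q := by
      rw [hq]; apply Real.le_sqrt_of_sq_le; norm_num; linarith
    have hq8 : q ≤ 8 := by
      rw [hq, Real.sqrt_le_left (by norm_num)]; norm_num; linarith
    have hn4 : (m : ℝ) = q ^ 4 := by rw [← hrr, ← hqq]; ring
    have hq3 : (12 : ℝ) ≤ q ^ 3 := by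
      have : (23 / 10 : ℝ) ^ 3 ≤ q ^ 3 := pow_le_pow_left₀ (by norm_num) hq2 3
      have h6 : (12 : ℝ) ≤ (23 / 10) ^ 3 := by norm_num
      linarith
    have e2 : ze m = 4 / 5 / q ^ 3 := by
      rw [ze, if_neg h32, ← hr, ← hq]
      have : r * q = q ^ 3 := by rw [← hqq]; ring
      rw [this]
    have h7 : (0 : ℝ) < q ^ 3 - 4 / 5 := by linarith
    have e3 : 2 * ze m / (al m * (1 - ze m)) = 80 / 29 * (q ^ 4 + 1) / (q ^ 3 - 4 / 5) := by
      rw [e2, al, hn4]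
      have h5 : 1 - 4 / 5 / q ^ 3 = (q ^ 3 - 4 / 5) / q ^ 3 := by field_simp
      rw [h5]
      field_simp
      ring
    rw [e3, div_le_iff₀ h7]
    have h8 : q ^ 4 ≤ 8 * q ^ 3 := by
      have : q ^ 4 = q * q ^ 3 := by ring
      rw [this]
      exact mul_le_mul_of_nonneg_right hq8 (by positivity)
    nlinarith

theorem S53c {m : ℕ} (ho : m % 2 = 1) (h3 : 3 ≤ m) (h4 : m < 4000) :
    (Phi (3 / 2 * m + 5) - Phi m) * (2 * (3 / 5) / (al m * (1 - 3 / 5))) +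
      (Phi (9 / 4 * m + 2) - Phi m) * (2 * ta m / (al m * (1 - ta m))) +
      1 / 16000 * (2 * ze m / (al m * (1 - ze m))) ≤ 23 / 1250 := by
  have hm3 : (3 : ℝ) ≤ m := by exact_mod_cast h3
  have hm4 : (m : ℝ) ≤ 3999 := by
    have : m ≤ 3999 := by omega
    exact_mod_cast this
  have h1 : Phi (3 / 2 * m + 5) - Phi m ≤ 2005 / 400000 / 16000 := by
    apply s53_slope (by linarith)
    rcases le_total (m : ℝ) 2000 with h | h
    · rw [max_eq_right h]
      have : max (3 / 2 * (m : ℝ) + 5) 2000 ≤ 3005 := max_le (by linarith) (by norm_num)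
      linarith
    · rw [max_eq_left h, max_eq_left (by linarith)]
      linarith
  have h1' : 0 ≤ Phi (3 / 2 * m + 5) - Phi m := by
    have := Phi_mono (show (m : ℝ) ≤ 3 / 2 * m + 5 by linarith)
    linarith
  have h2 : Phi (9 / 4 * m + 2) - Phi m ≤ 5001 / 400000 / 16000 := by
    apply s53_slope (by linarith)
    rcases le_total (m : ℝ) 2000 with h | h
    · rw [max_eq_right h]
      have : max (9 / 4 * (m : ℝ) + 2) 2000 ≤ 4502 := max_le (by linarith) (by norm_num)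
      linarith
    · rw [max_eq_left h, max_eq_left (by linarith)]
      linarith
  have h2' : 0 ≤ Phi (9 / 4 * m + 2) - Phi m := by
    have := Phi_mono (show (m : ℝ) ≤ 9 / 4 * m + 2 by linarith)
    linarith
  have c1 : 2 * (3 / 5) / (al m * (1 - 3 / 5)) = 150 / 29 * ((m : ℝ) + 1) := by
    rw [al]
    field_simp
    ring
  obtain ⟨c2', c2⟩ := s53_two h3 h4
  have c3 := s53_three h3 h4
  rw [c1]
  have p1 : (Phi (3 / 2 * m + 5) - Phi m) * (150 / 29 * ((m : ℝ) + 1)) ≤ 2005 / 400000 / 16000 * 20700 := by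
    apply mul_le_mul h1 (by linarith) (by positivity) (by positivity)
  have p2 : (Phi (9 / 4 * m + 2) - Phi m) * (2 * ta m / (al m * (1 - ta m))) ≤ 5001 / 400000 / 16000 * 200 := by
    apply mul_le_mul h2 c2 c2' (by positivity)
  have p3 : 1 / 16000 * (2 * ze m / (al m * (1 - ze m))) ≤ 1 / 16000 * 40 :=
    mul_le_mul_of_nonneg_left c3 (by norm_num)
  have h9 : (2005 : ℝ) / 400000 / 16000 * 20700 + 5001 / 400000 / 16000 * 200 + 1 / 16000 * 40 ≤ 23 / 1250 := by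
    norm_num
  linarith

end Pool.Agent.Lib.MP_a247fa_nt.V
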