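import Pool.Agent.Lib.MP_a247fa_nt.V.S53p
import Pool.Agent.Lib.MP_a247fa_nt.V.S53c
import Pool.Agent.Lib.MP_a247fa_nt.V.CrCent
import Pool.Agent.Lib.MP_a247fa_nt.V.MeasV

/-! S53 (40 min). Paper (5.3), small windows: integrate `s53p` over `(k, k+2)` (`itg_mono`, `itg_add`, `itg_cmul`, `itg_ind`; for the ind terms that stick out of the window, `m ± ta m`, `m ± ze m`
(`ze m < 1`, `ta m < 1` for `m ≥ 3`), `m ± 3/5` are inside; `k + ze k ≤ k + 1`).
Terms at `m`: `cr_right` with `n = m`, `al = al m = .58/(m+1)`, `r = 3/5, ta m, ze m` (`al_le_ze`, `al_le_ta`, `ze_lt_one`, `ta_lt_one`, `al m ≤ 3/5`): the sum is `≤ (coefficient of `S53c`) · mu m (m + al m) ≤ sigma · mu m (m+al m)`.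
Zone terms: `en k = 1/16000` (`k ≤ 4000`), `tn = wn = 0` (verified), so they are `Gr ν k`, `Gl ν (k+2)` (`k + 2 ≤ 4000`, as `m < 4000` odd). -/

set_option autoImplicit false

namespace Pool.Agent.Lib.MP_a247fa_nt.V

open Set MeasureTheory
open Pool.Agent.Lib.MP_a247fa_nt.W

private theorem s53_gr {ν : Measure ℝ} {k : ℕ} (h1 : 1 ≤ k) (h2 : k ≤ 4000) :
    Gr ν k = 1 / 16000 * mu ν k (k + ze k) := by
  have hv : VerS k := ver_small h1 (by omega)
  rw [Gr, en, if_pos h2, tn, if_pos hv, wn, if_pos hv]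
  ring

private theorem s53_gl {ν : Measure ℝ} {k : ℕ} (h1 : 1 ≤ k) (h2 : k ≤ 4000) :
    Gl ν k = 1 / 16000 * mu ν (k - ze k) k := by
  have hv : VerS k := ver_small h1 (by omega)
  rw [Gl, en, if_pos h2, tn, if_pos hv, wn, if_pos hv]
  ring

theorem s53 {ν : Measure ℝ} {a b k m : ℕ} (ha : 1 ≤ a) (hk : k % 2 = 0) (hk2 : 2 ≤ k) (hm : m = k + 1)
    (hm4 : m < 4000) (hak : a ≤ k) (hkb : k + 2 ≤ b) (hν : CR ν a b) :
    itg ν (fun x => Nx x - phi a b x) k (k + 2) ≤ 23 / 1250 * mu ν m (m + al m) +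
      (if a < k then Gr ν k else 0) + (if k + 2 < b then Gl ν (k + 2) else 0) := by
  haveI := hν.fin
  haveI := hν.noat
  have hmo : m % 2 = 1 := by omega
  have hm3 : 3 ≤ m := by omega
  have hmr : (m : ℝ) = k + 1 := by
    rw [hm]
    push_cast
    ring
  have hzm := ze_lt_one (n := m) (by omega)
  have htm := ta_lt_one (n := m) (by omega)
  have hzk := ze_lt_one (n := k) hk2
  have hzk2 := ze_lt_one (n := k + 2) (by omega)
  set c1 : ℝ := Phi (3 / 2 * m + 5) - Phi m with hc1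
  set c2 : ℝ := Phi (9 / 4 * m + 2) - Phi m with hc2
  set d1 : ℝ := if a < k then 1 / 16000 else 0 with hd1
  set d2 : ℝ := if k + 2 < b then 1 / 16000 else 0 with hd2
  have hm0 : (0 : ℝ) ≤ m := Nat.cast_nonneg m
  have hc1n : 0 ≤ c1 := sub_nonneg.2 (Phi_mono (by linarith))
  have hc2n : 0 ≤ c2 := sub_nonneg.2 (Phi_mono (by linarith))
  have h1 : ∀ x ∈ Ioo (k : ℝ) (k + 2), Nx x - phi a b x ≤
      c1 * ind (m - 3 / 5) (m + 3 / 5) x + c2 * ind (m - ta m) (m + ta m) x +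
      1 / 16000 * ind (m - ze m) (m + ze m) x + d1 * ind k (k + ze k) x +
      d2 * ind (k + 2 - ze (k + 2)) (k + 2) x := by
    intro x hx
    have h := s53p ha hk hk2 hm hm4 hak hkb hx
    have e1 : (if a < k then 1 / 16000 * ind k (k + ze k) x else 0) = d1 * ind k (k + ze k) x := by
      rw [hd1]
      split_ifs
      · rfl
      · rw [zero_mul]
    have e2 : (if k + 2 < b then 1 / 16000 * ind (k + 2 - ze (k + 2)) (k + 2) x else 0) =
        d2 * ind (k + 2 - ze (k + 2)) (k + 2) x := by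
      rw [hd2]
      split_ifs
      · rfl
      · rw [zero_mul]
    rw [e1, e2] at h
    exact h
  have b1 := bm_cmul c1 (bm_ind ((m : ℝ) - 3 / 5) (m + 3 / 5))
  have b2 := bm_cmul c2 (bm_ind ((m : ℝ) - ta m) (m + ta m))
  have b3 := bm_cmul (1 / 16000) (bm_ind ((m : ℝ) - ze m) (m + ze m))
  have b4 := bm_cmul d1 (bm_ind (k : ℝ) (k + ze k))
  have b5 := bm_cmul d2 (bm_ind ((k : ℝ) + 2 - ze (k + 2)) (k + 2))
  have h2 := itg_mono (ν := ν) (bm_sub bm_nx (bm_phi a b))
    (bm_add (bm_add (bm_add (bm_add b1 b2) b3) b4) b5) h1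
  refine h2.trans ?_
  rw [itg_add (bm_add (bm_add (bm_add b1 b2) b3) b4) b5, itg_add (bm_add (bm_add b1 b2) b3) b4,
    itg_add (bm_add b1 b2) b3, itg_add b1 b2, itg_cmul, itg_cmul, itg_cmul, itg_cmul, itg_cmul,
    itg_ind (by rw [hmr]; linarith) (by rw [hmr]; linarith),
    itg_ind (by rw [hmr]; linarith) (by rw [hmr]; linarith),
    itg_ind (by rw [hmr]; linarith) (by rw [hmr]; linarith),
    itg_ind le_rfl (by linarith), itg_ind (by linarith) le_rfl]
  have hkb' : (k : ℝ) + 2 ≤ b := by exact_mod_cast hkb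
  have hak' : (a : ℝ) ≤ k := by exact_mod_cast hak
  have hA0 := mu_nonneg ν m (m + al m)
  have halp := al_pos m
  have hal : al m ≤ 3 / 5 := by
    rw [al, div_le_iff₀ (by linarith)]
    linarith
  have q1 := cr_right (n := m) (al := al m) (r := 3 / 5) hν (by rw [hmr]; linarith)
    (by rw [hmr]; linarith) halp hal (by norm_num)
  have q2 := cr_right (n := m) (al := al m) (r := ta m) hν (by rw [hmr]; linarith)
    (by rw [hmr]; linarith) halp (al_le_ta (by omega)) htm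
  have q3 := cr_right (n := m) (al := al m) (r := ze m) hν (by rw [hmr]; linarith)
    (by rw [hmr]; linarith) halp (al_le_ze (by omega)) hzm
  have p1 := mul_le_mul_of_nonneg_left q1 hc1n
  have p2 := mul_le_mul_of_nonneg_left q2 hc2n
  have p3 := mul_le_mul_of_nonneg_left q3 (show (0 : ℝ) ≤ 1 / 16000 by norm_num)
  have p4 := mul_le_mul_of_nonneg_right (S53c hmo hm3 hm4) hA0
  have g1 : d1 * mu ν k (k + ze k) = if a < k then Gr ν k else 0 := by
    rw [hd1]
    split_ifs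
    · rw [s53_gr (by omega) (by omega)]
    · rw [zero_mul]
  have g2 : d2 * mu ν ((k : ℝ) + 2 - ze (k + 2)) (k + 2) = if k + 2 < b then Gl ν (k + 2) else 0 := by
    rw [hd2]
    split_ifs
    · rw [s53_gl (by omega) (by omega)]
      push_cast
      rfl
    · rw [zero_mul]
  rw [g1, g2]
  have p5 : c1 * mu ν (m - 3 / 5) (m + 3 / 5) + c2 * mu ν (m - ta m) (m + ta m) +
      1 / 16000 * mu ν (m - ze m) (m + ze m) ≤ 23 / 1250 * mu ν m (m + al m) := by
    refine le_trans (add_le_add (add_le_add p1 p2) p3) (le_trans (le_of_eq ?_) p4)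
    ring
  linarith

end Pool.Agent.Lib.MP_a247fa_nt.V
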