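import Pool.Agent.Lib.MP_a247fa_nt.V.PP
import Pool.Agent.Lib.MP_a247fa_nt.V.VerSmall
import Pool.Agent.Lib.MP_a247fa_nt.V.MuBasic

/-! S53P (60 min). Paper (5.3), small windows, POINTWISE. `k` even `≥ 2`, `m = k+1 < 4000` odd, window `(k, k+2)` inside `(a, b)`, `t = |x - m|`. All integers involved are `≤ 4000·1.5+1`, so verified (`ver_small`):
no tubes, P1 reads `Nx ≤ 1/16000` (units `i = k` or `i = m`, both `≥ 2`).

`phi a b x ≥ Phi m` on the window: the values are `1`, `1/16000` or `Phi (2⌊x/2⌋₊+1) = Phi m` (the half-piece values do not occur: `a` odd would need `x < a+1` but then `a + 1 ≤ k` (`a ≤ k`, `k` even) ; same at `b`).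
 `t ≤ 1/2` (nearest `n = m`): `t < ze m`: `Nx ≤ 1/16000`, third term. `t ≥ ze m`: P2: `cf x + 1 ≤ (m+3) xi t ≤ 3/2 (m+3)` (`cf_add_one_le`) `≤ 3/2 m + 5`; `3/2 T m + 1 = 9/4 m + 7/4 ≤ 9/4 m + 2`. If `t < ta m` use the second term:
   `Nx ≤ Phi (max ..) ≤ max (Phi (3/2 m+5)) (Phi (9/4 m + 2))`, and `max A B - C ≤ (A - C) + (B - C)` for `A, B ≥ C = Phi m`. If `t ≥ ta m` and `m ≥ 9`: G2, P3: `Nx ≤ Phi (cf x + 1)`, first term. `m < 9`: `ze m ≤ t ≤ 1/2` : `m = 3`: `ze 3 > 1/2` impossible;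
   `m = 5, 7`: G1 and `T m < 16`: `1 = zz (T m) ≤ D m x`, P3.
 `t > 1/2`, nearest `n = k` (`x < m`) or `n = k+2`, `s = 1 - t < 1/2`: `n` interior and `s < ze n`: `Nx ≤ 1/16000`, zone term (fourth or fifth). `n = a` or `n = b` and `s < zz n`: `Nx ≤ 1/16000 ≤ phi` (phi is `1` or `1/16000`).
   Otherwise P2 (`ze n ≤ s` or `n` even and `zz n ≤ s`): `cf x + 1 ≤ (m+3) xi t`, `3/2 T n + 1 ≤ 3/4 (m+1) + 1 = 3/4 m + 7/4`. For `t < 3/5` both are `≤ 3/2 m + 5`: first term. For `t ≥ 3/5`: `xi t ≤ 3/2 - t ≤ 9/10` (`xi_le9`),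
   so both are `≤ max m 2000` (`9/10 (m+3) ≤ m` if `m ≥ 27`, else `≤ 2000`), and `Phi (max m 2000) = Phi m`: `Nx ≤ Phi m ≤ phi`. All terms on the right are `≥ 0`. -/

set_option autoImplicit false

namespace Pool.Agent.Lib.MP_a247fa_nt.V

open Set MeasureTheory
open Pool.Agent.Lib.MP_a247fa_nt.W

private theorem sp_phi {a b k m : ℕ} (hk : k % 2 = 0) (hm : m = k + 1) (hak : a ≤ k) (hkb : k + 2 ≤ b)
    {x : ℝ} (hx : x ∈ Ioo (k : ℝ) (k + 2)) : Phi m ≤ phi a b x := by
  rw [phi]
  split_ifs with h1 h2 h3 h4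
  · exact (Phi_lt _).le.trans (by norm_num)
  · exact (Phi_lt _).le
  · exfalso
    have h5 : a + 1 ≤ k := by omega
    have h6 : ((a + 1 : ℕ) : ℝ) ≤ k := by exact_mod_cast h5
    push_cast at h6
    linarith [h3.2, hx.1]
  · exfalso
    have h5 : k + 3 ≤ b := by omega
    have h6 : ((k + 3 : ℕ) : ℝ) ≤ b := by exact_mod_cast h5
    push_cast at h6
    linarith [h4.2, hx.2]
  · obtain ⟨j, rfl⟩ : ∃ j, k = 2 * j := ⟨k / 2, by omega⟩
    have h5 := hx.1
    have h6 := hx.2
    push_cast at h5 h6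
    have hf : ⌊x / 2⌋₊ = j := by
      rw [Nat.floor_eq_iff (by have := Nat.cast_nonneg (α := ℝ) j; linarith)]
      constructor <;> linarith
    rw [hf, hm]
    push_cast
    exact le_rfl

private theorem sp_nx {i n : ℕ} (hi2 : 2 ≤ i) (hn4 : n ≤ 20000000) {x : ℝ} (hx : x ∈ Ioo (i : ℝ) (i + 1))
    (hn : n = i ∨ n = i + 1) (hs : |x - n| ≤ 1 / 2) : Nx x ≤ 1 / 16000 := by
  rcases P1 hi2 hx hn hs with h | ⟨h, _⟩
  · exact h
  · exact absurd (ver_small (by omega) hn4) h

private theorem sp_A (m : ℕ) : 0 ≤ Phi (3 / 2 * m + 5) - Phi m := by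
  have hm0 : (0 : ℝ) ≤ m := Nat.cast_nonneg m
  linarith [Phi_mono (show (m : ℝ) ≤ 3 / 2 * m + 5 by linarith)]

private theorem sp_B (m : ℕ) : 0 ≤ Phi (9 / 4 * m + 2) - Phi m := by
  have hm0 : (0 : ℝ) ≤ m := Nat.cast_nonneg m
  linarith [Phi_mono (show (m : ℝ) ≤ 9 / 4 * m + 2 by linarith)]

private theorem sp_far {i n m : ℕ} (hi2 : 2 ≤ i) (hm2 : m % 2 = 1) (hnm : n ≤ m + 1) (hne : n % 2 = 0)
    {x : ℝ} (hx : x ∈ Ioo (i : ℝ) (i + 1)) (hn : n = i ∨ n = i + 1)
    (ht1 : |x - m| ≤ 1) (hs : |x - n| ≤ 1 / 2) (hz : ze n ≤ |x - n| ∨ zz n ≤ |x - n|) :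
    Nx x ≤ Phi m + (Phi (3 / 2 * m + 5) - Phi m) * ind (m - 3 / 5) (m + 3 / 5) x := by
  have h1 := P2 hi2 hx hn hs (hz.imp id (fun h => ⟨hne, h⟩))
  have h2 := cf_add_one_le hm2 ht1
  have hT : ((T n : ℕ) : ℝ) = n / 2 := T_even hne
  rw [hT] at h1
  have hnm' : (n : ℝ) ≤ m + 1 := by exact_mod_cast hnm
  have hm0 : (0 : ℝ) ≤ m := Nat.cast_nonneg m
  by_cases ht : |x - m| < 3 / 5
  · have h3 : max (cf x + 1) (3 / 2 * ((n : ℝ) / 2) + 1) ≤ 3 / 2 * m + 5 := by
      apply max_le
      · nlinarith [xi_le |x - m|]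
      · linarith
    rw [abs_lt] at ht
    rw [ind_of_mem (by linarith [ht.1]) (by linarith [ht.2])]
    linarith [h1.trans (Phi_mono h3)]
  · push Not at ht
    have h4 := xi_le9 ht ht1
    have h5 : max (cf x + 1) (3 / 2 * ((n : ℝ) / 2) + 1) ≤ max (m : ℝ) 2000 := by
      apply max_le
      · by_cases h27 : 27 ≤ (m : ℝ)
        · apply le_max_of_le_left
          nlinarith
        · push Not at h27
          apply le_max_of_le_right
          nlinarith
      · by_cases h7 : 7 ≤ (m : ℝ)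
        · apply le_max_of_le_left
          linarith
        · push Not at h7
          apply le_max_of_le_right
          linarith
    have h6 : Phi (max (m : ℝ) 2000) = Phi m := by
      rcases le_total (m : ℝ) 2000 with h | h
      · rw [max_eq_right h, Phi_flat h]
      · rw [max_eq_left h]
    have h7 := h1.trans (Phi_mono h5)
    rw [h6] at h7
    have h9 := mul_nonneg (sp_A m) (ind_nonneg (m - 3 / 5) (m + 3 / 5) x)
    linarith

private theorem sp_near {i m : ℕ} (hi2 : 2 ≤ i) (hm2 : m % 2 = 1) (hm3 : 3 ≤ m) (hm4 : m < 4000)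
    {x : ℝ} (hx : x ∈ Ioo (i : ℝ) (i + 1)) (hn : m = i ∨ m = i + 1) (hs : |x - m| ≤ 1 / 2) :
    Nx x ≤ Phi m + (Phi (3 / 2 * m + 5) - Phi m) * ind (m - 3 / 5) (m + 3 / 5) x +
      (Phi (9 / 4 * m + 2) - Phi m) * ind (m - ta m) (m + ta m) x +
      1 / 16000 * ind (m - ze m) (m + ze m) x := by
  have hm0 : (0 : ℝ) ≤ m := Nat.cast_nonneg m
  have hs' := abs_le.1 hs
  have i1 : ind ((m : ℝ) - 3 / 5) (m + 3 / 5) x = 1 := ind_of_mem (by linarith [hs'.1]) (by linarith [hs'.2])
  have hB2 := mul_nonneg (sp_B m) (ind_nonneg (m - ta m) (m + ta m) x)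
  have hC2 := ind_nonneg (m - ze m) (m + ze m) x
  have hA := sp_A m
  have hB := sp_B m
  by_cases hz : ze m ≤ |x - m|
  · have h2 := cf_add_one_le hm2 (hs.trans (by norm_num))
    have h3 : cf x + 1 ≤ 3 / 2 * m + 5 := by nlinarith [xi_le |x - m|]
    by_cases hD : 1 ≤ D m x
    · have h4 := (P3 hi2 hx hn hs hD).trans (Phi_mono h3)
      rw [i1]
      linarith
    · have hm32 : 32 ≤ m := by
        by_contra hcon
        exact hD (G1_small (by omega) (by omega) hz hs)
      have hta : |x - m| < ta m := by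
        by_contra hcon
        push Not at hcon
        exact hD (G2 (by omega) hcon hs)
      have hta' := abs_lt.1 hta
      have i2 : ind ((m : ℝ) - ta m) (m + ta m) x = 1 := ind_of_mem (by linarith [hta'.1]) (by linarith [hta'.2])
      have h5 := P2 hi2 hx hn hs (Or.inl hz)
      have hT : ((T m : ℕ) : ℝ) = (3 * m + 1) / 2 := T_odd hm2
      rw [hT] at h5
      rw [i1, i2]
      rcases le_total (cf x + 1) (3 / 2 * ((3 * (m : ℝ) + 1) / 2) + 1) with h6 | h6
      · rw [max_eq_right h6] at h5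
        have h7 := h5.trans (Phi_mono (show 3 / 2 * ((3 * (m : ℝ) + 1) / 2) + 1 ≤ 9 / 4 * m + 2 by linarith))
        linarith
      · rw [max_eq_left h6] at h5
        have h7 := h5.trans (Phi_mono h3)
        linarith
  · push Not at hz
    have hz' := abs_lt.1 hz
    have i3 : ind ((m : ℝ) - ze m) (m + ze m) x = 1 := ind_of_mem (by linarith [hz'.1]) (by linarith [hz'.2])
    have h4 := sp_nx hi2 (by omega) hx hn hs
    rw [i1, i3]
    linarith [Phi_pos m]

theorem s53p {a b k m : ℕ} (ha : 1 ≤ a) (hk : k % 2 = 0) (hk2 : 2 ≤ k) (hm : m = k + 1) (hm4 : m < 4000)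
    (hak : a ≤ k) (hkb : k + 2 ≤ b) {x : ℝ} (hx : x ∈ Ioo (k : ℝ) (k + 2)) :
    Nx x - phi a b x ≤ (Phi (3 / 2 * m + 5) - Phi m) * ind (m - 3 / 5) (m + 3 / 5) x +
      (Phi (9 / 4 * m + 2) - Phi m) * ind (m - ta m) (m + ta m) x +
      1 / 16000 * ind (m - ze m) (m + ze m) x +
      (if a < k then 1 / 16000 * ind k (k + ze k) x else 0) +
      (if k + 2 < b then 1 / 16000 * ind (k + 2 - ze (k + 2)) (k + 2) x else 0) := by
  have hphi := sp_phi hk hm hak hkb hx
  have hm2 : m % 2 = 1 := by omega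
  have hmR : (m : ℝ) = k + 1 := by rw [hm]; push_cast; rfl
  have hA2 := mul_nonneg (sp_A m) (ind_nonneg (m - 3 / 5) (m + 3 / 5) x)
  have hB2 := mul_nonneg (sp_B m) (ind_nonneg (m - ta m) (m + ta m) x)
  have hC2 := ind_nonneg (m - ze m) (m + ze m) x
  have hL : 0 ≤ (if a < k then 1 / 16000 * ind k (k + ze k) x else 0) := by
    split_ifs
    · exact mul_nonneg (by norm_num) (ind_nonneg _ _ _)
    · exact le_rfl
  have hR : 0 ≤ (if k + 2 < b then 1 / 16000 * ind (k + 2 - ze (k + 2)) (k + 2) x else 0) := by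
    split_ifs
    · exact mul_nonneg (by norm_num) (ind_nonneg _ _ _)
    · exact le_rfl
  have hx1 := hx.1
  have hx2 := hx.2
  have ht1 : |x - m| ≤ 1 := by rw [abs_le]; constructor <;> linarith
  rcases lt_trichotomy x m with hxm | hxm | hxm
  · -- left half
    have hxi : x ∈ Ioo (k : ℝ) (k + 1) := ⟨hx1, by linarith⟩
    by_cases ht : |x - m| ≤ 1 / 2
    · have := sp_near hk2 hm2 (by omega) hm4 hxi (Or.inr hm) ht
      linarith
    · push Not at ht
      rw [abs_of_neg (by linarith)] at ht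
      have hsk : |x - k| = x - k := abs_of_pos (by linarith)
      have hs : |x - (k : ℕ)| ≤ 1 / 2 := by rw [hsk]; linarith
      have hN := sp_nx hk2 (by omega) hxi (Or.inl rfl) hs
      by_cases hak2 : a < k
      · by_cases hz : ze k ≤ |x - k|
        · have := sp_far hk2 hm2 (by omega) hk hxi (Or.inl rfl) ht1 hs (Or.inl hz)
          linarith
        · push Not at hz
          rw [hsk] at hz
          rw [if_pos hak2, ind_of_mem hx1 (by linarith)]
          linarith [Phi_pos m]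
      · have hak3 : a = k := by omega
        by_cases hz : zz k ≤ |x - k|
        · have := sp_far hk2 hm2 (by omega) hk hxi (Or.inl rfl) ht1 hs (Or.inr hz)
          linarith
        · push Not at hz
          rw [hsk] at hz
          have hp : 1 / 16000 ≤ phi a b x := by
            rw [phi]
            by_cases h1 : (¬ VerS a ∧ x - a < cc a) ∨ (¬ VerS b ∧ b - x < cc b)
            · rw [if_pos h1]
              norm_num
            · rw [if_neg h1, if_pos (Or.inl (by rw [hak3]; exact hz))]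
          linarith
  · -- the integer `m`
    have hfl : ⌊x⌋₊ = m := by rw [hxm, Nat.floor_natCast]
    have hT : Trp x := by
      refine ⟨by rw [hfl]; exact hm2, ?_⟩
      rw [hfl, hxm, cf_natCast]
    have hN : Nx x = 0 := by
      rw [Nx, if_pos (Or.inl hT), if_neg]
      rintro ⟨_, h⟩
      rw [hfl] at h
      exact h (ver_small (by omega) (by omega))
    linarith [Phi_pos m]
  · -- right half
    have hxi : x ∈ Ioo (m : ℝ) (m + 1) := ⟨hxm, by linarith⟩
    by_cases ht : |x - m| ≤ 1 / 2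
    · have := sp_near (by omega) hm2 (by omega) hm4 hxi (Or.inl rfl) ht
      linarith
    · push Not at ht
      rw [abs_of_pos (by linarith)] at ht
      have hkR : ((k + 2 : ℕ) : ℝ) = k + 2 := by push_cast; rfl
      have hsk : |x - ((k + 2 : ℕ) : ℝ)| = k + 2 - x := by
        rw [hkR, abs_of_neg (by linarith)]
        ring
      have hs : |x - ((k + 2 : ℕ) : ℝ)| ≤ 1 / 2 := by rw [hsk]; linarith
      have hN := sp_nx (i := m) (n := k + 2) (by omega) (by omega) hxi (Or.inr (by omega)) hs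
      by_cases hkb2 : k + 2 < b
      · by_cases hz : ze (k + 2) ≤ |x - ((k + 2 : ℕ) : ℝ)|
        · have := sp_far (i := m) (n := k + 2) (by omega) hm2 (by omega) (by omega) hxi (Or.inr (by omega)) ht1 hs
            (Or.inl hz)
          linarith
        · push Not at hz
          rw [hsk] at hz
          rw [if_pos hkb2, ind_of_mem (by linarith) hx2]
          linarith [Phi_pos m]
      · have hkb3 : b = k + 2 := by omega
        by_cases hz : zz (k + 2) ≤ |x - ((k + 2 : ℕ) : ℝ)|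
        · have := sp_far (i := m) (n := k + 2) (by omega) hm2 (by omega) (by omega) hxi (Or.inr (by omega)) ht1 hs
            (Or.inr hz)
          linarith
        · push Not at hz
          rw [hsk] at hz
          have hp : 1 / 16000 ≤ phi a b x := by
            rw [phi]
            by_cases h1 : (¬ VerS a ∧ x - a < cc a) ∨ (¬ VerS b ∧ b - x < cc b)
            · rw [if_pos h1]
              norm_num
            · rw [if_neg h1, if_pos (Or.inr (by rw [hkb3, hkR]; exact hz))]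
          linarith

end Pool.Agent.Lib.MP_a247fa_nt.V
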