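import Pool.Agent.Lib.MP_a247fa_nt.V.S53
import Pool.Agent.Lib.MP_a247fa_nt.V.L53
import Pool.Agent.Lib.MP_a247fa_nt.V.E50
import Pool.Agent.Lib.MP_a247fa_nt.V.E51
import Pool.Agent.Lib.MP_a247fa_nt.V.E52
import Pool.Agent.Lib.MP_a247fa_nt.V.CapIn

/-! STEP (60 min). The one-step inequality (paper, STEP). `F = Nx - phi a b`, `σ = 23/1250`, `cm x y = (ν (Ioo x y ∩ Cap)).toReal`.

`win`: (5.3) for all `m` (`s53` for `m < 4000`, `l53` else). For even `n` put `R n = if a < n ∧ n < b then Gr ν n else 0`.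
Claim S(n), `n` even, `a ≤ n ≤ b`: `itg ν F a n + R n ≤ σ cm a n`.
Start: `a` even, `n = a`: `0 ≤ 0`. `a` odd, `n = a+1 < b`: `itg F a (a+1) ≤ Gl ν (a+1)` (integrate `e51p`: `itg_mono`, the integral of `gl` over `(a, a+1)` is `Gl`, since `ze, cc ≤ 1` for `n = a+1 ≥ 2`, `itg_ind`), and `e50`
(`a ≤ n-1`, `n+1 ≤ b`): `Gl + Gr ≤ σ mu (n - be n) n ≤ σ cm a (a+1)` (`fld_near`).
Step `n → n+2 ≤ b`: `itg F a (n+2) = itg F a n + itg F n (n+2)`; `win`: `≤ σ mu m (m + al m) + (if a < n then Gr n) + (if n+2 < b then Gl (n+2))`, and `(if n+2 < b then Gl (n+2) + Gr (n+2)) ≤ σ mu (n+2-be) (n+2)` (`e50`).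
`cm a (n+2) ≥ cm a n + mu m (m+al m) + mu (n+2-be(n+2)) (n+2)` (three disjoint parts of `Ioo a (n+2) ∩ Cap`: `trp_near`, `fld_near`; `m + al m ≤ m + 1/2`, `be ≤ 1/4`).
End: `b` even: S(b), `R b = 0`. `b` odd: S(b-1) and `itg F (b-1) b ≤ Gr ν (b-1)` (`e52p` with `c = b-1`; `a + 2 ≤ c`).
Finally `itg F = itg Nx - itg phi` (`itg_sub`, `bm_nx`, `bm_phi`). -/

set_option autoImplicit false

namespace Pool.Agent.Lib.MP_a247fa_nt.V

open Set MeasureTheory
open Pool.Agent.Lib.MP_a247fa_nt.W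

theorem win {ν : Measure ℝ} {a b k m : ℕ} (ha : 1 ≤ a) (hk : k % 2 = 0) (hm : m = k + 1)
    (hak : a ≤ k) (hkb : k + 2 ≤ b) (hν : CR ν a b) :
    itg ν (fun x => Nx x - phi a b x) k (k + 2) ≤ 23 / 1250 * mu ν m (m + al m) +
      (if a < k then Gr ν k else 0) + (if k + 2 < b then Gl ν (k + 2) else 0) := by
  rcases lt_or_ge m 4000 with h | h
  · exact s53 ha hk (by omega) hm h hak hkb hν
  · exact l53 ha hk hm h hak hkb hν

/-- the captured part of `(x, y)` -/
private noncomputable def St_cm (ν : Measure ℝ) (x y : ℝ) : ℝ := (ν (Ioo x y ∩ Cap)).toReal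

private theorem St_ge {ν : Measure ℝ} [IsFiniteMeasure ν] {A B C : Set ℝ} (h : B ∪ C ⊆ A) (hd : Disjoint B C)
    (hC : MeasurableSet C) : (ν B).toReal + (ν C).toReal ≤ (ν A).toReal := by
  rw [← ENNReal.toReal_add (measure_ne_top _ _) (measure_ne_top _ _), ← measure_union hd hC]
  exact ENNReal.toReal_mono (measure_ne_top _ _) (measure_mono h)

private theorem St_mono {ν : Measure ℝ} [IsFiniteMeasure ν] {x y x' y' : ℝ} (h1 : x' ≤ x) (h2 : y ≤ y') :
    St_cm ν x y ≤ St_cm ν x' y' :=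
  ENNReal.toReal_mono (measure_ne_top _ _)
    (measure_mono (inter_subset_inter_left _ (Ioo_subset_Ioo h1 h2)))

private theorem St_fld {ν : Measure ℝ} [IsFiniteMeasure ν] {n : ℕ} (hn : n % 2 = 0) (h2 : 2 ≤ n) {x : ℝ}
    (hx : x ≤ n - 1) : mu ν (n - be n) n ≤ St_cm ν x n := by
  apply ENNReal.toReal_mono (measure_ne_top _ _)
  apply measure_mono
  intro y hy
  have hb : be n ≤ 1 := by
    unfold be
    have : (2 : ℝ) ≤ n := by exact_mod_cast h2
    rw [div_le_one (by linarith)]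
    linarith
  exact ⟨⟨by linarith [hy.1], hy.2⟩, Or.inr (fld_near hn h2 hy.1 hy.2)⟩

private theorem St_cm3 {ν : Measure ℝ} [IsFiniteMeasure ν] {a k m n : ℕ} (hk : k % 2 = 0) (hm : m = k + 1)
    (hn : n = k + 2) (hak : a ≤ k) :
    St_cm ν a k + mu ν m (m + al m) + mu ν (n - be n) n ≤ St_cm ν a n := by
  have hmr : (m : ℝ) = k + 1 := by rw [hm]; push_cast; ring
  have hnr : (n : ℝ) = k + 2 := by rw [hn]; push_cast; ring
  have hk0 : (0 : ℝ) ≤ k := Nat.cast_nonneg k
  have har : (a : ℝ) ≤ k := by exact_mod_cast hak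
  have hal : al m ≤ 1 / 2 := by
    unfold al
    rw [div_le_div_iff₀ (by linarith) (by norm_num)]
    linarith
  have hbe : be n ≤ 1 / 4 := by
    unfold be
    rw [div_le_div_iff₀ (by linarith) (by norm_num)]
    linarith
  have h1 : (ν (Ioo (m : ℝ) (m + al m))).toReal + (ν (Ioo ((n : ℝ) - be n) n)).toReal ≤
      (ν (Ioo (k : ℝ) n ∩ Cap)).toReal := by
    apply St_ge
    · rintro x (hx | hx)
      · exact ⟨⟨by linarith [hx.1], by linarith [hx.2]⟩, Or.inl (trp_near (by omega) hx.1 hx.2)⟩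
      · exact ⟨⟨by linarith [hx.1], hx.2⟩, Or.inr (fld_near (by omega) (by omega) hx.1 hx.2)⟩
    · rw [Set.disjoint_left]
      intro x hx hy
      linarith [hx.2, hy.1]
    · exact measurableSet_Ioo
  have h2 : (ν (Ioo (a : ℝ) k ∩ Cap)).toReal + (ν (Ioo (k : ℝ) n ∩ Cap)).toReal ≤
      (ν (Ioo (a : ℝ) n ∩ Cap)).toReal := by
    apply St_ge
    · rintro x (⟨hx, hc⟩ | ⟨hx, hc⟩)
      · exact ⟨⟨hx.1, by linarith [hx.2]⟩, hc⟩
      · exact ⟨⟨by linarith [hx.1], hx.2⟩, hc⟩
    · rw [Set.disjoint_left]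
      rintro x ⟨hx, -⟩ ⟨hy, -⟩
      linarith [hx.2, hy.1]
    · exact measurableSet_Ioo.inter meas_cap
  unfold St_cm mu
  linarith

private theorem St_cc {n : ℕ} (hn : 2 ≤ n) : cc n ≤ 1 := by
  have : (2 : ℝ) ≤ n := by exact_mod_cast hn
  unfold cc
  rw [div_le_one (by linarith)]
  linarith

private theorem St_gl {ν : Measure ℝ} [IsFiniteMeasure ν] {n : ℕ} (hn : 2 ≤ n) {x : ℝ} (hx : x = n - 1) :
    itg ν (gl n) x n = Gl ν n := by
  have h1 := ze_lt_one hn
  have h2 := St_cc hn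
  have e : gl n = fun t => (en n * ind (n - ze n) n t + tn n * ind (n - cc n) n t) - wn n * ind (n - 1 / 2) n t := rfl
  rw [e, itg_sub (bm_add (bm_cmul _ (bm_ind _ _)) (bm_cmul _ (bm_ind _ _))) (bm_cmul _ (bm_ind _ _)),
    itg_add (bm_cmul _ (bm_ind _ _)) (bm_cmul _ (bm_ind _ _)), itg_cmul, itg_cmul, itg_cmul,
    itg_ind (by linarith) le_rfl, itg_ind (by linarith) le_rfl, itg_ind (by linarith) le_rfl]
  rfl

private theorem St_gr {ν : Measure ℝ} [IsFiniteMeasure ν] {n : ℕ} (hn : 2 ≤ n) :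
    itg ν (gr n) n (n + 1) = Gr ν n := by
  have h1 := ze_lt_one hn
  have h2 := St_cc hn
  have e : gr n = fun t => (en n * ind n (n + ze n) t + tn n * ind n (n + cc n) t) - wn n * ind n (n + 1 / 2) t := rfl
  rw [e, itg_sub (bm_add (bm_cmul _ (bm_ind _ _)) (bm_cmul _ (bm_ind _ _))) (bm_cmul _ (bm_ind _ _)),
    itg_add (bm_cmul _ (bm_ind _ _)) (bm_cmul _ (bm_ind _ _)), itg_cmul, itg_cmul, itg_cmul,
    itg_ind le_rfl (by linarith), itg_ind le_rfl (by linarith), itg_ind le_rfl (by linarith)]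
  rfl

private theorem St_bm_gl (n : ℕ) : BM (gl n) :=
  bm_sub (bm_add (bm_cmul _ (bm_ind _ _)) (bm_cmul _ (bm_ind _ _))) (bm_cmul _ (bm_ind _ _))

private theorem St_bm_gr (n : ℕ) : BM (gr n) :=
  bm_sub (bm_add (bm_cmul _ (bm_ind _ _)) (bm_cmul _ (bm_ind _ _))) (bm_cmul _ (bm_ind _ _))

private theorem St_S {ν : Measure ℝ} {a b : ℕ} (ha : 1 ≤ a) (hab : a + 3 ≤ b) (hν : CR ν a b) (j : ℕ) :
    ∀ n : ℕ, n = a + a % 2 + 2 * j → n ≤ b →
      itg ν (fun x => Nx x - phi a b x) a n + (if a < n ∧ n < b then Gr ν n else 0) ≤ 23 / 1250 * St_cm ν a n := by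
  have fin := hν.fin
  have noat := hν.noat
  have hBF : BM (fun x => Nx x - phi a b x) := bm_sub bm_nx (bm_phi a b)
  induction j with
  | zero =>
    intro n hn hnb
    rcases (by omega : a % 2 = 0 ∨ a % 2 = 1) with h | h
    · have : n = a := by omega
      rw [this, if_neg (by omega)]
      simp [itg, St_cm]
    · have hn' : n = a + 1 := by omega
      have hnr : (n : ℝ) = a + 1 := by rw [hn']; push_cast; ring
      rw [if_pos (by omega)]
      have h1 : itg ν (fun x => Nx x - phi a b x) a n ≤ itg ν (gl n) a n := by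
        apply itg_mono hBF (St_bm_gl n)
        intro x hx
        rw [hn']
        rw [hnr] at hx
        exact e51p ha hab h hx
      rw [St_gl (by omega) (by linarith)] at h1
      have hb' : (n : ℝ) + 1 ≤ b := by exact_mod_cast (by omega : n + 1 ≤ b)
      have h2 := e50 hν (n := n) (by omega) (by omega) (by linarith) hb'
      have h3 := St_fld (ν := ν) (n := n) (by omega) (by omega) (x := (a : ℝ)) (by linarith)
      linarith
  | succ j ih =>
    intro n hn hnb
    obtain ⟨k, hk⟩ : ∃ k, k = a + a % 2 + 2 * j := ⟨_, rfl⟩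
    have hnk : n = k + 2 := by omega
    have hke : k % 2 = 0 := by omega
    have hak : a ≤ k := by omega
    have h1 := ih k hk (by omega)
    have h2 := win ha hke (m := k + 1) rfl hak (by omega) hν
    have hnr : (n : ℝ) = k + 2 := by rw [hnk]; push_cast; ring
    have h3 := St_cm3 (ν := ν) (a := a) hke rfl hnk hak
    have har : (a : ℝ) ≤ k := by exact_mod_cast hak
    have sp := itg_split (ν := ν) hBF (x := (a : ℝ)) (y := k) (z := n) har (by linarith)
    rw [sp, hnr]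
    rw [← hnk] at h2
    have h4 : (if a < k ∧ k < b then Gr ν k else 0) = (if a < k then Gr ν k else 0) := by
      by_cases h : a < k
      · rw [if_pos ⟨h, by omega⟩, if_pos h]
      · rw [if_neg (fun h' => h h'.1), if_neg h]
    rw [h4] at h1
    rw [hnr] at h3
    have h5 : (if n < b then Gl ν n else 0) + (if a < n ∧ n < b then Gr ν n else 0) ≤
        23 / 1250 * mu ν ((k : ℝ) + 2 - be n) (k + 2) := by
      by_cases h : n < b
      · rw [if_pos h, if_pos ⟨by omega, h⟩]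
        have hb' : (n : ℝ) + 1 ≤ b := by exact_mod_cast (by omega : n + 1 ≤ b)
        have h6 := e50 hν (n := n) (by omega) (by omega) (by linarith) hb'
        rw [← hnr]
        exact h6
      · rw [if_neg h, if_neg (fun h' => h h'.2)]
        have := mu_nonneg ν ((k : ℝ) + 2 - be n) (k + 2)
        linarith
    linarith

theorem step {ν : Measure ℝ} {a b : ℕ} (ha : 1 ≤ a) (hab : a + 3 ≤ b) (hν : CR ν a b) :
    itg ν Nx a b ≤ itg ν (phi a b) a b + 23 / 1250 * (ν (Ioo (a : ℝ) b ∩ Cap)).toReal := by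
  have fin := hν.fin
  have noat := hν.noat
  have hBF : BM (fun x => Nx x - phi a b x) := bm_sub bm_nx (bm_phi a b)
  have main : itg ν (fun x => Nx x - phi a b x) a b ≤ 23 / 1250 * St_cm ν a b := by
    rcases (by omega : b % 2 = 0 ∨ b % 2 = 1) with h | h
    · have h1 := St_S ha hab hν ((b - (a + a % 2)) / 2) b (by omega) le_rfl
      rw [if_neg (by omega)] at h1
      linarith
    · obtain ⟨c, hc⟩ : ∃ c, b = c + 1 := ⟨b - 1, by omega⟩
      have h1 := St_S ha hab hν ((c - (a + a % 2)) / 2) c (by omega) (by omega)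
      rw [if_pos (by omega)] at h1
      have hbr : (b : ℝ) = c + 1 := by rw [hc]; push_cast; ring
      have hac : (a : ℝ) ≤ c := by exact_mod_cast (by omega : a ≤ c)
      have sp := itg_split (ν := ν) hBF (x := (a : ℝ)) (y := c) (z := b) hac (by linarith)
      rw [sp]
      have h2 : itg ν (fun x => Nx x - phi a b x) c b ≤ itg ν (gr c) c b := by
        apply itg_mono hBF (St_bm_gr c)
        intro x hx
        rw [hbr] at hx
        rw [hc]
        exact e52p ha (by omega) (by omega) hx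
      have h3 : itg ν (gr c) c b = Gr ν c := by
        rw [hbr]
        exact St_gr (by omega)
      have h4 : St_cm ν a c ≤ St_cm ν a b := St_mono le_rfl (by linarith)
      linarith
  rw [itg_sub bm_nx (bm_phi a b)] at main
  unfold St_cm at main
  linarith

end Pool.Agent.Lib.MP_a247fa_nt.V
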